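import Pool.Agent.Helper27K9.FP.Str

/-!
# Four-point functions at the Planck scale: the equivalences (helper27)
-/

set_option autoImplicit false
open MeasureTheory Filter Topology Complex
open scoped ContDiff

namespace Pool.Agent.Helper27K9.FP

open Pool.Agent.W745.RW Pool.Agent.TH294.RS Pool.Agent.Y265.HY
open Pool.Agent.Helper93K9.PE
open Pool.Agent.Helper93K9.PE.FinL

noncomputable section

variable {lam : ℕ → ℝ} {f : ℕ → ℂ → ℝ}

/-- the four-point function -/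
def C4 (φ : ℂ → ℝ) (h : ℝ) (g : ℂ → ℝ) (v : Fin 4 → ℂ) : ℝ :=
  ∫ z, φ z * ∏ i, g (z + ((h * z.im : ℝ) : ℂ) * v i)

/-- rotation of a configuration -/
def rot (β : ℝ) (v : Fin 4 → ℂ) (i : Fin 4) : ℂ := Complex.exp ((β : ℂ) * I) * v i

namespace AlL

open FnL WvL UnL DcL StL

lemma C4_eq (φ : ℂ → ℝ) (n : ℕ) (v : Fin 4 → ℂ) :
    ∫ z, (φ z : ℂ) * ∏ i, SF (hh lam) (WL lam f 0) (v i) n z =
      ((C4 φ (hh lam n) (f n) v : ℝ) : ℂ) := by
  unfold C4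
  rw [← integral_complex_ofReal]
  congr 1; funext z
  simp only [SF, WL0, Complex.ofReal_mul, Complex.ofReal_prod]

lemma c4int {φ : ℂ → ℝ} (hφ : TF UH φ) {h : ℝ} (hh : 0 ≤ h) {g : ℂ → ℝ} (hg : ContinuousOn g UH)
    {v : Fin 4 → ℂ} (hv : ∀ i, h * ‖v i‖ ≤ 1 / 2) :
    Integrable (fun z => φ z * ∏ i, g (z + ((h * z.im : ℝ) : ℂ) * v i)) := by
  have hm : ∀ z ∈ tsupport φ, ∀ i, z + ((h * z.im : ℝ) : ℂ) * v i ∈ UH := by
    intro z hz i
    have hz' : 0 < z.im := hφ.2.2 hz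
    show 0 < (z + ((h * z.im : ℝ) : ℂ) * v i).im
    rw [Complex.add_im, Complex.im_ofReal_mul]
    have h1 : |(v i).im| ≤ ‖v i‖ := Complex.abs_im_le_norm _
    have h2 := (abs_le.1 h1).1
    have h3 := hv i
    have h4 : -(1 / 2) ≤ h * (v i).im := by nlinarith
    nlinarith
  refine PrL.int hφ.1.continuous hφ.2.1 (F := fun z => ∏ i, g (z + ((h * z.im : ℝ) : ℂ) * v i)) ?_
  refine continuousOn_finsetProd _ fun i _ => ?_
  have hT : Continuous (fun z : ℂ => z + ((h * z.im : ℝ) : ℂ) * v i) := by fun_prop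
  exact hg.comp hT.continuousOn fun z hz => hm z hz i

theorem strR (S : Seq lam f) {K : Set ℂ} (hK : IsCompact K) (hKU : K ⊆ UH) {φ : ℂ → ℝ}
    (hφ : TF (interior K) φ) (hφ0 : ∀ z, 0 ≤ φ z) {R : ℝ} (hR : 0 < R) {ε : ℝ} (hε : 0 < ε) :
    ∃ m : ℕ, ∀ᶠ n in atTop, ∃ a : ℕ → ℝ, (∀ k, 0 ≤ a k) ∧
      |(∑ k ∈ Finset.range m, a k) - ((∫ z, φ z * f n z ^ 4) - 3 * ∫ z, φ z)| ≤
        ε * (1 + ∫ z in K, f n z ^ 4) ∧
      ∀ v : Fin 4 → ℂ, (∀ i, ‖v i‖ ≤ R) →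
        |C4 φ (hh lam n) (f n) v -
          (gauss v * (∫ z, φ z) + ∑ k ∈ Finset.range m, a k * pw v (rt m k))| ≤
          ε * (1 + ∫ z in K, f n z ^ 4) := by
  obtain ⟨m, hm⟩ := str S hK hKU hφ hφ0 hR hε
  refine ⟨m, hm.mono fun n hn => ?_⟩
  obtain ⟨a, h1, h2, h3⟩ := hn
  refine ⟨a, h1, h2, fun v hv => ?_⟩
  have h4 := h3 v hv
  rw [C4_eq, ← Complex.ofReal_sub, Complex.norm_real, Real.norm_eq_abs] at h4
  exact h4

lemma pw_le (v : Fin 4 → ℂ) (ζ : ℂ) : |pw v ζ| ≤ 1 := by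
  unfold pw
  have h1 := abs_le.1 (Real.abs_cos_le_one (((v 0 + v 1 - v 2 - v 3) * ζ).im))
  have h2 := abs_le.1 (Real.abs_cos_le_one (((v 0 + v 2 - v 1 - v 3) * ζ).im))
  have h3 := abs_le.1 (Real.abs_cos_le_one (((v 0 + v 3 - v 1 - v 2) * ζ).im))
  rw [abs_le]
  constructor <;> linarith

theorem ineq (S : Seq lam f) {K : Set ℂ} (hK : IsCompact K) (hKU : K ⊆ UH) {φ : ℂ → ℝ}
    (hφ : TF (interior K) φ) (hφ0 : ∀ z, 0 ≤ φ z) {R : ℝ} (hR : 0 < R) {ε : ℝ} (hε : 0 < ε) :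
    ∀ᶠ n in atTop, ∀ v : Fin 4 → ℂ, (∀ i, ‖v i‖ ≤ R) →
      |C4 φ (hh lam n) (f n) v - gauss v * ∫ z, φ z| ≤
        ((∫ z, φ z * f n z ^ 4) - 3 * ∫ z, φ z) + ε * (1 + ∫ z in K, f n z ^ 4) := by
  obtain ⟨m, hm⟩ := strR S hK hKU hφ hφ0 hR (half_pos hε)
  filter_upwards [hm] with n ⟨a, h1, h2, h3⟩ v hv
  have h4 := h3 v hv
  have h5 : |∑ k ∈ Finset.range m, a k * pw v (rt m k)| ≤ ∑ k ∈ Finset.range m, a k := by
    refine (Finset.abs_sum_le_sum_abs _ _).trans (Finset.sum_le_sum fun k _ => ?_)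
    rw [abs_mul, abs_of_nonneg (h1 k)]
    exact mul_le_of_le_one_right (h1 k) (pw_le _ _)
  have h6 := (abs_le.1 h2).2
  have h7 := abs_le.1 h4
  have h8 := abs_le.1 h5
  rw [abs_le]
  constructor <;> linarith

/-- all four-point functions are Gaussian -/
def U4 (lam : ℕ → ℝ) (f : ℕ → ℂ → ℝ) : Prop := ∀ φ, TF UH φ → ∀ R : ℝ, 0 < R → ∀ ε : ℝ, 0 < ε →
  ∀ᶠ n in atTop, ∀ v : Fin 4 → ℂ, (∀ i, ‖v i‖ ≤ R) →
    |C4 φ (hh lam n) (f n) v - gauss v * ∫ z, φ z| ≤ ε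

/-- one two-point function of the squares is Gaussian -/
def P2 (lam : ℕ → ℝ) (f : ℕ → ℂ → ℝ) (w : ℂ) : Prop := ∀ φ, TF UH φ →
  Tendsto (fun n => C4 φ (hh lam n) (f n) ![0, 0, w, w]) atTop
    (𝓝 ((1 + 2 * J0 ‖w‖ ^ 2) * ∫ z, φ z))

/-- the rotation averages of one four-point function are Gaussian -/
def R4 (lam : ℕ → ℝ) (f : ℕ → ℂ → ℝ) (v : Fin 4 → ℂ) : Prop := ∀ φ, TF UH φ →
  Tendsto (fun n => 1 / (2 * Real.pi) * ∫ β in (0 : ℝ)..(2 * Real.pi),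
    C4 φ (hh lam n) (f n) (rot β v)) atTop (𝓝 (gauss v * ∫ z, φ z))

lemma J00 : J0 0 = 1 := by
  unfold J0
  simp only [zero_mul, Real.cos_zero]
  rw [intervalIntegral.integral_const]
  simp only [sub_zero, smul_eq_mul, mul_one]
  field_simp

lemma C40 (φ : ℂ → ℝ) (h : ℝ) (g : ℂ → ℝ) : C4 φ h g (fun _ => 0) = ∫ z, φ z * g z ^ 4 := by
  unfold C4
  congr 1; funext z
  simp only [mul_zero, add_zero, Finset.prod_const, Finset.card_univ, Fintype.card_fin]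

lemma gauss0 : gauss (fun _ => 0) = 3 := by
  unfold gauss
  simp only [sub_zero, norm_zero, J00]
  norm_num

lemma kap0 : kap (fun _ => 0) = 1 := by
  unfold kap
  simp only [sub_zero, add_zero, norm_zero, J00]
  norm_num

lemma z4 : (![0, 0, 0, 0] : Fin 4 → ℂ) = fun _ => 0 := by
  funext i
  fin_cases i <;> rfl

lemma hR_small (S : Seq lam f) (R : ℝ) : ∀ᶠ n in atTop, hh lam n * R ≤ 1 / 2 := by
  have h1 := (hh_lim S).mul_const R
  rw [zero_mul] at h1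
  exact h1.eventually (ge_mem_nhds (by norm_num))

/-- splitting of a test function -/
lemma split {φ : ℂ → ℝ} (hφ : TF UH φ) : ∃ φ1 φ2 : ℂ → ℝ, TF UH φ1 ∧ TF UH φ2 ∧ (∀ z, 0 ≤ φ1 z) ∧
    (∀ z, 0 ≤ φ2 z) ∧ ∀ z, φ z = φ1 z - φ2 z := by
  obtain ⟨ζ, hζ, hζ0, -, hζ1⟩ := Pool.Agent.Y265.RW.cutoff UHo hφ.2.1 hφ.2.2
  obtain ⟨M', hM'⟩ := hφ.2.1.isCompact.exists_bound_of_continuousOn hφ.1.continuous.continuousOn
  set M := max M' 0 with hM
  have hM0 : 0 ≤ M := le_max_right _ _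
  have hb : ∀ z, |φ z| ≤ M * ζ z := by
    intro z
    by_cases hz : z ∈ tsupport φ
    · rw [hζ1 z hz, mul_one]
      exact (hM' z hz).trans (le_max_left _ _)
    · rw [image_eq_zero_of_notMem_tsupport hz, abs_zero]
      exact mul_nonneg hM0 (hζ0 z)
  have t1 : TF UH (fun z => M * ζ z) := by
    refine ⟨contDiff_const.mul hζ.1, hζ.2.1.mul_left, ?_⟩
    exact (tsupport_mul_subset_right).trans hζ.2.2
  have t2 : TF UH (fun z => M * ζ z - φ z) := by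
    refine ⟨t1.1.sub hφ.1, t1.2.1.sub hφ.2.1, ?_⟩
    refine (tsupport_sub _ _).trans (Set.union_subset t1.2.2 hφ.2.2)
  exact ⟨_, _, t1, t2, fun z => mul_nonneg hM0 (hζ0 z),
    fun z => by have := (abs_le.1 (hb z)).2; linarith, fun z => by ring⟩

lemma M4_U4 (S : Seq lam f) (H : M4 f) : U4 lam f := by
  -- nonnegative test functions
  have pos : ∀ φ, TF UH φ → (∀ z, 0 ≤ φ z) → ∀ R : ℝ, 0 < R → ∀ ε : ℝ, 0 < ε →
      ∀ᶠ n in atTop, ∀ v : Fin 4 → ℂ, (∀ i, ‖v i‖ ≤ R) →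
        |C4 φ (hh lam n) (f n) v - gauss v * ∫ z, φ z| ≤ ε := by
    intro φ hφ hφ0 R hR ε hε
    obtain ⟨K, hK, hK1, hK2⟩ := exists_compact_between hφ.2.1 UHo hφ.2.2
    have hφ' : TF (interior K) φ := ⟨hφ.1, hφ.2.1, hK1⟩
    obtain ⟨C, hC⟩ := bd_M4 S H K hK hK2
    have h5 : ∀ᶠ n in atTop, ∫ z, φ z * f n z ^ 4 < 3 * (∫ z, φ z) + ε / 2 :=
      (H φ hφ).eventually (gt_mem_nhds (by linarith))
    filter_upwards [ineq S hK hK2 hφ' hφ0 hR (show 0 < ε / (2 * (1 + |C|)) by positivity), h5, hC]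
      with n k1 k2 k3 v hv
    refine (k1 v hv).trans ?_
    have k5 : ε / (2 * (1 + |C|)) * (1 + ∫ z in K, f n z ^ 4) ≤ ε / 2 := by
      have k6 : 1 + ∫ z in K, f n z ^ 4 ≤ 1 + |C| := by linarith [le_abs_self C]
      calc ε / (2 * (1 + |C|)) * (1 + ∫ z in K, f n z ^ 4) ≤
            ε / (2 * (1 + |C|)) * (1 + |C|) := by gcongr
        _ = ε / 2 := by
          have : (1 + |C|) ≠ 0 := by positivity
          field_simp
    linarith
  intro φ hφ R hR ε hε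
  obtain ⟨φ1, φ2, t1, t2, p1, p2, e⟩ := split hφ
  filter_upwards [pos φ1 t1 p1 R hR (ε / 2) (half_pos hε), pos φ2 t2 p2 R hR (ε / 2) (half_pos hε),
    hR_small S R] with n h1 h2 h3 v hv
  have hn := (hh_pos S n).le
  have hvs : ∀ i, hh lam n * ‖v i‖ ≤ 1 / 2 := fun i =>
    (mul_le_mul_of_nonneg_left (hv i) hn).trans h3
  have i1 := c4int t1 hn (S.sm n).continuousOn hvs
  have i2 := c4int t2 hn (S.sm n).continuousOn hvs
  have e1 : C4 φ (hh lam n) (f n) v = C4 φ1 (hh lam n) (f n) v - C4 φ2 (hh lam n) (f n) v := by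
    unfold C4
    rw [← integral_sub i1 i2]
    congr 1; funext z
    rw [e z]; ring
  have ii : ∀ φ, TF UH φ → Integrable φ := fun φ hφ =>
    hφ.1.continuous.integrable_of_hasCompactSupport hφ.2.1
  have e2 : ∫ z, φ z = (∫ z, φ1 z) - ∫ z, φ2 z := by
    rw [← integral_sub (ii _ t1) (ii _ t2)]
    congr 1; funext z; exact e z
  rw [e1, e2]
  have k1 := abs_le.1 (h1 v hv)
  have k2 := abs_le.1 (h2 v hv)
  rw [abs_le]
  constructor <;> nlinarith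

lemma U4_M4 (H : U4 lam f) : M4 f := by
  intro φ hφ
  rw [Metric.tendsto_atTop']
  intro ε hε
  obtain ⟨N, hN⟩ := eventually_atTop.1 (H φ hφ 1 one_pos (ε / 2) (half_pos hε))
  refine ⟨N, fun n hn => ?_⟩
  have h1 := hN n hn.le (fun _ => 0) (fun _ => by simp)
  rw [C40, gauss0] at h1
  rw [Real.dist_eq]
  linarith

lemma P2_M4 (S : Seq lam f) (hb : Bdf f) {w : ℂ} (H : P2 lam f w) : M4 f := by
  refine M4_of_nonneg S fun φ hφ hφ0 => ?_
  rw [Metric.tendsto_atTop']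
  intro ε hε
  obtain ⟨K, hK, hK1, hK2⟩ := exists_compact_between hφ.2.1 UHo hφ.2.2
  have hφ' : TF (interior K) φ := ⟨hφ.1, hφ.2.1, hK1⟩
  obtain ⟨C, hC⟩ := hb K hK hK2
  obtain ⟨m, hm⟩ := strR S hK hK2 hφ' hφ0 (R := ‖w‖ + 1) (by positivity)
    (show 0 < ε / (8 * (1 + |C|)) by positivity)
  have hP := (Metric.tendsto_atTop'.1 (H φ hφ)) (ε / 8) (by positivity)
  obtain ⟨N1, hN1⟩ := hP
  obtain ⟨N2, hN2⟩ := eventually_atTop.1 (hm.and hC)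
  refine ⟨max N1 N2, fun n hn => ?_⟩
  have hp := hN1 n ((le_max_left _ _).trans_lt hn)
  obtain ⟨⟨a, a0, a1, a2⟩, hX⟩ := hN2 n ((le_max_right _ _).trans hn.le)
  have k5 : ε / (8 * (1 + |C|)) * (1 + ∫ z in K, f n z ^ 4) ≤ ε / 8 := by
    have k6 : 1 + ∫ z in K, f n z ^ 4 ≤ 1 + |C| := by linarith [le_abs_self C]
    calc ε / (8 * (1 + |C|)) * (1 + ∫ z in K, f n z ^ 4) ≤
          ε / (8 * (1 + |C|)) * (1 + |C|) := by gcongr
      _ = ε / 8 := by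
        have : (1 + |C|) ≠ 0 := by positivity
        field_simp
  have hg : gauss ![0, 0, w, w] = 1 + 2 * J0 ‖w‖ ^ 2 := by
    unfold gauss
    simp [J00]
    ring
  have hpw : ∀ ζ : ℂ, 1 / 3 ≤ pw ![0, 0, w, w] ζ := by
    intro ζ
    obtain ⟨c, hc⟩ : ∃ c : ℝ, c = Real.cos ((((0 : ℂ) + 0 - w - w) * ζ).im) := ⟨_, rfl⟩
    have h1 : -1 ≤ c := by rw [hc]; exact Real.neg_one_le_cos _
    have e : pw ![0, 0, w, w] ζ = (c + 1 + 1) / 3 := by
      rw [hc]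
      unfold pw
      simp
    rw [e]
    linarith
  have b1 := a2 ![0, 0, w, w] (fun i => by
    fin_cases i
    · show ‖(0 : ℂ)‖ ≤ _; rw [norm_zero]; positivity
    · show ‖(0 : ℂ)‖ ≤ _; rw [norm_zero]; positivity
    · show ‖w‖ ≤ _; linarith
    · show ‖w‖ ≤ _; linarith)
  rw [hg] at b1
  have b2 : (1 / 3) * (∑ k ∈ Finset.range m, a k) ≤
      ∑ k ∈ Finset.range m, a k * pw ![0, 0, w, w] (rt m k) := by
    rw [Finset.mul_sum]
    refine Finset.sum_le_sum fun k _ => ?_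
    rw [mul_comm]
    exact mul_le_mul_of_nonneg_left (hpw _) (a0 k)
  have b3 : 0 ≤ ∑ k ∈ Finset.range m, a k := Finset.sum_nonneg fun k _ => a0 k
  rw [Real.dist_eq] at hp
  have c1 := abs_le.1 b1
  have c2 := abs_lt.1 hp
  have c3 := abs_le.1 a1
  rw [Real.dist_eq, abs_lt]
  constructor <;> linarith

lemma AvF_eq (φ : ℂ → ℝ) (v : Fin 4 → ℂ) (n : ℕ) : AvF φ lam f v n =
    ((1 / (2 * Real.pi) * ∫ β in (0 : ℝ)..(2 * Real.pi), C4 φ (hh lam n) (f n) (rot β v) : ℝ) : ℂ)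
    := by
  unfold AvF
  have e : ∀ β : ℝ, ∫ z, (φ z : ℂ) *
      ∏ i, SF (hh lam) (WL lam f 0) (Complex.exp ((β : ℂ) * I) * v i) n z =
      ((C4 φ (hh lam n) (f n) (rot β v) : ℝ) : ℂ) := fun β => C4_eq φ n (rot β v)
  simp only [e]
  rw [intervalIntegral.integral_ofReal]
  push_cast
  ring

/-- rotation averages -/
theorem avR (S : Seq lam f) {K : Set ℂ} (hK : IsCompact K) (hKU : K ⊆ UH) {φ : ℂ → ℝ}
    (hφ : TF (interior K) φ) (hφ0 : ∀ z, 0 ≤ φ z) (v : Fin 4 → ℂ) {ε : ℝ} (hε : 0 < ε) :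
    ∀ᶠ n in atTop, |1 / (2 * Real.pi) * (∫ β in (0 : ℝ)..(2 * Real.pi),
      C4 φ (hh lam n) (f n) (rot β v)) - (gauss v * (∫ z, φ z) + kap v *
      ((∫ z, φ z * f n z ^ 4) - 3 * ∫ z, φ z))| ≤ ε * (1 + ∫ z in K, f n z ^ 4) := by
  filter_upwards [fin2 S hK hKU hφ hφ0 v hε] with n hn
  rw [AvF_eq, ← Complex.ofReal_sub, Complex.norm_real, Real.norm_eq_abs] at hn
  exact hn

lemma R4_M4 (S : Seq lam f) (hb : Bdf f) {v : Fin 4 → ℂ} (hv : kap v ≠ 0) (H : R4 lam f v) :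
    M4 f := by
  refine M4_of_nonneg S fun φ hφ hφ0 => ?_
  obtain ⟨K, hK, hK1, hK2⟩ := exists_compact_between hφ.2.1 UHo hφ.2.2
  have hφ' : TF (interior K) φ := ⟨hφ.1, hφ.2.1, hK1⟩
  obtain ⟨C, hC⟩ := hb K hK hK2
  have hk : 0 < |kap v| := abs_pos.2 hv
  rw [Metric.tendsto_atTop']
  intro ε hε
  obtain ⟨N1, hN1⟩ := (Metric.tendsto_atTop'.1 (H φ hφ)) (|kap v| * (ε / 4)) (by positivity)
  obtain ⟨N2, hN2⟩ := eventually_atTop.1 ((avR S hK hK2 hφ' hφ0 v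
    (show 0 < |kap v| * (ε / 4) / (1 + |C|) by positivity)).and hC)
  refine ⟨max N1 N2, fun n hn => ?_⟩
  have hp := hN1 n ((le_max_left _ _).trans_lt hn)
  obtain ⟨ha, hX⟩ := hN2 n ((le_max_right _ _).trans hn.le)
  have k5 : |kap v| * (ε / 4) / (1 + |C|) * (1 + ∫ z in K, f n z ^ 4) ≤ |kap v| * (ε / 4) := by
    have k6 : 1 + ∫ z in K, f n z ^ 4 ≤ 1 + |C| := by linarith [le_abs_self C]
    calc |kap v| * (ε / 4) / (1 + |C|) * (1 + ∫ z in K, f n z ^ 4) ≤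
          |kap v| * (ε / 4) / (1 + |C|) * (1 + |C|) := by gcongr
      _ = |kap v| * (ε / 4) := by
        have : (1 + |C|) ≠ 0 := by positivity
        field_simp
  rw [Real.dist_eq] at hp ⊢
  set A := 1 / (2 * Real.pi) * ∫ β in (0 : ℝ)..(2 * Real.pi), C4 φ (hh lam n) (f n) (rot β v)
  set u := ∫ z, φ z * f n z ^ 4
  set J := ∫ z, φ z
  have h1 : |kap v * (u - 3 * J)| ≤ |kap v| * (ε / 4) + |kap v| * (ε / 4) := by
    have e : kap v * (u - 3 * J) = (A - gauss v * J) -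
      (A - (gauss v * J + kap v * (u - 3 * J))) := by ring
    rw [e]
    refine (abs_sub _ _).trans ?_
    exact add_le_add hp.le (ha.trans k5)
  rw [abs_mul] at h1
  have h2 : |u - 3 * J| ≤ ε / 2 := by
    have h3 : |kap v| * |u - 3 * J| ≤ |kap v| * (ε / 2) := by linarith
    exact le_of_mul_le_mul_left h3 hk
  linarith

/-- the equivalences -/
theorem tfae4 (S : Seq lam f) : List.TFAE [M4 f, U4 lam f, Bdf f ∧ ∃ w : ℂ, P2 lam f w,
    Bdf f ∧ ∃ v : Fin 4 → ℂ, kap v ≠ 0 ∧ R4 lam f v] := by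
  tfae_have 1 → 2 := fun H => M4_U4 S H
  tfae_have 2 → 1 := fun H => U4_M4 H
  tfae_have 1 → 3 := fun H => ⟨bd_M4 S H, 0, fun φ hφ => by
    have e : ∀ n, C4 φ (hh lam n) (f n) ![0, 0, 0, 0] = ∫ z, φ z * f n z ^ 4 := fun n => by
      rw [z4, C40]
    simp only [e, norm_zero, J00]
    convert H φ hφ using 2
    norm_num⟩
  tfae_have 3 → 1 := fun ⟨hb, w, H⟩ => P2_M4 S hb H
  tfae_have 1 → 4 := fun H => ⟨bd_M4 S H, fun _ => 0, by rw [kap0]; exact one_ne_zero,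
    fun φ hφ => by
      have e0 : ∀ β : ℝ, rot β (fun _ => 0) = fun _ => 0 := fun β => by
        funext i; simp [rot]
      simp only [e0, C40, gauss0]
      have e1 : ∀ n, 1 / (2 * Real.pi) * ∫ _β in (0 : ℝ)..(2 * Real.pi), ∫ z, φ z * f n z ^ 4 =
          ∫ z, φ z * f n z ^ 4 := fun n => by
        rw [intervalIntegral.integral_const, sub_zero, smul_eq_mul]
        field_simp
      simp only [e1]
      exact H φ hφ⟩
  tfae_have 4 → 1 := fun ⟨hb, v, hv, H⟩ => R4_M4 S hb hv H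
  tfae_finish

end AlL

end

end Pool.Agent.Helper27K9.FP
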