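import Pool.Agent.Helper27K9.FP.Stm

/-!
# [CB] (helper27)
-/

set_option autoImplicit false
open MeasureTheory Filter Topology Complex
open scoped ContDiff

namespace Pool.Agent.Helper27K9.FP

open Pool.Agent.W745.RW Pool.Agent.TH294.RS Pool.Agent.Y265.HY

noncomputable section

theorem cb : S_CB := by
  intro B hB φ hφ s0 hball h u n hn hu v hv
  have hm : ∀ z ∈ tsupport φ, ∀ β : ℝ, ∀ i,
      z + ((h n * z.im : ℝ) : ℂ) * (Complex.exp ((β : ℂ) * I) * v i) ∈ B := by
    intro z hz β i
    have h1 : ‖((h n : ℝ) : ℂ) * (Complex.exp ((β : ℂ) * I) * v i)‖ ≤ s0 := by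
      rw [norm_mul, norm_mul, Complex.norm_exp_ofReal_mul_I, one_mul, Complex.norm_real,
        Real.norm_of_nonneg hn.le]
      exact hv i
    have h2 := hball z hz _ h1
    have e : z + ((h n * z.im : ℝ) : ℂ) * (Complex.exp ((β : ℂ) * I) * v i) =
        z + (z.im : ℂ) * (((h n : ℝ) : ℂ) * (Complex.exp ((β : ℂ) * I) * v i)) := by
      push_cast; ring
    rw [e]
    exact h2
  have hc : Continuous (fun p : ℝ × ℂ => (φ p.2 : ℂ) *
      ∏ i, SF h u (Complex.exp ((p.1 : ℂ) * I) * v i) n p.2) := by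
    rw [continuous_iff_continuousAt]
    rintro ⟨β, z⟩
    by_cases hz : z ∈ tsupport φ
    · refine ContinuousAt.mul ?_ ?_
      · exact (continuous_ofReal.comp (hφ.1.continuous.comp continuous_snd)).continuousAt
      · refine tendsto_finsetProd _ fun i _ => ?_
        have h1 : ContinuousAt (u n)
            (z + ((h n * z.im : ℝ) : ℂ) * (Complex.exp ((β : ℂ) * I) * v i)) :=
          hu.continuousAt (hB.mem_nhds (hm z hz β i))
        have hT : Continuous (fun p : ℝ × ℂ =>
            p.2 + ((h n * p.2.im : ℝ) : ℂ) * (Complex.exp ((p.1 : ℂ) * I) * v i)) := by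
          fun_prop
        exact ContinuousAt.comp (f := fun p : ℝ × ℂ =>
            p.2 + ((h n * p.2.im : ℝ) : ℂ) * (Complex.exp ((p.1 : ℂ) * I) * v i)) (g := u n)
            (x := (β, z)) h1 hT.continuousAt
    · have h1 : φ =ᶠ[𝓝 z] 0 := notMem_tsupport_iff_eventuallyEq.1 hz
      have h3 := (continuous_snd (X := ℝ) (Y := ℂ)).continuousAt (x := (β, z)) |>.eventually h1
      refine (continuousAt_const (y := (0 : ℂ))).congr (h3.mono fun p hp => ?_)
      have h4 : φ p.2 = 0 := hp
      show (0 : ℂ) = (φ p.2 : ℂ) * ∏ i, SF h u (Complex.exp ((p.1 : ℂ) * I) * v i) n p.2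
      rw [h4]
      simp
  have hs : ∀ β : ℝ, ∫ z, (φ z : ℂ) * ∏ i, SF h u (Complex.exp ((β : ℂ) * I) * v i) n z =
      ∫ z in tsupport φ, (φ z : ℂ) * ∏ i, SF h u (Complex.exp ((β : ℂ) * I) * v i) n z := by
    intro β
    rw [setIntegral_eq_integral_of_forall_compl_eq_zero]
    intro z hz
    rw [image_eq_zero_of_notMem_tsupport hz]
    simp
  simp only [hs]
  exact continuous_parametric_integral_of_continuous (f := fun (β : ℝ) (z : ℂ) => (φ z : ℂ) *
      ∏ i, SF h u (Complex.exp ((β : ℂ) * I) * v i) n z) hc hφ.2.1.isCompact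

end

end Pool.Agent.Helper27K9.FP
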