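import Pool.Agent.Helper27K9.FP.Ra
import Pool.Agent.Helper93K9.PE.All
import Pool.Agent.Helper93K9.PE.Mes
import Pool.Agent.Y265.HY.PS2

/-!
# [CO] (helper27)
-/

set_option autoImplicit false
open MeasureTheory Filter Topology Complex
open scoped ContDiff

namespace Pool.Agent.Helper27K9.FP

open Pool.Agent.W745.RW Pool.Agent.TH294.RS Pool.Agent.Y265.HY
open Pool.Agent.TH294.RG (ea unif mu0 par RawG MM MM_unif fam_rel W1 W1_eq)

noncomputable section

open Pool.Agent.Helper93K9.PE in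
theorem co : S_CO := by
  intro Ω hΩ hΩU h u hraw H K hK hKΩ φ hφ hφ0 v ε hε
  set w : ℤ → ℕ → ℂ → ℂ := ww Complex.im h (fun n z => (u n z : ℂ)) with hw
  set J : ℝ := ∫ z, φ z with hJ
  have hJ0 : 0 ≤ J := integral_nonneg hφ0
  have hm : ∀ K' : Set ℂ, IsCompact K' → K' ⊆ Ω →
      MemLp (fun _ : ℂ => (1 : ℝ)) 2 (volume.restrict K') := by
    intro K' hK' _
    have : IsFiniteMeasure (volume.restrict K') := ⟨by simpa using hK'.measure_lt_top⟩
    exact memLp_const 1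
  have hp : ∀ᵐ z ∂(volume.restrict Ω), par ea (unif z) = 0 := ae_of_all _ FinL.par0
  -- the bound of `φ`
  obtain ⟨M', hM'⟩ := hφ.2.1.isCompact.exists_bound_of_continuousOn
    (hφ.1.continuous.continuousOn (s := tsupport φ))
  set M : ℝ := |M'| with hM
  have hM0 : 0 ≤ M := abs_nonneg _
  have hφM : ∀ z, φ z ≤ M := by
    intro z
    by_cases hz : z ∈ tsupport φ
    · exact (le_abs_self _).trans ((hM' z hz).trans (le_abs_self _))
    · rw [image_eq_zero_of_notMem_tsupport hz]; exact hM0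
  have hcu : ∀ n, ContinuousOn (fun z => u n z ^ 4) Ω := fun n => (hraw.sm n).continuousOn.pow 4
  have hφΩ : TF Ω φ := ⟨hφ.1, hφ.2.1, hφ.2.2.trans (interior_subset.trans hKΩ)⟩
  have hk : ∀ n, ∫ z, φ z * u n z ^ 4 ≤ M * ∫ z in K, u n z ^ 4 := by
    intro n
    have i1 : IntegrableOn (fun z => u n z ^ 4) K := ((hcu n).mono hKΩ).integrableOn_compact hK
    have i2 : Integrable (fun z => φ z * u n z ^ 4) := StarL.cg1 hΩ hφΩ (hcu n)
    have e : ∫ z, φ z * u n z ^ 4 = ∫ z in K, φ z * u n z ^ 4 := by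
      rw [setIntegral_eq_integral_of_forall_compl_eq_zero]
      intro z hz
      rw [TF.zero hφ (fun h => hz (interior_subset h)), zero_mul]
    rw [e, ← integral_const_mul]
    refine setIntegral_mono_on i2.integrableOn (i1.const_mul M) hK.measurableSet fun z _ => ?_
    exact mul_le_mul_of_nonneg_right (hφM z) (by positivity)
  -- parameters
  set δ : ℝ := ε / (3 * (1 + M)) with hδ
  have hδ0 : 0 < δ := by positivity
  have hδM : δ * M ≤ ε / 3 := by
    rw [hδ, div_mul_eq_mul_div, div_le_div_iff₀ (by positivity) (by positivity)]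
    nlinarith
  obtain ⟨N1, hN1⟩ := ke v δ hδ0
  have hGA := (ga v).mul_const (J : ℂ)
  obtain ⟨N2, hN2⟩ := Metric.tendsto_atTop.1 hGA (ε / 3) (by positivity)
  refine ⟨max N1 N2, fun N hN => ?_⟩
  have key := fam_rel (m := fun _ => 1) (ν := unif) hm hp hraw hK hKΩ hφ hφ0 (TS4 N)
    (fun P => ∏ i, bc (v i) (P i)) (fun P => (ix (P 0), ix (P 1), ix (P 2), ix (P 3)))
    (C := 1 + δ) (fun ζ hζ => hN1 N ((le_max_left _ _).trans hN) ζ hζ) (ε := ε / 3) (by positivity)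
  have hg2 := hN2 N ((le_max_right _ _).trans hN)
  filter_upwards [key] with n hn
  have e1 : ∫ z, (φ z : ℂ) * ∏ i, TP w (v i) N n z = ∑ P ∈ TS4 N, (∏ i, bc (v i) (P i)) *
      ∫ z, (φ z : ℂ) * (W1 Complex.im (h n) (u n) (ix (P 0)) z *
        W1 Complex.im (h n) (u n) (ix (P 1)) z * W1 Complex.im (h n) (u n) (ix (P 2)) z *
        W1 Complex.im (h n) (u n) (ix (P 3)) z) := by
    rw [exp_ok Ω h w H φ hφΩ v N n]
    simp only [W1_eq]
    rfl
  have e2 : ∑ P ∈ TS4 N, (∏ i, bc (v i) (P i)) * ∫ z, (φ z : ℂ) *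
      Pool.Agent.TH294.RG.GG' (MM (fun _ => 1) ea unif) (ix (P 0)) (ix (P 1)) (ix (P 2)) (ix (P 3)) z =
      (∑ P ∈ TS4 N, (∏ i, bc (v i) (P i)) *
        GG (ix (P 0)) (ix (P 1)) (ix (P 2)) (ix (P 3))) * (J : ℂ) := by
    rw [Finset.sum_mul]
    refine Finset.sum_congr rfl fun P _ => ?_
    have : ∀ z, Pool.Agent.TH294.RG.GG' (MM (fun _ => 1) ea unif) (ix (P 0)) (ix (P 1)) (ix (P 2))
        (ix (P 3)) z = GG (ix (P 0)) (ix (P 1)) (ix (P 2)) (ix (P 3)) := fun z => PS.GG_u _ _ _ _ z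
    simp only [this]
    rw [integral_mul_const, integral_complex_ofReal]
    ring
  rw [← e1, e2] at hn
  have e3 : ∫ z, φ z * (1 : ℝ) ^ 2 = J := by simp [hJ]
  rw [e3] at hn
  rw [dist_eq_norm] at hg2
  set A := ∫ z, (φ z : ℂ) * ∏ i, TP w (v i) N n z with hA
  set G := (∑ P ∈ TS4 N, (∏ i, bc (v i) (P i)) *
        GG (ix (P 0)) (ix (P 1)) (ix (P 2)) (ix (P 3))) * (J : ℂ) with hG
  have h1 : ‖A - ((gauss v * J : ℝ) : ℂ)‖ ≤ ‖A - G‖ + ‖G - (gauss v : ℂ) * (J : ℂ)‖ := by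
    have := norm_add_le (A - G) (G - (gauss v : ℂ) * (J : ℂ))
    rw [sub_add_sub_cancel] at this
    push_cast
    exact this
  have h2 := hk n
  have hK0 : 0 ≤ ∫ z in K, u n z ^ 4 := integral_nonneg fun z => by positivity
  refine h1.trans ?_
  have h3 : δ * (∫ z, φ z * u n z ^ 4) ≤ ε / 3 * ∫ z in K, u n z ^ 4 := by
    calc δ * (∫ z, φ z * u n z ^ 4) ≤ δ * (M * ∫ z in K, u n z ^ 4) :=
          mul_le_mul_of_nonneg_left h2 hδ0.le
      _ = (δ * M) * ∫ z in K, u n z ^ 4 := by ring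
      _ ≤ ε / 3 * ∫ z in K, u n z ^ 4 := mul_le_mul_of_nonneg_right hδM hK0
  have h4 : 0 ≤ δ * J := mul_nonneg hδ0.le hJ0
  nlinarith

end

end Pool.Agent.Helper27K9.FP
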