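import Pool.Agent.Helper27K9.FP.Ke

/-!
# Discrete measures from Fejer sums (helper27)
-/

set_option autoImplicit false
open MeasureTheory Filter Topology Complex
open scoped ContDiff

namespace Pool.Agent.Helper27K9.FP

noncomputable section

/-- roots of unity -/
def rt (m k : ℕ) : ℂ := Complex.exp (((2 * Real.pi * k / m : ℝ) : ℂ) * I)

namespace DcL

lemma rt_norm (m k : ℕ) : ‖rt m k‖ = 1 := Complex.norm_exp_ofReal_mul_I _

lemma rt_ne (m k : ℕ) : rt m k ≠ 0 := Complex.exp_ne_zero _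

lemma rt_zpow (m k : ℕ) (r : ℤ) : rt m k ^ r =
    Complex.exp (((2 * Real.pi * k * r / m : ℝ) : ℂ) * I) := by
  unfold rt
  rw [← Complex.exp_int_mul]
  congr 1
  push_cast; ring

lemma rt_sum {m : ℕ} (hm : 0 < m) {r : ℤ} (hr : |r| < m) :
    (1 / (m : ℂ)) * ∑ k ∈ Finset.range m, rt m k ^ r = if r = 0 then 1 else 0 := by
  have hm0 : (m : ℂ) ≠ 0 := by exact_mod_cast hm.ne'
  by_cases h0 : r = 0
  · subst h0
    simp only [zpow_zero, Finset.sum_const, Finset.card_range, if_true, nsmul_eq_mul, mul_one]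
    field_simp
  · rw [if_neg h0]
    have e : ∀ k, rt m k ^ r = (Complex.exp (((2 * Real.pi * r / m : ℝ) : ℂ) * I)) ^ k := by
      intro k
      rw [rt_zpow, ← Complex.exp_nat_mul]
      congr 1
      push_cast; ring
    simp only [e]
    have hmR : (m : ℝ) ≠ 0 := by exact_mod_cast hm.ne'
    have h1 : Complex.exp (((2 * Real.pi * r / m : ℝ) : ℂ) * I) ≠ 1 := by
      intro h
      obtain ⟨n, hn⟩ := Complex.exp_eq_one_iff.1 h
      have h2 : ((2 * Real.pi * r / m : ℝ) : ℂ) = ((n * (2 * Real.pi) : ℝ) : ℂ) := by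
        have h3 : ((2 * Real.pi * r / m : ℝ) : ℂ) * I = ((n * (2 * Real.pi) : ℝ) : ℂ) * I := by
          rw [hn]; push_cast; ring
        exact mul_right_cancel₀ Complex.I_ne_zero h3
      have h4 : 2 * Real.pi * r / m = n * (2 * Real.pi) := by exact_mod_cast h2
      have h5 : (r : ℝ) = n * m := by
        have hpi := Real.pi_pos.ne'
        field_simp at h4
        linarith
      have h6 : r = n * (m : ℤ) := by exact_mod_cast h5
      rcases eq_or_ne n 0 with h7 | h7
      · rw [h7, zero_mul] at h6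
        exact h0 h6
      · have h8 : (m : ℤ) ≤ |r| := by
          rw [h6, abs_mul]
          have : (1 : ℤ) ≤ |n| := Int.one_le_abs h7
          have h9 : |(m : ℤ)| = m := abs_of_nonneg (by positivity)
          rw [h9]
          nlinarith [Int.natCast_nonneg m]
        omega
    rw [geom_sum_eq h1, ← Complex.exp_nat_mul]
    have h9 : (m : ℂ) * (((2 * Real.pi * r / m : ℝ) : ℂ) * I) = r * (2 * Real.pi * I) := by
      push_cast
      field_simp
    rw [h9, Complex.exp_int_mul_two_pi_mul_I, sub_self, zero_div, mul_zero]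

/-- the Fejer mean at `η` -/
def Fj (M : ℕ) (D : ℤ → ℂ) (η : ℂ) : ℂ :=
  (1 / (M : ℂ)) * ∑ p ∈ Finset.range M ×ˢ Finset.range M,
    η ^ (-(2 * ((p.1 : ℤ) - p.2))) * D ((p.1 : ℤ) - p.2)

lemma conj_zpow {η : ℂ} (hη : ‖η‖ = 1) (k : ℤ) : (starRingEnd ℂ) (η ^ k) = η ^ (-k) := by
  rw [map_zpow₀, ← WvL.inv_conj hη, inv_zpow, zpow_neg]

lemma Fj_real {M : ℕ} {D : ℤ → ℂ} (hD : ∀ l, (starRingEnd ℂ) (D l) = D (-l)) {η : ℂ}
    (hη : ‖η‖ = 1) : ((Fj M D η).re : ℂ) = Fj M D η := by
  rw [← Complex.conj_eq_iff_re]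
  unfold Fj
  rw [map_mul, map_sum]
  have e0 : (starRingEnd ℂ) (1 / (M : ℂ)) = 1 / (M : ℂ) := by
    rw [map_div₀, map_one, map_natCast]
  rw [e0]
  congr 1
  refine Finset.sum_nbij' (fun p => (p.2, p.1)) (fun p => (p.2, p.1)) ?_ ?_ ?_ ?_ ?_
  · intro p hp
    simp only [Finset.mem_product] at hp ⊢
    exact ⟨hp.2, hp.1⟩
  · intro p hp
    simp only [Finset.mem_product] at hp ⊢
    exact ⟨hp.2, hp.1⟩
  · intro p _; rfl
  · intro p _; rfl
  · intro p _
    rw [map_mul, conj_zpow hη, hD]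
    congr 2
    · ring
    · ring

/-- number of pairs with given difference -/
lemma cnt (M : ℕ) (l : ℤ) : (M : ℝ) - |l| ≤
    (((Finset.range M ×ˢ Finset.range M).filter fun p => (p.1 : ℤ) - p.2 = l).card : ℝ) ∧
    (((Finset.range M ×ˢ Finset.range M).filter fun p => (p.1 : ℤ) - p.2 = l).card : ℝ) ≤ M := by
  have key : ∀ l : ℕ, M ≤ l +
      ((Finset.range M ×ˢ Finset.range M).filter fun p => (p.1 : ℤ) - p.2 = l).card ∧ M ≤ l +
      ((Finset.range M ×ˢ Finset.range M).filter fun p => (p.1 : ℤ) - p.2 = -(l : ℤ)).card := by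
    intro l
    constructor
    · have h := Finset.card_le_card_of_injOn (s := Finset.range (M - l))
        (t := (Finset.range M ×ˢ Finset.range M).filter fun p => (p.1 : ℤ) - p.2 = l)
        (fun b => (b + l, b)) (fun b hb => by
          have hb' : b < M - l := by simpa using hb
          simp only [Finset.coe_filter, Finset.mem_product, Finset.mem_range, Set.mem_ofPred_eq]
          refine ⟨⟨by omega, by omega⟩, by push_cast; ring⟩)
        (fun a _ b _ hab => by simpa using congrArg Prod.snd hab)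
      rw [Finset.card_range] at h
      omega
    · have h := Finset.card_le_card_of_injOn (s := Finset.range (M - l))
        (t := (Finset.range M ×ˢ Finset.range M).filter fun p => (p.1 : ℤ) - p.2 = -(l : ℤ))
        (fun b => (b, b + l)) (fun b hb => by
          have hb' : b < M - l := by simpa using hb
          simp only [Finset.coe_filter, Finset.mem_product, Finset.mem_range, Set.mem_ofPred_eq]
          refine ⟨⟨by omega, by omega⟩, by push_cast; ring⟩)
        (fun a _ b _ hab => by simpa using congrArg Prod.fst hab)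
      rw [Finset.card_range] at h
      omega
  constructor
  · rcases Int.natAbs_eq l with h | h
    · have h1 := (key l.natAbs).1
      rw [← h] at h1
      have h2 : ((|l| : ℤ) : ℝ) = (l.natAbs : ℝ) := by
        rw [Int.abs_eq_natAbs, Int.cast_natCast]
      rw [h2]
      have h3 : (M : ℝ) ≤ (l.natAbs : ℝ) + (((Finset.range M ×ˢ Finset.range M).filter
        fun p => (p.1 : ℤ) - p.2 = l).card : ℝ) := by exact_mod_cast h1
      linarith
    · have h1 := (key l.natAbs).2
      rw [← h] at h1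
      have h2 : ((|l| : ℤ) : ℝ) = (l.natAbs : ℝ) := by
        rw [Int.abs_eq_natAbs, Int.cast_natCast]
      rw [h2]
      have h3 : (M : ℝ) ≤ (l.natAbs : ℝ) + (((Finset.range M ×ˢ Finset.range M).filter
        fun p => (p.1 : ℤ) - p.2 = l).card : ℝ) := by exact_mod_cast h1
      linarith
  · have h := Finset.card_le_card_of_injOn (t := Finset.range M)
      (s := (Finset.range M ×ˢ Finset.range M).filter fun p => (p.1 : ℤ) - p.2 = l)
      (fun p => p.1) (fun p hp => by
        simp only [Finset.coe_filter, Finset.mem_product, Finset.mem_range,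
          Set.mem_ofPred_eq] at hp
        simpa using hp.1.1)
      (fun p hp q hq hpq => by
        simp only [Finset.coe_filter, Finset.mem_product, Finset.mem_range,
          Set.mem_ofPred_eq] at hp hq
        have h1 : p.1 = q.1 := hpq
        have h2 : p.2 = q.2 := by omega
        exact Prod.ext h1 h2)
    rw [Finset.card_range] at h
    exact_mod_cast h

lemma Fj_mom {M m : ℕ} (hm : 0 < m) {D : ℤ → ℂ} {l : ℤ} (hl : 2 * (|l| + M) < m) :
    (1 / (m : ℂ)) * ∑ k ∈ Finset.range m, Fj M D (rt m k) * rt m k ^ (2 * l) =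
      ((((Finset.range M ×ˢ Finset.range M).filter fun p => (p.1 : ℤ) - p.2 = l).card : ℂ) / M) *
        D l := by
  unfold Fj
  have e1 : ∀ k, (1 / (M : ℂ)) * (∑ p ∈ Finset.range M ×ˢ Finset.range M,
      rt m k ^ (-(2 * ((p.1 : ℤ) - p.2))) * D ((p.1 : ℤ) - p.2)) * rt m k ^ (2 * l) =
      (1 / (M : ℂ)) * ∑ p ∈ Finset.range M ×ˢ Finset.range M,
        D ((p.1 : ℤ) - p.2) * rt m k ^ (2 * (l - ((p.1 : ℤ) - p.2))) := by
    intro k
    rw [mul_assoc, Finset.sum_mul]
    congr 1
    refine Finset.sum_congr rfl fun p _ => ?_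
    have : rt m k ^ (2 * (l - ((p.1 : ℤ) - p.2))) =
        rt m k ^ (-(2 * ((p.1 : ℤ) - p.2))) * rt m k ^ (2 * l) := by
      rw [← zpow_add₀ (rt_ne m k)]
      congr 1; ring
    rw [this]; ring
  simp only [e1]
  rw [← Finset.mul_sum, Finset.sum_comm, mul_left_comm, Finset.mul_sum]
  have e2 : ∀ p ∈ Finset.range M ×ˢ Finset.range M, 1 / (m : ℂ) * ∑ k ∈ Finset.range m,
      D ((p.1 : ℤ) - p.2) * rt m k ^ (2 * (l - ((p.1 : ℤ) - p.2))) =
      if (p.1 : ℤ) - p.2 = l then D l else 0 := by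
    intro p hp
    simp only [Finset.mem_product, Finset.mem_range] at hp
    rw [← Finset.mul_sum, mul_left_comm, rt_sum hm]
    · split_ifs with h1 h2 h2
      · rw [h2, mul_one]
      · omega
      · omega
      · rw [mul_zero]
    · have h3 : |2 * (l - ((p.1 : ℤ) - p.2))| ≤ 2 * (|l| + M) := by
        rw [abs_le]
        have h4 := abs_le.1 (le_refl |l|)
        constructor <;> omega
      omega
  rw [Finset.sum_congr rfl e2, ← Finset.sum_filter, Finset.sum_const, nsmul_eq_mul]
  ring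

/-- the discrete measure -/
theorem disc {L : ℕ} {ε : ℝ} (hε : 0 < ε) : ∃ M m : ℕ, 0 < M ∧ 0 < m ∧
    ∀ (D : ℤ → ℂ) (B : ℝ), 0 ≤ B → (∀ l, (starRingEnd ℂ) (D l) = D (-l)) →
    (∀ l : ℤ, |l| ≤ L → ‖D l‖ ≤ B) →
    (∀ k ∈ Finset.range m, -(ε * B) ≤ (Fj M D (rt m k)).re) →
    ∃ a : ℕ → ℝ, (∀ k, 0 ≤ a k) ∧ ((∑ k ∈ Finset.range m, a k : ℝ) : ℂ) = D 0 + ((ε * B : ℝ) : ℂ) ∧
      ∀ l : ℤ, |l| ≤ L →
        ‖(∑ k ∈ Finset.range m, (a k : ℂ) * rt m k ^ (2 * l)) - D l‖ ≤ 2 * (ε * B) := by
  obtain ⟨M', hM'⟩ := exists_nat_ge ((L : ℝ) / ε)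
  set M : ℕ := M' + 1 with hM
  set m : ℕ := 2 * (L + M) + 1 with hm
  have hM0 : 0 < M := by omega
  have hm0 : 0 < m := by omega
  have hMR : (0 : ℝ) < M := by exact_mod_cast hM0
  have hLM : (L : ℝ) / M ≤ ε := by
    rw [div_le_iff₀ hMR]
    rw [div_le_iff₀ hε] at hM'
    have : (M : ℝ) = M' + 1 := by rw [hM]; push_cast; ring
    rw [this]
    nlinarith
  refine ⟨M, m, hM0, hm0, fun D B hB hD hDB hpos => ?_⟩
  refine ⟨fun k => if k < m then (1 / (m : ℝ)) * ((Fj M D (rt m k)).re + ε * B) else 0,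
    fun k => ?_, ?_, ?_⟩
  · beta_reduce
    split_ifs with h
    · have := hpos k (Finset.mem_range.2 h)
      have h2 : 0 ≤ (Fj M D (rt m k)).re + ε * B := by linarith
      positivity
    · exact le_refl _
  · -- total mass
    have h1 := Fj_mom (D := D) (M := M) (l := 0) hm0 (by simp; omega)
    have h2 : ((((Finset.range M ×ˢ Finset.range M).filter
        fun p => (p.1 : ℤ) - p.2 = 0).card : ℝ)) = M := by
      have := cnt M 0
      simp only [abs_zero, Int.cast_zero, sub_zero] at this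
      exact le_antisymm this.2 this.1
    have h3 : ((((Finset.range M ×ˢ Finset.range M).filter
        fun p => (p.1 : ℤ) - p.2 = 0).card : ℂ)) = M := by exact_mod_cast h2
    have hMC : (M : ℂ) ≠ 0 := by exact_mod_cast hM0.ne'
    have hmC : (m : ℂ) ≠ 0 := by exact_mod_cast hm0.ne'
    rw [h3, div_self hMC, one_mul, mul_zero] at h1
    simp only [zpow_zero, mul_one] at h1
    rw [← h1]
    push_cast
    have e : ∀ k ∈ Finset.range m, ((if k < m then (1 / (m : ℝ)) *
        ((Fj M D (rt m k)).re + ε * B) else 0 : ℝ) : ℂ) =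
        (1 / (m : ℂ)) * (Fj M D (rt m k) + ((ε * B : ℝ) : ℂ)) := by
      intro k hk
      rw [if_pos (Finset.mem_range.1 hk)]
      push_cast
      rw [Fj_real hD (rt_norm m k)]
    rw [Finset.sum_congr rfl e, ← Finset.mul_sum, Finset.sum_add_distrib, mul_add,
      Finset.sum_const, Finset.card_range, nsmul_eq_mul]
    push_cast
    field_simp
  · intro l hl
    have hl' : 2 * (|l| + (M : ℤ)) < (m : ℤ) := by omega
    have h1 := Fj_mom (D := D) (M := M) (l := l) hm0 hl'
    have h0 := rt_sum hm0 (r := 2 * l) (by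
      have : |2 * l| = 2 * |l| := by rw [abs_mul]; rfl
      rw [this]; omega)
    have e : ∀ k ∈ Finset.range m, ((if k < m then (1 / (m : ℝ)) *
        ((Fj M D (rt m k)).re + ε * B) else 0 : ℝ) : ℂ) * rt m k ^ (2 * l) =
        (1 / (m : ℂ)) * (Fj M D (rt m k) * rt m k ^ (2 * l)) +
          ((ε * B : ℝ) : ℂ) * ((1 / (m : ℂ)) * rt m k ^ (2 * l)) := by
      intro k hk
      rw [if_pos (Finset.mem_range.1 hk)]
      push_cast
      rw [Fj_real hD (rt_norm m k)]
      ring
    rw [Finset.sum_congr rfl e, Finset.sum_add_distrib, ← Finset.mul_sum, ← Finset.mul_sum,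
      ← Finset.mul_sum, h1, h0]
    set c : ℝ := (((Finset.range M ×ˢ Finset.range M).filter
        fun p => (p.1 : ℤ) - p.2 = l).card : ℝ) with hc
    have hc1 := cnt M l
    have e3 : ((((Finset.range M ×ˢ Finset.range M).filter
        fun p => (p.1 : ℤ) - p.2 = l).card : ℂ)) = ((c : ℝ) : ℂ) := by
      rw [hc]; push_cast; rfl
    rw [e3]
    have e4 : ((c : ℝ) : ℂ) / (M : ℂ) * D l + ((ε * B : ℝ) : ℂ) * (if 2 * l = 0 then 1 else 0) -
        D l = ((c / M - 1 : ℝ) : ℂ) * D l + ((ε * B : ℝ) : ℂ) * (if 2 * l = 0 then 1 else 0) := by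
      push_cast; ring
    rw [e4]
    refine (norm_add_le _ _).trans ?_
    rw [norm_mul, norm_mul, Complex.norm_real, Complex.norm_real, Real.norm_eq_abs,
      Real.norm_eq_abs]
    have k1 : |c / M - 1| ≤ ε := by
      have k2 : c / M - 1 = (c - M) / M := by field_simp
      rw [k2, abs_div, abs_of_pos hMR, div_le_iff₀ hMR]
      have k3 : |c - M| ≤ L := by
        rw [abs_le]
        have k4 : ((|l| : ℤ) : ℝ) ≤ L := by exact_mod_cast hl
        have k5 := hc1.1
        have k6 := hc1.2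
        constructor
        · linarith
        · have : (0 : ℝ) ≤ L := by positivity
          linarith
      rw [div_le_iff₀ hMR] at hLM
      linarith
    have k2 : ‖(if 2 * l = 0 then (1 : ℂ) else 0)‖ ≤ 1 := by
      split_ifs <;> simp
    have k3 := hDB l hl
    have hεB : 0 ≤ ε * B := by positivity
    rw [abs_of_nonneg hεB]
    have k4 : |c / M - 1| * ‖D l‖ ≤ ε * B := mul_le_mul k1 k3 (norm_nonneg _) hε.le
    have k5 : ε * B * ‖(if 2 * l = 0 then (1 : ℂ) else 0)‖ ≤ ε * B :=
      mul_le_of_le_one_right hεB k2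
    linarith

end DcL

end

end Pool.Agent.Helper27K9.FP
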