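import Pool.Agent.Helper27K9.FP.Tl
import Pool.Agent.Helper93K9.PE.Tel

/-! Project FP (helper27), leaf HE (helper93). -/

set_option autoImplicit false
open MeasureTheory Filter Topology Complex
open scoped ContDiff ENNReal

namespace Pool.Agent.Helper27K9.FP

open Pool.Agent.W745.RW Pool.Agent.TH294.RS Pool.Agent.Y265.HY
open Pool.Agent.Helper93K9.PE

noncomputable section

theorem he : S_HE := by
  intro B hB h hpos hlim e he φ hφ hφ0
  obtain ⟨C, hC0, hC⟩ := sup_m2 hB hlim he hφ.2.1 hφ.2.2
  have h1 := TelL.hnul hB hlim he hφ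
  have h2 : Tendsto (fun n => C ^ 2 * (h n * (h n * ∫ z, φ z * ‖e n z‖ ^ 2))) atTop (𝓝 0) := by
    have h3 := (hlim.mul h1).const_mul (C ^ 2)
    simpa using h3
  refine squeeze_zero' (Eventually.of_forall fun n => integral_nonneg fun z =>
    mul_nonneg (hφ0 z) (by positivity)) ?_ h2
  filter_upwards [hC] with n hn
  have hp := hpos n
  have hec : ContinuousOn (e n) B := he.co n
  have i2 : Integrable (fun z => φ z * ‖e n z‖ ^ 2) := TlL.int_cut hφ (hec.norm.pow 2)
  calc ∫ z, φ z * ‖(h n : ℂ) * e n z‖ ^ 4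
      ≤ ∫ z, (C ^ 2 * (h n * h n)) * (φ z * ‖e n z‖ ^ 2) := by
        apply integral_mono_of_nonneg (ae_of_all _ fun z => mul_nonneg (hφ0 z) (by positivity))
          (i2.const_mul _)
        refine ae_of_all _ fun z => ?_
        simp only
        by_cases hz : z ∈ tsupport φ
        · have h3 := hn z hz
          rw [abs_of_pos hp] at h3
          have h4 : (h n * ‖e n z‖) ^ 2 ≤ C ^ 2 := by gcongr
          rw [norm_mul, norm_real, Real.norm_of_nonneg hp.le]
          have h5 : 0 ≤ (h n * h n) * (φ z * ‖e n z‖ ^ 2) := by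
            have := hφ0 z
            positivity
          calc φ z * (h n * ‖e n z‖) ^ 4 = (h n * ‖e n z‖) ^ 2 * ((h n * h n) * (φ z * ‖e n z‖ ^ 2)) := by
                ring
            _ ≤ C ^ 2 * ((h n * h n) * (φ z * ‖e n z‖ ^ 2)) := by gcongr
            _ = _ := by ring
        · rw [image_eq_zero_of_notMem_tsupport hz]
          simp
    _ = _ := by
        rw [integral_const_mul]
        ring

end

end Pool.Agent.Helper27K9.FP
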