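import Pool.Agent.Helper27K9.FP.Stm

/-!
# [PR] comparison of products (helper27)
-/

set_option autoImplicit false
open MeasureTheory Filter Topology Complex
open scoped ContDiff

namespace Pool.Agent.Helper27K9.FP

noncomputable section

namespace PrL

lemma amgm (a b c d : ℝ) : a * b * c * d ≤ (a ^ 4 + b ^ 4 + c ^ 4 + d ^ 4) / 4 := by
  nlinarith [sq_nonneg (a * b - c * d), sq_nonneg (a ^ 2 - b ^ 2), sq_nonneg (c ^ 2 - d ^ 2)]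

lemma young {r x y z η : ℝ} (hη : 0 < η) (hr : 0 ≤ r) :
    r * x * y * z ≤ r ^ 4 / η ^ 3 + η * (x ^ 4 + y ^ 4 + z ^ 4) := by
  have h1 := amgm (r / η) x y z
  have h2 := mul_le_mul_of_nonneg_left h1 hη.le
  have e1 : η * (r / η * x * y * z) = r * x * y * z := by field_simp
  have e2 : η * (((r / η) ^ 4 + x ^ 4 + y ^ 4 + z ^ 4) / 4) =
      (r ^ 4 / η ^ 3 + η * (x ^ 4 + y ^ 4 + z ^ 4)) / 4 := by
    field_simp
    ring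
  rw [e1, e2] at h2
  have h3 : 0 ≤ r ^ 4 / η ^ 3 + η * (x ^ 4 + y ^ 4 + z ^ 4) := by positivity
  linarith

lemma eight (a b : ℂ) : ‖b‖ ^ 4 ≤ 8 * ‖a‖ ^ 4 + 8 * ‖a - b‖ ^ 4 := by
  have h1 : ‖b‖ ≤ ‖a‖ + ‖a - b‖ := by
    have := norm_sub_le a (a - b)
    rwa [sub_sub_cancel] at this
  have h2 := pow_le_pow_left₀ (norm_nonneg b) h1 4
  refine h2.trans ?_
  set x := ‖a‖
  set y := ‖a - b‖
  have hx : 0 ≤ x := norm_nonneg _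
  have hy : 0 ≤ y := norm_nonneg _
  nlinarith [sq_nonneg (x - y), sq_nonneg (x ^ 2 - y ^ 2), mul_nonneg hx hy,
    mul_nonneg (mul_nonneg hx hy) (sq_nonneg (x - y)), sq_nonneg (x * x - y * y)]

/-- integrability on the support -/
lemma int {E : Type*} [NormedAddCommGroup E] [NormedSpace ℝ E] {φ : ℂ → ℝ} (hφ : Continuous φ)
    (hφc : HasCompactSupport φ) {F : ℂ → E} (hF : ContinuousOn F (tsupport φ)) :
    Integrable (fun z => φ z • F z) := by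
  have h1 : IntegrableOn (fun z => φ z • F z) (tsupport φ) :=
    (hφ.continuousOn.smul hF).integrableOn_compact hφc
  refine (integrableOn_iff_integrable_of_support_subset ?_).1 h1
  intro z hz
  by_contra h
  apply hz
  show φ z • F z = 0
  rw [image_eq_zero_of_notMem_tsupport h, zero_smul]

end PrL

open PrL in
theorem pr : S_PR := by
  intro φ hφ hφc hφ0 a b ha hb M r hM hr η hη hη1
  have iA : ∀ i, Integrable (fun z => φ z * ‖a i z‖ ^ 4) := fun i =>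
    PrL.int hφ hφc (F := fun z => ‖a i z‖ ^ 4) ((ha i).norm.pow 4)
  have iB : ∀ i, Integrable (fun z => φ z * ‖b i z‖ ^ 4) := fun i =>
    PrL.int hφ hφc (F := fun z => ‖b i z‖ ^ 4) ((hb i).norm.pow 4)
  have iD : ∀ i, Integrable (fun z => φ z * ‖a i z - b i z‖ ^ 4) := fun i =>
    PrL.int hφ hφc (F := fun z => ‖a i z - b i z‖ ^ 4) (((ha i).sub (hb i)).norm.pow 4)
  have iPa : Integrable (fun z => (φ z : ℂ) * ∏ i, a i z) := by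
    have h := PrL.int hφ hφc (F := fun z => ∏ i, a i z) (continuousOn_finsetProd _ fun i _ => ha i)
    simpa only [Complex.real_smul] using h
  have iPb : Integrable (fun z => (φ z : ℂ) * ∏ i, b i z) := by
    have h := PrL.int hφ hφc (F := fun z => ∏ i, b i z) (continuousOn_finsetProd _ fun i _ => hb i)
    simpa only [Complex.real_smul] using h
  have hB : ∀ i, ∫ z, φ z * ‖b i z‖ ^ 4 ≤ 8 * M + 8 * r := by
    intro i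
    calc ∫ z, φ z * ‖b i z‖ ^ 4 ≤ ∫ z, (8 * (φ z * ‖a i z‖ ^ 4) + 8 * (φ z * ‖a i z - b i z‖ ^ 4)) := by
          refine integral_mono (iB i) (((iA i).const_mul 8).add ((iD i).const_mul 8)) fun z => ?_
          have h1 := mul_le_mul_of_nonneg_left (eight (a i z) (b i z)) (hφ0 z)
          show φ z * ‖b i z‖ ^ 4 ≤ 8 * (φ z * ‖a i z‖ ^ 4) + 8 * (φ z * ‖a i z - b i z‖ ^ 4)
          linarith
      _ = 8 * (∫ z, φ z * ‖a i z‖ ^ 4) + 8 * ∫ z, φ z * ‖a i z - b i z‖ ^ 4 := by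
          rw [integral_add ((iA i).const_mul 8) ((iD i).const_mul 8), integral_const_mul,
            integral_const_mul]
      _ ≤ 8 * M + 8 * r := by linarith [hM i, hr i]
  have hM0 : 0 ≤ M := (integral_nonneg fun z => mul_nonneg (hφ0 z) (by positivity)).trans (hM 0)
  have hr0 : 0 ≤ r := (integral_nonneg fun z => mul_nonneg (hφ0 z) (by positivity)).trans (hr 0)
  -- the pointwise bound
  have hpt : ∀ z, ‖(φ z : ℂ) * ∏ i, a i z - (φ z : ℂ) * ∏ i, b i z‖ ≤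
      (1 / η ^ 3) * (φ z * ‖a 0 z - b 0 z‖ ^ 4 + φ z * ‖a 1 z - b 1 z‖ ^ 4 +
        φ z * ‖a 2 z - b 2 z‖ ^ 4 + φ z * ‖a 3 z - b 3 z‖ ^ 4) +
      η * (φ z * ‖a 1 z‖ ^ 4 + 2 * (φ z * ‖a 2 z‖ ^ 4) + 3 * (φ z * ‖a 3 z‖ ^ 4) +
        3 * (φ z * ‖b 0 z‖ ^ 4) + 2 * (φ z * ‖b 1 z‖ ^ 4) + φ z * ‖b 2 z‖ ^ 4) := by
    intro z
    rw [← mul_sub, norm_mul, Complex.norm_real, Real.norm_of_nonneg (hφ0 z), Fin.prod_univ_four,
      Fin.prod_univ_four]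
    have e : a 0 z * a 1 z * a 2 z * a 3 z - b 0 z * b 1 z * b 2 z * b 3 z =
        (a 0 z - b 0 z) * a 1 z * a 2 z * a 3 z + (a 1 z - b 1 z) * b 0 z * a 2 z * a 3 z +
        (a 2 z - b 2 z) * b 0 z * b 1 z * a 3 z + (a 3 z - b 3 z) * b 0 z * b 1 z * b 2 z := by ring
    have h0 := young (x := ‖a 1 z‖) (y := ‖a 2 z‖) (z := ‖a 3 z‖) hη (norm_nonneg (a 0 z - b 0 z))
    have h1 := young (x := ‖b 0 z‖) (y := ‖a 2 z‖) (z := ‖a 3 z‖) hη (norm_nonneg (a 1 z - b 1 z))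
    have h2 := young (x := ‖b 0 z‖) (y := ‖b 1 z‖) (z := ‖a 3 z‖) hη (norm_nonneg (a 2 z - b 2 z))
    have h3 := young (x := ‖b 0 z‖) (y := ‖b 1 z‖) (z := ‖b 2 z‖) hη (norm_nonneg (a 3 z - b 3 z))
    have h4 : ‖a 0 z * a 1 z * a 2 z * a 3 z - b 0 z * b 1 z * b 2 z * b 3 z‖ ≤
        ‖a 0 z - b 0 z‖ * ‖a 1 z‖ * ‖a 2 z‖ * ‖a 3 z‖ + ‖a 1 z - b 1 z‖ * ‖b 0 z‖ * ‖a 2 z‖ * ‖a 3 z‖ +
        ‖a 2 z - b 2 z‖ * ‖b 0 z‖ * ‖b 1 z‖ * ‖a 3 z‖ +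
        ‖a 3 z - b 3 z‖ * ‖b 0 z‖ * ‖b 1 z‖ * ‖b 2 z‖ := by
      rw [e]
      refine (norm_add_le _ _).trans (add_le_add ((norm_add_le _ _).trans (add_le_add
        ((norm_add_le _ _).trans (add_le_add ?_ ?_)) ?_)) ?_) <;>
      · rw [norm_mul, norm_mul, norm_mul]
    have h5 := mul_le_mul_of_nonneg_left (h4.trans (add_le_add (add_le_add (add_le_add h0 h1) h2) h3))
      (hφ0 z)
    refine h5.trans (le_of_eq ?_)
    ring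
  have i1 : Integrable (fun z => φ z * ‖a 0 z - b 0 z‖ ^ 4 + φ z * ‖a 1 z - b 1 z‖ ^ 4 +
        φ z * ‖a 2 z - b 2 z‖ ^ 4 + φ z * ‖a 3 z - b 3 z‖ ^ 4) :=
    (((iD 0).add (iD 1)).add (iD 2)).add (iD 3)
  have i2 : Integrable (fun z => φ z * ‖a 1 z‖ ^ 4 + 2 * (φ z * ‖a 2 z‖ ^ 4) +
        3 * (φ z * ‖a 3 z‖ ^ 4) +
        3 * (φ z * ‖b 0 z‖ ^ 4) + 2 * (φ z * ‖b 1 z‖ ^ 4) + φ z * ‖b 2 z‖ ^ 4) :=
    (((((iA 1).add ((iA 2).const_mul 2)).add ((iA 3).const_mul 3)).add ((iB 0).const_mul 3)).add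
      ((iB 1).const_mul 2)).add (iB 2)
  rw [← integral_sub iPa iPb]
  have h1 := norm_integral_le_of_norm_le ((i1.const_mul (1 / η ^ 3)).add (i2.const_mul η))
    (ae_of_all _ hpt)
  refine h1.trans ?_
  have e1 : ∫ z, (φ z * ‖a 0 z - b 0 z‖ ^ 4 + φ z * ‖a 1 z - b 1 z‖ ^ 4 +
        φ z * ‖a 2 z - b 2 z‖ ^ 4 + φ z * ‖a 3 z - b 3 z‖ ^ 4) =
      (∫ z, φ z * ‖a 0 z - b 0 z‖ ^ 4) + (∫ z, φ z * ‖a 1 z - b 1 z‖ ^ 4) +
        (∫ z, φ z * ‖a 2 z - b 2 z‖ ^ 4) + ∫ z, φ z * ‖a 3 z - b 3 z‖ ^ 4 := by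
    have j1 : Integrable (fun z => φ z * ‖a 0 z - b 0 z‖ ^ 4 + φ z * ‖a 1 z - b 1 z‖ ^ 4) :=
      (iD 0).add (iD 1)
    have j2 : Integrable (fun z => φ z * ‖a 0 z - b 0 z‖ ^ 4 + φ z * ‖a 1 z - b 1 z‖ ^ 4 +
        φ z * ‖a 2 z - b 2 z‖ ^ 4) := j1.add (iD 2)
    rw [integral_add j2 (iD 3), integral_add j1 (iD 2), integral_add (iD 0) (iD 1)]
  have e2 : ∫ z, (φ z * ‖a 1 z‖ ^ 4 + 2 * (φ z * ‖a 2 z‖ ^ 4) +
        3 * (φ z * ‖a 3 z‖ ^ 4) +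
        3 * (φ z * ‖b 0 z‖ ^ 4) + 2 * (φ z * ‖b 1 z‖ ^ 4) + φ z * ‖b 2 z‖ ^ 4) =
      (∫ z, φ z * ‖a 1 z‖ ^ 4) + 2 * (∫ z, φ z * ‖a 2 z‖ ^ 4) + 3 * (∫ z, φ z * ‖a 3 z‖ ^ 4) +
        3 * (∫ z, φ z * ‖b 0 z‖ ^ 4) + 2 * (∫ z, φ z * ‖b 1 z‖ ^ 4) +
        ∫ z, φ z * ‖b 2 z‖ ^ 4 := by
    have j1 : Integrable (fun z => φ z * ‖a 1 z‖ ^ 4 + 2 * (φ z * ‖a 2 z‖ ^ 4)) :=
      (iA 1).add ((iA 2).const_mul 2)
    have j2 : Integrable (fun z => φ z * ‖a 1 z‖ ^ 4 + 2 * (φ z * ‖a 2 z‖ ^ 4) +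
        3 * (φ z * ‖a 3 z‖ ^ 4)) := j1.add ((iA 3).const_mul 3)
    have j3 : Integrable (fun z => φ z * ‖a 1 z‖ ^ 4 + 2 * (φ z * ‖a 2 z‖ ^ 4) +
        3 * (φ z * ‖a 3 z‖ ^ 4) + 3 * (φ z * ‖b 0 z‖ ^ 4)) := j2.add ((iB 0).const_mul 3)
    have j4 : Integrable (fun z => φ z * ‖a 1 z‖ ^ 4 + 2 * (φ z * ‖a 2 z‖ ^ 4) +
        3 * (φ z * ‖a 3 z‖ ^ 4) + 3 * (φ z * ‖b 0 z‖ ^ 4) + 2 * (φ z * ‖b 1 z‖ ^ 4)) :=
      j3.add ((iB 1).const_mul 2)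
    rw [integral_add j4 (iB 2), integral_add j3 ((iB 1).const_mul 2),
      integral_add j2 ((iB 0).const_mul 3), integral_add j1 ((iA 3).const_mul 3),
      integral_add (iA 1) ((iA 2).const_mul 2), integral_const_mul, integral_const_mul,
      integral_const_mul, integral_const_mul]
  have e3 := integral_add (i1.const_mul (1 / η ^ 3)) (i2.const_mul η)
  rw [integral_const_mul, integral_const_mul, e1, e2] at e3
  refine (le_of_eq e3).trans ?_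
  have k1 : 1 / η ^ 3 * ((∫ z, φ z * ‖a 0 z - b 0 z‖ ^ 4) + (∫ z, φ z * ‖a 1 z - b 1 z‖ ^ 4) +
        (∫ z, φ z * ‖a 2 z - b 2 z‖ ^ 4) + ∫ z, φ z * ‖a 3 z - b 3 z‖ ^ 4) ≤ 1 / η ^ 3 * (4 * r) := by
    apply mul_le_mul_of_nonneg_left _ (by positivity)
    linarith [hr 0, hr 1, hr 2, hr 3]
  have k2 : η * ((∫ z, φ z * ‖a 1 z‖ ^ 4) + 2 * (∫ z, φ z * ‖a 2 z‖ ^ 4) +
        3 * (∫ z, φ z * ‖a 3 z‖ ^ 4) +
        3 * (∫ z, φ z * ‖b 0 z‖ ^ 4) + 2 * (∫ z, φ z * ‖b 1 z‖ ^ 4) +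
        ∫ z, φ z * ‖b 2 z‖ ^ 4) ≤ η * (54 * M + 48 * r) := by
    apply mul_le_mul_of_nonneg_left _ hη.le
    linarith [hM 1, hM 2, hM 3, hB 0, hB 1, hB 2]
  have k3 : 1 / η ^ 3 * (4 * r) ≤ 100 * (r / η ^ 3) := by
    have : 0 ≤ r / η ^ 3 := by positivity
    rw [show 1 / η ^ 3 * (4 * r) = 4 * (r / η ^ 3) by ring]
    linarith
  have k4 : η * (54 * M + 48 * r) ≤ 100 * (η * (M + r)) := by
    nlinarith [mul_nonneg hη.le hM0, mul_nonneg hη.le hr0]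
  linarith

end

end Pool.Agent.Helper27K9.FP
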