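import Pool.Agent.Helper27K9.FP.Stm
import Pool.Agent.Helper93K9.PE.DvBase
import Pool.Agent.Helper93K9.PE.Tay
import Pool.Agent.Helper93K9.PE.Der

/-! Project FP (helper27), leaf T4 (helper93): Taylor's formula in `L⁴`. -/

set_option autoImplicit false
open MeasureTheory Filter Topology Complex
open scoped ContDiff ENNReal

namespace Pool.Agent.Helper27K9.FP

open Pool.Agent.W745.RW Pool.Agent.TH294.RS Pool.Agent.Y265.HY
open Pool.Agent.Helper93K9.PE

noncomputable section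

namespace T4L

open LocL StarL IdL DerL DvL

/-- the law of `t a`, `t` uniform in `(0,1]` -/
def mt (a : ℂ) : Measure ℂ :=
  Measure.map (fun t : ℝ => (t : ℂ) * a) (volume.restrict (Set.Ioc (0 : ℝ) 1))

lemma mt_ct (a : ℂ) : Continuous (fun t : ℝ => (t : ℂ) * a) := by fun_prop

instance mt_pr (a : ℂ) : IsProbabilityMeasure (mt a) := by
  have : IsProbabilityMeasure (volume.restrict (Set.Ioc (0 : ℝ) 1)) := ⟨by simp⟩
  exact Measure.isProbabilityMeasure_map (mt_ct a).measurable.aemeasurable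

lemma t_le {a : ℂ} (ha : ‖a‖ ≤ 1) {t : ℝ} (ht : t ∈ Set.Icc (0 : ℝ) 1) : ‖(t : ℂ) * a‖ ≤ 1 := by
  rw [norm_mul, norm_real, Real.norm_of_nonneg ht.1]
  nlinarith [norm_nonneg a, ht.1, ht.2]

lemma mt_ae {a : ℂ} (ha : ‖a‖ ≤ 1) : ∀ᵐ x ∂mt a, ‖x‖ ≤ 1 := by
  unfold mt
  rw [ae_map_iff (mt_ct a).measurable.aemeasurable
    (measurableSet_le continuous_norm.measurable measurable_const)]
  exact (ae_restrict_iff' measurableSet_Ioc).2 (ae_of_all _ fun t ht =>
    t_le ha (Set.Ioc_subset_Icc_self ht))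

lemma mt_eq {a : ℂ} (ha : ‖a‖ ≤ 1) {k : ℂ → ℝ}
    (hk : ContinuousOn k (Metric.closedBall (0 : ℂ) 1)) :
    ∫ x, k x ∂mt a = ∫ t in Set.Ioc (0 : ℝ) 1, k ((t : ℂ) * a) := by
  have hc : Continuous (fun x => k (rb x)) :=
    hk.comp_continuous rb_cont fun x => by simpa using rb_le x
  have e1 : ∫ x, k x ∂mt a = ∫ x, k (rb x) ∂mt a :=
    integral_congr_ae ((mt_ae ha).mono fun x hx => by simp only [rb_eq hx])
  rw [e1]
  unfold mt
  rw [integral_map (mt_ct a).measurable.aemeasurable hc.aestronglyMeasurable]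
  exact setIntegral_congr_fun measurableSet_Ioc fun t ht => by
    simp only [rb_eq (t_le ha (Set.Ioc_subset_Icc_self ht))]

/-- grouping the pairs by their sum -/
lemma TS_sum (N : ℕ) (f : ℕ × ℕ → ℂ) : ∑ p ∈ TS N, f p =
    ∑ j ∈ Finset.range N, ∑ p ∈ Finset.HasAntidiagonal.antidiagonal j, f p := by
  have h1 : ∀ p ∈ TS N, p.1 + p.2 ∈ Finset.range N := by
    intro p hp
    unfold TS at hp
    exact Finset.mem_range.2 (Finset.mem_filter.1 hp).2
  rw [← Finset.sum_fiberwise_of_maps_to h1]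
  refine Finset.sum_congr rfl fun j hj => Finset.sum_congr ?_ fun _ _ => rfl
  ext p
  rw [Finset.mem_filter, Finset.HasAntidiagonal.mem_antidiagonal]
  constructor
  · exact fun h => h.2
  · intro h
    refine ⟨?_, h⟩
    have h2 := Finset.mem_range.1 hj
    unfold TS
    rw [Finset.mem_filter, Finset.mem_product, Finset.mem_range, Finset.mem_range]
    omega

lemma coef (k l : ℕ) : ((Nat.factorial (k + l) : ℂ))⁻¹ * ((k + l).choose k : ℂ) =
    ((k.factorial : ℂ))⁻¹ * ((l.factorial : ℂ))⁻¹ := by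
  have h := Nat.add_choose_mul_factorial_mul_factorial k l
  have h2 : ((k + l).choose k : ℂ) * (k.factorial : ℂ) * (l.factorial : ℂ) =
      (Nat.factorial (k + l) : ℂ) := by
    rw [Nat.choose_symm_add]
    exact_mod_cast h
  have h3 : (k.factorial : ℂ) ≠ 0 := by exact_mod_cast (Nat.factorial_pos k).ne'
  have h4 : (l.factorial : ℂ) ≠ 0 := by exact_mod_cast (Nat.factorial_pos l).ne'
  have h5 : (Nat.factorial (k + l) : ℂ) ≠ 0 := by exact_mod_cast (Nat.factorial_pos _).ne'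
  field_simp
  linear_combination h2

lemma main_sum {B : Set ℂ} (hB : IsOpen B) {h : ℕ → ℝ} {u : ℕ → ℂ → ℂ} {n : ℕ}
    (hu : ContDiffOn ℝ ∞ (u n) B) {z : ℂ} (hz : z ∈ B) (v : ℂ) (N : ℕ) :
    ∑ j ∈ Finset.range N, ((Nat.factorial j : ℂ))⁻¹ *
      ((dv (((h n * z.im : ℝ) : ℂ) * v))^[j] (u n)) z = ∑ p ∈ TS N, be v p * EJ h u p.1 p.2 n z := by
  rw [TS_sum]
  refine Finset.sum_congr rfl fun j _ => ?_
  rw [expand hB hu _ j z hz, Finset.mul_sum]
  refine Finset.sum_congr rfl fun p hp => ?_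
  have h3 : p.1 + p.2 = j := Finset.HasAntidiagonal.mem_antidiagonal.1 hp
  subst h3
  have hc := coef p.1 p.2
  unfold be EJ DvL.G
  rw [map_mul, conj_ofReal, div_pow, div_pow]
  have e : ((Nat.factorial (p.1 + p.2) : ℂ))⁻¹ * (((p.1 + p.2).choose p.1 : ℂ) *
      ((2⁻¹ : ℂ) ^ (p.1 + p.2) * ((((h n * z.im : ℝ) : ℂ) * v) ^ p.1 *
        (((h n * z.im : ℝ) : ℂ) * (starRingEnd ℂ) v) ^ p.2)) * (dd^[p.1] (db^[p.2] (u n))) z) =
      (((Nat.factorial (p.1 + p.2) : ℂ))⁻¹ * ((p.1 + p.2).choose p.1 : ℂ)) *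
      ((2⁻¹ : ℂ) ^ (p.1 + p.2) * ((((h n * z.im : ℝ) : ℂ) * v) ^ p.1 *
        (((h n * z.im : ℝ) : ℂ) * (starRingEnd ℂ) v) ^ p.2)) *
        (dd^[p.1] (db^[p.2] (u n))) z := by ring
  rw [e, hc, mul_pow, mul_pow, pow_add, pow_add, inv_pow, inv_pow]
  field_simp

/-- the derivative of order `N` along the direction -/
lemma top_le {B : Set ℂ} (hB : IsOpen B) {h : ℕ → ℝ} {u : ℕ → ℂ → ℂ} {n : ℕ} (hn : 0 < h n)
    (hu : ContDiffOn ℝ ∞ (u n) B) {z z' : ℂ} (hz : 0 < z.im) (hz' : z' ∈ B)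
    (hy : z.im ≤ 2 * z'.im) {R : ℝ} (hR : 0 < R) {v : ℂ} (hv : ‖v‖ ≤ R) (N : ℕ) :
    ‖((dv (((h n * z.im : ℝ) : ℂ) * v))^[N] (u n)) z'‖ ≤
      (2 * R) ^ N * ∑ p ∈ Finset.HasAntidiagonal.antidiagonal N, ‖EJ h u p.1 p.2 n z'‖ := by
  have hy' : 0 < z'.im := by linarith
  rw [expand hB hu _ N z' hz', Finset.mul_sum]
  refine (norm_sum_le _ _).trans (Finset.sum_le_sum fun p hp => ?_)
  have h3 : p.1 + p.2 = N := Finset.HasAntidiagonal.mem_antidiagonal.1 hp
  set V : ℂ := ((h n * z.im : ℝ) : ℂ) * v with hV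
  have hVn : ‖V‖ ≤ 2 * R * (h n * z'.im) := by
    rw [hV, norm_mul, norm_real, Real.norm_of_nonneg (by positivity)]
    calc h n * z.im * ‖v‖ ≤ h n * (2 * z'.im) * R := by gcongr
      _ = 2 * R * (h n * z'.im) := by ring
  clear_value V
  rw [norm_mul, norm_mul, norm_mul, norm_mul, norm_pow, norm_pow, norm_pow,
    RCLike.norm_conj, ← pow_add, h3]
  have hch : ‖(N.choose p.1 : ℂ)‖ ≤ 2 ^ N := by
    rw [Complex.norm_natCast]
    exact_mod_cast Nat.choose_le_two_pow N p.1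
  have h2 : ‖(2⁻¹ : ℂ)‖ = 2⁻¹ := by simp
  rw [h2]
  unfold EJ
  rw [norm_mul, norm_pow, norm_real, Real.norm_of_nonneg (by positivity : 0 ≤ h n * z'.im), h3]
  have hG0 := norm_nonneg (DvL.G (u n) p.1 p.2 z')
  calc ‖(N.choose p.1 : ℂ)‖ * (2⁻¹ ^ N * ‖V‖ ^ N) * ‖DvL.G (u n) p.1 p.2 z'‖
      ≤ 2 ^ N * (2⁻¹ ^ N * (2 * R * (h n * z'.im)) ^ N) * ‖DvL.G (u n) p.1 p.2 z'‖ := by gcongr
    _ = (2 ^ N * 2⁻¹ ^ N) * (2 * R * (h n * z'.im)) ^ N * ‖DvL.G (u n) p.1 p.2 z'‖ := by ring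
    _ = (2 * R) ^ N * ((h n * z'.im) ^ N * ‖(dd^[p.1] (db^[p.2] (u n))) z'‖) := by
        rw [← mul_pow]
        norm_num
        rw [mul_pow (2 * R)]
        unfold DvL.G
        ring

lemma pt {B : Set ℂ} (hB : IsOpen B) (hBU : B ⊆ UH) {h : ℕ → ℝ} {u : ℕ → ℂ → ℂ} {n : ℕ}
    (hn : 0 < h n) (hu : ContDiffOn ℝ ∞ (u n) B) {R : ℝ} (hR : 0 < R) (hRh : R * h n ≤ 1 / 2)
    {z : ℂ} (hz : ∀ x : ℂ, ‖x‖ ≤ 1 → z + ((R * h n * z.im : ℝ) : ℂ) * x ∈ B) {v : ℂ}
    (hv : ‖v‖ ≤ R) {N : ℕ} (hN : 1 ≤ N) :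
    ‖SF h u v n z - ∑ p ∈ TS N, be v p * EJ h u p.1 p.2 n z‖ ^ 4 ≤
      ((2 * R) ^ N / (Nat.factorial (N - 1) : ℝ)) ^ 4 * ((N : ℝ) + 1) ^ 3 *
        ∑ p ∈ Finset.HasAntidiagonal.antidiagonal N,
          ∫ x, ‖EJ h u p.1 p.2 n (z + ((R * h n * z.im : ℝ) : ℂ) * x)‖ ^ 4 ∂mt (v / (R : ℂ)) := by
  obtain ⟨m, rfl⟩ : ∃ m, N = m + 1 := ⟨N - 1, by omega⟩
  have hz0 : z ∈ B := by simpa using hz 0 (by simp)
  have hy : 0 < z.im := hBU hz0
  set a : ℂ := v / (R : ℂ) with ha_def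
  have hRc : (R : ℂ) ≠ 0 := by exact_mod_cast hR.ne'
  have ha : ‖a‖ ≤ 1 := by
    rw [ha_def, norm_div, norm_real, Real.norm_of_nonneg hR.le]
    exact (div_le_one hR).2 hv
  have hva : v = (R : ℂ) * a := by rw [ha_def]; field_simp
  set V : ℂ := ((h n * z.im : ℝ) : ℂ) * v with hV
  have hpt : ∀ t : ℝ, z + (t : ℂ) * V = z + ((R * h n * z.im : ℝ) : ℂ) * ((t : ℂ) * a) := by
    intro t
    rw [hV, hva]
    push_cast
    ring
  have hseg : ∀ t ∈ Set.Icc (0 : ℝ) 1, z + (t : ℂ) * V ∈ B := by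
    intro t ht
    rw [hpt t]
    exact hz _ (t_le ha ht)
  have h1 := tay B hB (u n) hu z V hseg m
  rw [main_sum hB hu hz0 v (m + 1)] at h1
  have e0 : SF h u v n z = u n (z + V) := rfl
  rw [e0]
  -- the pieces
  have hcts : ∀ p : ℕ × ℕ, ContinuousOn (fun x : ℂ =>
      ‖EJ h u p.1 p.2 n (z + ((R * h n * z.im : ℝ) : ℂ) * x)‖) (Metric.closedBall (0 : ℂ) 1) := by
    intro p
    have hE : ContinuousOn (EJ h u p.1 p.2 n) B := by
      unfold EJ
      have h2 : Continuous (fun z : ℂ => ((h n * z.im : ℝ) : ℂ) ^ (p.1 + p.2)) := by fun_prop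
      exact h2.continuousOn.mul (DvL.G_sm hB hu p.1 p.2).continuousOn
    exact (hE.comp (f := fun x : ℂ => z + ((R * h n * z.im : ℝ) : ℂ) * x) (by fun_prop)
      fun x hx => hz x (mem_closedBall_zero_iff.1 hx)).norm
  set b : ℕ × ℕ → ℂ → ℝ := fun p x => ‖EJ h u p.1 p.2 n (z + ((R * h n * z.im : ℝ) : ℂ) * x)‖
    with hb
  have hSc : ContinuousOn (fun x => ∑ p ∈ Finset.HasAntidiagonal.antidiagonal (m + 1), b p x)
      (Metric.closedBall (0 : ℂ) 1) := continuousOn_finsetSum _ fun p _ => hcts p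
  have h2 : ∫ t in (0 : ℝ)..1, ‖((dv V)^[m + 1] (u n)) (z + (t : ℂ) * V)‖ ≤
      (2 * R) ^ (m + 1) * ∫ x, (∑ p ∈ Finset.HasAntidiagonal.antidiagonal (m + 1), b p x) ∂mt a := by
    rw [mt_eq ha hSc, intervalIntegral.integral_of_le zero_le_one, ← integral_const_mul]
    apply integral_mono_of_nonneg (ae_of_all _ fun t => norm_nonneg _)
    · have h3 : ContinuousOn (fun t : ℝ => (2 * R) ^ (m + 1) *
          ∑ p ∈ Finset.HasAntidiagonal.antidiagonal (m + 1), b p ((t : ℂ) * a)) (Set.Icc 0 1) :=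
        continuousOn_const.mul (hSc.comp (f := fun t : ℝ => (t : ℂ) * a) (by fun_prop)
          fun t ht => mem_closedBall_zero_iff.2 (t_le ha ht))
      exact (h3.integrableOn_compact isCompact_Icc).mono_set Set.Ioc_subset_Icc_self
    · refine (ae_restrict_iff' measurableSet_Ioc).2 (ae_of_all _ fun t ht => ?_)
      have ht' := Set.Ioc_subset_Icc_self ht
      have h4 : z.im ≤ 2 * (z + (t : ℂ) * V).im := by
        rw [hpt t]
        simp only [add_im, mul_im, ofReal_re, ofReal_im, zero_mul, add_zero]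
        have h5 : -(1 : ℝ) ≤ t * a.im := by
          have h6 := t_le ha ht'
          have h7 := (abs_le.1 ((Complex.abs_im_le_norm _).trans h6)).1
          simpa using h7
        have h8 : R * h n * z.im ≤ z.im / 2 := by nlinarith
        have h9 : 0 ≤ R * h n * z.im := by positivity
        nlinarith
      have h3 := top_le hB hn hu hy (hseg t ht') h4 hR hv (m + 1)
      rw [← hV, hpt t] at h3
      simp only [hpt t]
      exact h3
  have h3 : (∫ x, (∑ p ∈ Finset.HasAntidiagonal.antidiagonal (m + 1), b p x) ∂mt a) ^ 4 ≤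
      ((((m + 1 : ℕ) : ℝ)) + 1) ^ 3 * ∑ p ∈ Finset.HasAntidiagonal.antidiagonal (m + 1),
        ∫ x, b p x ^ 4 ∂mt a := by
    have j1 := jens (mt_ae ha) hSc
    have j2 := jens (mt_ae ha) (hSc.pow 2)
    have j3 : (∫ x, (∑ p ∈ Finset.HasAntidiagonal.antidiagonal (m + 1), b p x) ∂mt a) ^ 4 ≤
        ∫ x, (∑ p ∈ Finset.HasAntidiagonal.antidiagonal (m + 1), b p x) ^ 4 ∂mt a := by
      calc _ = ((∫ x, (∑ p ∈ Finset.HasAntidiagonal.antidiagonal (m + 1), b p x) ∂mt a) ^ 2) ^ 2 := by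
            ring
        _ ≤ (∫ x, (∑ p ∈ Finset.HasAntidiagonal.antidiagonal (m + 1), b p x) ^ 2 ∂mt a) ^ 2 := by
            gcongr
        _ ≤ _ := j2
        _ = _ := by
            refine integral_congr_ae (ae_of_all _ fun x => ?_)
            exact (pow_mul _ 2 2).symm
    refine j3.trans ?_
    have hb4 : ∀ p : ℕ × ℕ, Integrable (fun x => b p x ^ 4) (mt a) := fun p =>
      m_int (mt_ae ha) (G := fun x => b p x ^ 4) ((hcts p).pow 4)
    rw [← integral_finsetSum _ fun p _ => hb4 p, ← integral_const_mul]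
    apply integral_mono_of_nonneg (ae_of_all _ fun x => by positivity)
    · exact (m_int (mt_ae ha) (G := fun x => ∑ p ∈ Finset.HasAntidiagonal.antidiagonal (m + 1),
        b p x ^ 4) (continuousOn_finsetSum _ fun p _ => (hcts p).pow 4)).const_mul _
    · refine ae_of_all _ fun x => ?_
      have h5 := pow_sum_div_card_le_sum_pow (s := Finset.HasAntidiagonal.antidiagonal (m + 1))
        (f := fun p => b p x) (fun p _ => norm_nonneg _) 3
      rw [Finset.Nat.card_antidiagonal] at h5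
      have h6 : (0 : ℝ) < ((m + 1 + 1 : ℕ) : ℝ) ^ 3 := by positivity
      rw [div_le_iff₀ h6] at h5
      push_cast at h5 ⊢
      linarith
  have hf : (0 : ℝ) < (Nat.factorial m : ℝ) := by exact_mod_cast Nat.factorial_pos m
  have hI0 : 0 ≤ ∫ x, (∑ p ∈ Finset.HasAntidiagonal.antidiagonal (m + 1), b p x) ∂mt a :=
    integral_nonneg fun x => Finset.sum_nonneg fun p _ => norm_nonneg _
  have h4 : ‖u n (z + V) - ∑ p ∈ TS (m + 1), be v p * EJ h u p.1 p.2 n z‖ ≤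
      (2 * R) ^ (m + 1) / (Nat.factorial m : ℝ) *
        ∫ x, (∑ p ∈ Finset.HasAntidiagonal.antidiagonal (m + 1), b p x) ∂mt a := by
    refine h1.trans ?_
    calc _ ≤ ((Nat.factorial m : ℝ))⁻¹ * ((2 * R) ^ (m + 1) *
          ∫ x, (∑ p ∈ Finset.HasAntidiagonal.antidiagonal (m + 1), b p x) ∂mt a) := by gcongr
      _ = _ := by ring
  calc ‖u n (z + V) - ∑ p ∈ TS (m + 1), be v p * EJ h u p.1 p.2 n z‖ ^ 4
      ≤ ((2 * R) ^ (m + 1) / (Nat.factorial m : ℝ) *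
        ∫ x, (∑ p ∈ Finset.HasAntidiagonal.antidiagonal (m + 1), b p x) ∂mt a) ^ 4 := by
        gcongr
    _ = ((2 * R) ^ (m + 1) / (Nat.factorial m : ℝ)) ^ 4 *
        (∫ x, (∑ p ∈ Finset.HasAntidiagonal.antidiagonal (m + 1), b p x) ∂mt a) ^ 4 := by ring
    _ ≤ ((2 * R) ^ (m + 1) / (Nat.factorial m : ℝ)) ^ 4 *
        (((((m + 1 : ℕ) : ℝ)) + 1) ^ 3 * ∑ p ∈ Finset.HasAntidiagonal.antidiagonal (m + 1),
        ∫ x, b p x ^ 4 ∂mt a) := by gcongr
    _ = _ := by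
        rw [Nat.add_sub_cancel]
        ring

end T4L

open T4L in
theorem t4 : S_T4 := by
  intro B hB hBU φ φ' hφ hφ0 hφ' hφ'0 s0 hs0 hs01 hball hsh h u n hn hu R hR hRs hRh N hN v hv
  have ha : ‖v / (R : ℂ)‖ ≤ 1 := by
    rw [norm_div, norm_real, Real.norm_of_nonneg hR.le]
    exact (div_le_one hR).2 hv
  have hE : ∀ p : ℕ × ℕ, ContinuousOn (EJ h u p.1 p.2 n) B := by
    intro p
    unfold EJ
    have h2 : Continuous (fun z : ℂ => ((h n * z.im : ℝ) : ℂ) ^ (p.1 + p.2)) := by fun_prop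
    exact h2.continuousOn.mul (DvL.G_sm hB hu p.1 p.2).continuousOn
  have hS := fun p : ℕ × ℕ => DerL.shift (mt_ae ha) hB hφ hball hsh (r := R * h n)
    (by positivity) hRs (Q := fun z => ‖EJ h u p.1 p.2 n z‖ ^ 4) (fun z => by positivity)
    ((hE p).norm.pow 4)
  simp only [abs_of_nonneg (hφ0 _)] at hS
  set C : ℝ := ((2 * R) ^ N / (Nat.factorial (N - 1) : ℝ)) ^ 4 * ((N : ℝ) + 1) ^ 3 with hC
  have hC0 : 0 ≤ C := by positivity
  calc ∫ z, φ z * ‖SF h u v n z - ∑ p ∈ TS N, be v p * EJ h u p.1 p.2 n z‖ ^ 4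
      ≤ ∫ z, C * ∑ p ∈ Finset.HasAntidiagonal.antidiagonal N, φ z *
          ∫ x, ‖EJ h u p.1 p.2 n (z + ((R * h n * z.im : ℝ) : ℂ) * x)‖ ^ 4 ∂mt (v / (R : ℂ)) := by
        apply integral_mono_of_nonneg (ae_of_all _ fun z => mul_nonneg (hφ0 z) (by positivity))
        · exact (integrable_finsetSum _ fun p _ => (hS p).1).const_mul C
        · refine ae_of_all _ fun z => ?_
          simp only
          by_cases hz : z ∈ tsupport φ
          · have h1 := pt hB hBU hn hu hR hRh (z := z) (by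
              intro x hx
              have h3 : ‖((R * h n : ℝ) : ℂ) * x‖ ≤ s0 := by
                rw [norm_mul, norm_real, Real.norm_of_nonneg (by positivity)]
                have : 0 ≤ R * h n := by positivity
                nlinarith
              have h4 := hball z hz _ h3
              have e : z + ((R * h n * z.im : ℝ) : ℂ) * x = z + (z.im : ℂ) * (((R * h n : ℝ) : ℂ) * x) := by
                push_cast; ring
              rw [e]
              exact h4) hv hN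
            calc _ ≤ φ z * (C * ∑ p ∈ Finset.HasAntidiagonal.antidiagonal N,
                ∫ x, ‖EJ h u p.1 p.2 n (z + ((R * h n * z.im : ℝ) : ℂ) * x)‖ ^ 4
                  ∂mt (v / (R : ℂ))) := mul_le_mul_of_nonneg_left h1 (hφ0 z)
              _ = _ := by
                rw [Finset.mul_sum, Finset.mul_sum, Finset.mul_sum]
                exact Finset.sum_congr rfl fun p _ => by ring
          · rw [image_eq_zero_of_notMem_tsupport hz]
            simp
    _ = C * ∑ p ∈ Finset.HasAntidiagonal.antidiagonal N, ∫ z, φ z *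
          ∫ x, ‖EJ h u p.1 p.2 n (z + ((R * h n * z.im : ℝ) : ℂ) * x)‖ ^ 4 ∂mt (v / (R : ℂ)) := by
        rw [integral_const_mul, integral_finsetSum _ fun p _ => (hS p).1]
    _ ≤ C * ∑ p ∈ Finset.HasAntidiagonal.antidiagonal N,
          2 * ∫ z, φ' z * ‖EJ h u p.1 p.2 n z‖ ^ 4 := by
        apply mul_le_mul_of_nonneg_left _ hC0
        exact Finset.sum_le_sum fun p _ => (hS p).2
    _ = _ := by
        rw [hC, ← Finset.mul_sum]
        ring

end

end Pool.Agent.Helper27K9.FP
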