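import Pool.Agent.Helper27K9.FP.Stm
import Pool.Agent.Helper93K9.PE.DvBase

/-! Project FP (helper27), leaf TL (helper93): the expansion in `L⁴`. -/

set_option autoImplicit false
open MeasureTheory Filter Topology Complex
open scoped ContDiff ENNReal

namespace Pool.Agent.Helper27K9.FP

open Pool.Agent.W745.RW Pool.Agent.TH294.RS Pool.Agent.Y265.HY
open Pool.Agent.Helper93K9.PE

noncomputable section

namespace TlL

/-- `‖a + ∑ b‖⁴ ≤ 8 ‖a‖⁴ + 8 (|s|+1)³ ∑ ‖b‖⁴` -/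
lemma four (a : ℂ) {ι : Type} (s : Finset ι) (b : ι → ℂ) :
    ‖a + ∑ p ∈ s, b p‖ ^ 4 ≤ 8 * ‖a‖ ^ 4 + 8 * ((s.card : ℝ) + 1) ^ 3 * ∑ p ∈ s, ‖b p‖ ^ 4 := by
  have h1 : ‖a + ∑ p ∈ s, b p‖ ≤ ‖a‖ + ∑ p ∈ s, ‖b p‖ :=
    (norm_add_le _ _).trans (add_le_add le_rfl (norm_sum_le _ _))
  have h2 : ∀ x y : ℝ, 0 ≤ x → 0 ≤ y → (x + y) ^ 4 ≤ 8 * x ^ 4 + 8 * y ^ 4 := by
    intro x y hx hy
    nlinarith [sq_nonneg (x - y), sq_nonneg (x ^ 2 - y ^ 2), sq_nonneg (x + y), mul_nonneg hx hy,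
      sq_nonneg ((x - y) ^ 2), mul_nonneg (mul_nonneg hx hy) (sq_nonneg (x - y))]
  have h3 : (∑ p ∈ s, ‖b p‖) ^ 4 ≤ ((s.card : ℝ) + 1) ^ 3 * ∑ p ∈ s, ‖b p‖ ^ 4 := by
    have h0 : 0 ≤ ∑ p ∈ s, ‖b p‖ ^ 4 := Finset.sum_nonneg fun p _ => by positivity
    by_cases hs : s.card = 0
    · rw [Finset.card_eq_zero.1 hs]
      simp
    · have h5 := pow_sum_div_card_le_sum_pow (s := s) (f := fun p => ‖b p‖)
        (fun p _ => norm_nonneg _) 3
      have h6 : (0 : ℝ) < (s.card : ℝ) ^ 3 := by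
        have : 0 < s.card := Nat.pos_of_ne_zero hs
        positivity
      rw [div_le_iff₀ h6] at h5
      refine h5.trans ?_
      rw [mul_comm]
      apply mul_le_mul_of_nonneg_right _ h0
      gcongr
      linarith
  have h4 : 0 ≤ ∑ p ∈ s, ‖b p‖ := Finset.sum_nonneg fun p _ => norm_nonneg _
  calc ‖a + ∑ p ∈ s, b p‖ ^ 4 ≤ (‖a‖ + ∑ p ∈ s, ‖b p‖) ^ 4 := by gcongr
    _ ≤ 8 * ‖a‖ ^ 4 + 8 * (∑ p ∈ s, ‖b p‖) ^ 4 := h2 _ _ (norm_nonneg _) h4
    _ ≤ 8 * ‖a‖ ^ 4 + 8 * (((s.card : ℝ) + 1) ^ 3 * ∑ p ∈ s, ‖b p‖ ^ 4) := by gcongr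
    _ = _ := by ring

lemma be_le {R : ℝ} {v : ℂ} (hv : ‖v‖ ≤ R) (p : ℕ × ℕ) : ‖be v p‖ ≤ (1 + R) ^ (p.1 + p.2) := by
  have hR : 0 ≤ R := (norm_nonneg v).trans hv
  have h1 : ∀ (w : ℂ) (k : ℕ), ‖w‖ ≤ R → ‖(w / 2) ^ k / (k.factorial : ℂ)‖ ≤ (1 + R) ^ k := by
    intro w k hw
    rw [norm_div, norm_pow, norm_div, Complex.norm_natCast, Complex.norm_ofNat]
    have h2 : (1 : ℝ) ≤ (k.factorial : ℝ) := by exact_mod_cast Nat.factorial_pos k
    have h3 : (‖w‖ / 2) ^ k ≤ (1 + R) ^ k := by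
      gcongr
      linarith
    exact (div_le_self (by positivity) h2).trans h3
  unfold be
  rw [norm_mul, pow_add]
  exact mul_le_mul (h1 v _ hv) (h1 _ _ (by rw [RCLike.norm_conj]; exact hv)) (norm_nonneg _)
    (by positivity)

lemma int_cut {B : Set ℂ} {φ : ℂ → ℝ} (hφ : TF B φ) {F : ℂ → ℝ} (hF : ContinuousOn F B) :
    Integrable (fun z => φ z * F z) := by
  have h1 := (Pool.Agent.W686.RW.X.int_phi hφ (f := fun z => (F z : ℂ))
    (continuous_ofReal.comp_continuousOn hF)).re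
  refine h1.congr (ae_of_all _ fun z => ?_)
  simp

/-- the constants tend to `0` -/
lemma fac_lim (R : ℝ) : Tendsto (fun N : ℕ => ((2 * R) ^ N / (Nat.factorial (N - 1) : ℝ)) ^ 4 *
    ((N : ℝ) + 1) ^ 4) atTop (𝓝 0) := by
  have h1 : Tendsto (fun N : ℕ => ((N : ℝ) + 1) * ((2 * R) ^ N / (Nat.factorial (N - 1) : ℝ)))
      atTop (𝓝 0) := by
    rw [← tendsto_add_atTop_iff_nat 2]
    have h2 := FloorSemiring.tendsto_pow_div_factorial_atTop (2 * |R|)
    have h3 := (h2.const_mul (3 * (2 * |R|) ^ 2))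
    rw [mul_zero] at h3
    apply squeeze_zero_norm' _ h3
    refine Eventually.of_forall fun N => ?_
    rw [show N + 2 - 1 = N + 1 by omega, norm_mul, norm_div, norm_pow, norm_mul, Real.norm_ofNat,
      Real.norm_eq_abs R, Real.norm_of_nonneg (by positivity), Real.norm_of_nonneg (by positivity),
      Nat.factorial_succ]
    push_cast
    have hf : (0 : ℝ) < (N.factorial : ℝ) := by exact_mod_cast Nat.factorial_pos N
    rw [pow_add]
    have e1 : ((N : ℝ) + 2 + 1) * ((2 * |R|) ^ N * (2 * |R|) ^ 2 / (((N : ℝ) + 1) * (N.factorial : ℝ))) =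
        (((N : ℝ) + 3) / ((N : ℝ) + 1)) * ((2 * |R|) ^ 2 * ((2 * |R|) ^ N / (N.factorial : ℝ))) := by
      field_simp
      ring
    rw [e1, mul_assoc]
    apply mul_le_mul_of_nonneg_right _ (by positivity)
    rw [div_le_iff₀ (by positivity)]
    nlinarith [(Nat.cast_nonneg N : (0 : ℝ) ≤ (N : ℝ))]
  have h4 := h1.pow 4
  rw [zero_pow (by norm_num)] at h4
  refine h4.congr fun N => ?_
  ring

end TlL

open TlL in
theorem tl (hSH : S_SH) (hJ4 : S_J4) (hJET : S_JET) (hT4 : S_T4) (hHE : S_HE) : S_TL := by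
  intro B h w hSY hBU hEX φ hφ hφ0
  have hB := hSY.op
  obtain ⟨φ', hφ', hφ'0, s0, hs0, hs01, hball, hsh⟩ := hSH B hB hBU φ hφ
  have hwc : ∀ k n, ContinuousOn (w k n) B := fun k n => (hSY.bd k).co n
  refine ⟨φ', hφ', hφ'0, s0, hs0, hs01, hball, ?_, ?_⟩
  · intro n v hv
    have hn := hSY.hpos n
    have h1 := hsh ((h n : ℂ) * v) (by
      rw [norm_mul, norm_real, Real.norm_of_nonneg hn.le]; exact hv)
      (fun z => ‖w 0 n z‖ ^ 4) (fun z => by positivity) ((hwc 0 n).norm.pow 4)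
    have e : ∀ z, |φ z| * ‖w 0 n (z + (z.im : ℂ) * ((h n : ℂ) * v))‖ ^ 4 =
        φ z * ‖SF h (w 0) v n z‖ ^ 4 := by
      intro z
      rw [abs_of_nonneg (hφ0 z)]
      unfold SF
      congr 4
      push_cast
      ring
    simp only [e] at h1
    exact h1
  · intro R hR η hη
    obtain ⟨N₀, hN₀⟩ := ((fac_lim R).eventually_lt_const (show (0 : ℝ) < η / 64 by positivity)
      |>.and (eventually_ge_atTop 1)).exists_forall_of_atTop
    refine ⟨N₀, fun N hN => ?_⟩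
    obtain ⟨hAN, hN1⟩ := hN₀ N hN
    set A : ℝ := ((2 * R) ^ N / (Nat.factorial (N - 1) : ℝ)) ^ 4 with hA
    have hA0 : 0 ≤ A := by positivity
    -- errors
    have hjet : ∀ p : ℕ × ℕ, ∃ e, M2C B h e ∧ ∀ n, ∀ z ∈ B,
        EJ h (w 0) p.1 p.2 n z = (-1) ^ p.2 * w ((p.1 : ℤ) - p.2) n z + (h n : ℂ) * e n z :=
      fun p => (hJET B h w hSY hEX p.1 p.2).2
    choose e he1 he2 using hjet
    set K : ℝ := 8 * (((TS N).card : ℝ) + 1) ^ 3 with hK
    have hK0 : 0 < K := by positivity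
    set D : ℝ := K * ((1 + R) ^ (2 * N)) ^ 4 with hD
    have hR1 : 0 < 1 + R := by linarith
    have hD0 : 0 < D := by positivity
    have hev1 : ∀ᶠ n in atTop, ∀ p ∈ TS N, ∫ z, φ z * ‖(h n : ℂ) * e p n z‖ ^ 4 ≤
        η / (2 * D * ((TS N).card + 1)) := by
      rw [Filter.eventually_all_finset]
      intro p _
      have h1 := hHE B hB h hSY.hpos hSY.hlim (e p) (he1 p) φ hφ hφ0
      exact (h1.eventually_lt_const (show (0 : ℝ) < η / (2 * D * ((TS N).card + 1)) by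
        positivity)).mono fun n hn => hn.le
    have hev2 : ∀ᶠ n in atTop, ∀ p ∈ Finset.HasAntidiagonal.antidiagonal N,
        ∫ z, φ' z * ‖EJ h (w 0) p.1 p.2 n z‖ ^ 4 ≤ (∫ z, φ' z * ‖w 0 n z‖ ^ 4) + 1 := by
      rw [Filter.eventually_all_finset]
      intro p _
      exact hJ4 B h w hSY hBU hEX φ' hφ' hφ'0 p.1 p.2 1 one_pos
    have hlim : Tendsto (fun n => R * h n) atTop (𝓝 0) := by
      simpa using hSY.hlim.const_mul R
    filter_upwards [hev1, hev2, hlim.eventually_lt_const hs0,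
      hlim.eventually_lt_const (show (0 : ℝ) < 1 / 2 by norm_num)] with n h1 h2 h3 h4 v hv
    have hn := hSY.hpos n
    have hT := hT4 B hB hBU φ φ' hφ hφ0 hφ' hφ'0 s0 hs0 hs01 hball hsh h (w 0) n hn
      ((hSY.bd 0).sm n) R hR h3.le h4.le N hN1 v hv
    rw [← hA] at hT
    set I0 : ℝ := ∫ z, φ' z * ‖w 0 n z‖ ^ 4 with hI0
    have hI00 : 0 ≤ I0 := integral_nonneg fun z => mul_nonneg (hφ'0 z) (by positivity)
    have hT2 : ∫ z, φ z * ‖SF h (w 0) v n z - ∑ p ∈ TS N, be v p * EJ h (w 0) p.1 p.2 n z‖ ^ 4 ≤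
        η / 32 * (1 + I0) := by
      refine hT.trans ?_
      have h5 : ∑ p ∈ Finset.HasAntidiagonal.antidiagonal N,
          ∫ z, φ' z * ‖EJ h (w 0) p.1 p.2 n z‖ ^ 4 ≤ ((N : ℝ) + 1) * (I0 + 1) := by
        refine (Finset.sum_le_sum h2).trans ?_
        rw [Finset.sum_const, Finset.Nat.card_antidiagonal, nsmul_eq_mul]
        push_cast
        exact le_rfl
      calc A * (2 * ((N : ℝ) + 1) ^ 3 * ∑ p ∈ Finset.HasAntidiagonal.antidiagonal N,
          ∫ z, φ' z * ‖EJ h (w 0) p.1 p.2 n z‖ ^ 4)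
          ≤ A * (2 * ((N : ℝ) + 1) ^ 3 * (((N : ℝ) + 1) * (I0 + 1))) := by gcongr
        _ = (A * ((N : ℝ) + 1) ^ 4) * (2 * (1 + I0)) := by ring
        _ ≤ (η / 64) * (2 * (1 + I0)) := by gcongr
        _ = _ := by ring
    -- integrability
    set V : ℂ → ℂ := fun z => z + ((h n * z.im : ℝ) : ℂ) * v with hV
    have hVc : Continuous V := by
      rw [hV]; fun_prop
    set B' : Set ℂ := B ∩ V ⁻¹' B with hB'
    have hφB' : TF B' φ := by
      refine ⟨hφ.1, hφ.2.1, fun z hz => ⟨hφ.2.2 hz, ?_⟩⟩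
      have h5 := hball z hz ((h n : ℂ) * v) (by
        rw [norm_mul, norm_real, Real.norm_of_nonneg hn.le]
        have : h n * ‖v‖ ≤ R * h n := by nlinarith
        linarith)
      have e5 : V z = z + (z.im : ℂ) * ((h n : ℂ) * v) := by
        rw [hV]
        push_cast
        ring
      show V z ∈ B
      rw [e5]
      exact h5
    have hSFc : ContinuousOn (SF h (w 0) v n) B' :=
      (hwc 0 n).comp hVc.continuousOn fun z hz => hz.2
    have hEc : ∀ p : ℕ × ℕ, ContinuousOn (EJ h (w 0) p.1 p.2 n) B := by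
      intro p
      unfold EJ
      have h5 : Continuous (fun z : ℂ => ((h n * z.im : ℝ) : ℂ) ^ (p.1 + p.2)) := by fun_prop
      exact h5.continuousOn.mul (DvL.G_sm hB ((hSY.bd 0).sm n) p.1 p.2).continuousOn
    have hsumc : ContinuousOn (fun z => ∑ p ∈ TS N, be v p * EJ h (w 0) p.1 p.2 n z) B :=
      continuousOn_finsetSum _ fun p _ => continuousOn_const.mul (hEc p)
    have i1 : Integrable (fun z => φ z * ‖SF h (w 0) v n z -
        ∑ p ∈ TS N, be v p * EJ h (w 0) p.1 p.2 n z‖ ^ 4) :=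
      int_cut hφB' ((hSFc.sub (hsumc.mono Set.inter_subset_left)).norm.pow 4)
    have i2 : ∀ p : ℕ × ℕ, Integrable (fun z => φ z * ‖(h n : ℂ) * e p n z‖ ^ 4) := fun p =>
      int_cut hφ ((continuousOn_const.mul ((he1 p).co n)).norm.pow 4)
    -- pointwise
    have hpt : ∀ z, φ z * ‖SF h (w 0) v n z - TP w v N n z‖ ^ 4 ≤
        8 * (φ z * ‖SF h (w 0) v n z - ∑ p ∈ TS N, be v p * EJ h (w 0) p.1 p.2 n z‖ ^ 4) +
          D * ∑ p ∈ TS N, φ z * ‖(h n : ℂ) * e p n z‖ ^ 4 := by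
      intro z
      by_cases hz : z ∈ tsupport φ
      · have hzB := hφ.2.2 hz
        have e1 : SF h (w 0) v n z - TP w v N n z =
            (SF h (w 0) v n z - ∑ p ∈ TS N, be v p * EJ h (w 0) p.1 p.2 n z) +
              ∑ p ∈ TS N, be v p * ((h n : ℂ) * e p n z) := by
          have e2 : ∑ p ∈ TS N, be v p * EJ h (w 0) p.1 p.2 n z =
              TP w v N n z + ∑ p ∈ TS N, be v p * ((h n : ℂ) * e p n z) := by
            unfold TP bc
            rw [← Finset.sum_add_distrib]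
            refine Finset.sum_congr rfl fun p _ => ?_
            rw [he2 p n z hzB]
            ring
          rw [e2]
          ring
        have h5 := four (SF h (w 0) v n z - ∑ p ∈ TS N, be v p * EJ h (w 0) p.1 p.2 n z) (TS N)
          (fun p => be v p * ((h n : ℂ) * e p n z))
        rw [← e1] at h5
        have h6 : ∑ p ∈ TS N, ‖be v p * ((h n : ℂ) * e p n z)‖ ^ 4 ≤
            ((1 + R) ^ (2 * N)) ^ 4 * ∑ p ∈ TS N, ‖(h n : ℂ) * e p n z‖ ^ 4 := by
          rw [Finset.mul_sum]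
          refine Finset.sum_le_sum fun p hp => ?_
          rw [norm_mul, mul_pow]
          apply mul_le_mul_of_nonneg_right _ (by positivity)
          have h7 : p.1 + p.2 < N := by
            unfold TS at hp
            exact (Finset.mem_filter.1 hp).2
          have h8 := (be_le hv p).trans (pow_le_pow_right₀ (by linarith : 1 ≤ 1 + R)
            (show p.1 + p.2 ≤ 2 * N by omega))
          gcongr
        calc φ z * ‖SF h (w 0) v n z - TP w v N n z‖ ^ 4
            ≤ φ z * (8 * ‖SF h (w 0) v n z - ∑ p ∈ TS N, be v p * EJ h (w 0) p.1 p.2 n z‖ ^ 4 +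
              K * (((1 + R) ^ (2 * N)) ^ 4 * ∑ p ∈ TS N, ‖(h n : ℂ) * e p n z‖ ^ 4)) := by
              apply mul_le_mul_of_nonneg_left _ (hφ0 z)
              refine h5.trans ?_
              have := mul_le_mul_of_nonneg_left h6 hK0.le
              linarith
          _ = _ := by
              rw [hD, ← Finset.mul_sum]
              ring
      · rw [image_eq_zero_of_notMem_tsupport hz]
        simp
    have hsm : ∑ p ∈ TS N, ∫ z, φ z * ‖(h n : ℂ) * e p n z‖ ^ 4 ≤ η / (2 * D) := by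
      refine (Finset.sum_le_sum h1).trans ?_
      rw [Finset.sum_const, nsmul_eq_mul]
      have h5 : (0 : ℝ) ≤ ((TS N).card : ℝ) := Nat.cast_nonneg _
      rw [show ((TS N).card : ℝ) * (η / (2 * D * (((TS N).card : ℝ) + 1))) =
        (((TS N).card : ℝ) / (((TS N).card : ℝ) + 1)) * (η / (2 * D)) by field_simp]
      apply mul_le_of_le_one_left (by positivity)
      rw [div_le_one (by positivity)]
      linarith
    calc ∫ z, φ z * ‖SF h (w 0) v n z - TP w v N n z‖ ^ 4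
        ≤ ∫ z, (8 * (φ z * ‖SF h (w 0) v n z -
            ∑ p ∈ TS N, be v p * EJ h (w 0) p.1 p.2 n z‖ ^ 4) +
          D * ∑ p ∈ TS N, φ z * ‖(h n : ℂ) * e p n z‖ ^ 4) :=
          integral_mono_of_nonneg (ae_of_all _ fun z => mul_nonneg (hφ0 z) (by positivity))
            ((i1.const_mul 8).add ((integrable_finsetSum _ fun p _ => i2 p).const_mul D))
            (ae_of_all _ hpt)
      _ = 8 * (∫ z, φ z * ‖SF h (w 0) v n z -
            ∑ p ∈ TS N, be v p * EJ h (w 0) p.1 p.2 n z‖ ^ 4) +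
          D * ∑ p ∈ TS N, ∫ z, φ z * ‖(h n : ℂ) * e p n z‖ ^ 4 := by
          rw [integral_add (i1.const_mul 8)
            ((integrable_finsetSum _ fun p _ => i2 p).const_mul D), integral_const_mul,
            integral_const_mul, integral_finsetSum _ fun p _ => i2 p]
      _ ≤ 8 * (η / 32 * (1 + I0)) + D * (η / (2 * D)) := by gcongr
      _ = η / 4 * (1 + I0) + η / 2 := by
          field_simp
          ring
      _ ≤ η * (1 + I0) := by nlinarith

end

end Pool.Agent.Helper27K9.FP
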