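import Pool.Agent.Helper27K9.FP.Co
import Pool.Agent.Helper27K9.FP.Cb
import Pool.Agent.Helper27K9.FP.Pr
import Pool.Agent.Helper27K9.FP.Tl
import Pool.Agent.Helper27K9.FP.T4
import Pool.Agent.Helper27K9.FP.He
import Pool.Agent.Helper93K9.PE.All

/-!
# Four-point functions at the Planck scale: assembly (helper27)
-/

set_option autoImplicit false
open MeasureTheory Filter Topology Complex
open scoped ContDiff

namespace Pool.Agent.Helper27K9.FP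

open Pool.Agent.W745.RW Pool.Agent.TH294.RS Pool.Agent.Y265.HY
open Pool.Agent.TH294.RG (ea unif mu0 par RawG MM MM_unif)
open Pool.Agent.Helper93K9.PE
open Pool.Agent.Helper93K9.PE.FinL

noncomputable section

variable {lam : ℕ → ℝ} {f : ℕ → ℂ → ℝ}

theorem tlA : S_TL := tl sh j4 jet t4 he

namespace FnL

lemma sysK (S : Seq lam f) {B : Set ℂ} (hB : IsOpen B) (hBU : B ⊆ UH) :
    SY B Complex.im (hh lam) (WL lam f) ∧ EX B (hh lam) (WL lam f) (WL lam f 0) :=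
  hyp_sys hB (fun z hz => UHp z (hBU hz)) S.pos S.lim (fun n => (S.sm n).mono hBU)
    (fun n z hz => S.eq n z (hBU hz))
    (fun φ hφ k => S.qe φ ⟨hφ.1, hφ.2.1, hφ.2.2.trans hBU⟩ k)

lemma raw (S : Seq lam f) : RawG UH Complex.im (hh lam) f (MM (fun _ => 1) ea unif) := by
  refine ⟨hh_pos S, hh_lim S, imCLM.contDiff.contDiffOn, UHp, S.sm, fun n z hz => ?_,
    fun φ hφ k => ?_⟩
  · have h1 := S.eq n z hz
    have h2 : (hh lam n) ^ 2 = 1 / lam n := by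
      unfold hh
      rw [div_pow, Real.sq_sqrt (S.pos n).le, one_pow]
    have h3 := (S.pos n).ne'
    have h4 : z.im ^ 2 * lap (f n) z = -(lam n * f n z) := by linarith
    rw [h2, h4]
    field_simp
    ring
  · have h1 := S.qe _ (tfy' hφ) k
    simp only [yy hφ, FD_eq] at h1
    have e1 : ∫ z, (φ z : ℂ) * MM (fun _ => 1) ea unif k z =
        if k = 0 then ((∫ z, φ z : ℝ) : ℂ) else 0 := by
      simp only [MM_unif]
      rw [integral_mul_const, integral_complex_ofReal]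
      split_ifs <;> simp
    rw [e1]
    exact h1

lemma bdK (S : Seq lam f) {K : Set ℂ} (hK : IsCompact K) (hKU : K ⊆ UH) {φ : ℂ → ℝ}
    (hφ : TF (interior K) φ) :
    ∃ M : ℝ, 0 ≤ M ∧ ∀ n, |∫ z, φ z * f n z ^ 4| ≤ M * ∫ z in K, f n z ^ 4 := by
  obtain ⟨M', hM'⟩ := hφ.2.1.isCompact.exists_bound_of_continuousOn
    (hφ.1.continuous.continuousOn (s := tsupport φ))
  set M : ℝ := |M'| with hM
  have hM0 : 0 ≤ M := abs_nonneg _
  have hφM : ∀ z, |φ z| ≤ M := by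
    intro z
    by_cases hz : z ∈ tsupport φ
    · exact (hM' z hz).trans (le_abs_self _)
    · rw [image_eq_zero_of_notMem_tsupport hz, abs_zero]; exact hM0
  refine ⟨M, hM0, fun n => ?_⟩
  have hcu : ContinuousOn (fun z => f n z ^ 4) UH := (S.sm n).continuousOn.pow 4
  have hφU : TF UH φ := ⟨hφ.1, hφ.2.1, hφ.2.2.trans (interior_subset.trans hKU)⟩
  have i1 : IntegrableOn (fun z => f n z ^ 4) K := (hcu.mono hKU).integrableOn_compact hK
  have i2 : Integrable (fun z => φ z * f n z ^ 4) := StarL.cg1 UHo hφU hcu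
  have e : ∫ z, φ z * f n z ^ 4 = ∫ z in K, φ z * f n z ^ 4 := by
    rw [setIntegral_eq_integral_of_forall_compl_eq_zero]
    intro z hz
    rw [TF.zero hφ (fun h => hz (interior_subset h)), zero_mul]
  rw [e, ← integral_const_mul, ← Real.norm_eq_abs]
  refine (norm_integral_le_integral_norm _).trans ?_
  refine setIntegral_mono_on i2.norm.integrableOn (i1.const_mul M) hK.measurableSet fun z _ => ?_
  rw [Real.norm_eq_abs, abs_mul, abs_of_nonneg (show (0 : ℝ) ≤ f n z ^ 4 by positivity)]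
  exact mul_le_mul_of_nonneg_right (hφM z) (by positivity)

lemma K0 (n : ℕ) (K : Set ℂ) : 0 ≤ ∫ z in K, f n z ^ 4 := integral_nonneg fun z => by positivity

lemma w4 (n : ℕ) (φ : ℂ → ℝ) : ∫ z, φ z * ‖WL lam f 0 n z‖ ^ 4 = ∫ z, φ z * f n z ^ 4 := by
  congr 1; funext z
  rw [WL0, Complex.norm_real, Real.norm_eq_abs, (show Even 4 by decide).pow_abs]

lemma mem {B : Set ℂ} {φ : ℂ → ℝ} {s0 : ℝ}
    (hball : ∀ z ∈ tsupport φ, ∀ v : ℂ, ‖v‖ ≤ s0 → z + (z.im : ℂ) * v ∈ B) {h : ℝ} (hh : 0 ≤ h)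
    {v : ℂ} (hv : h * ‖v‖ ≤ s0) {z : ℂ} (hz : z ∈ tsupport φ) :
    z + ((h * z.im : ℝ) : ℂ) * v ∈ B := by
  have h1 : ‖(h : ℂ) * v‖ ≤ s0 := by
    rw [norm_mul, Complex.norm_real, Real.norm_of_nonneg hh]
    exact hv
  have e : z + ((h * z.im : ℝ) : ℂ) * v = z + (z.im : ℂ) * ((h : ℂ) * v) := by
    push_cast; ring
  rw [e]
  exact hball z hz _ h1

lemma SFc {B : Set ℂ} {φ : ℂ → ℝ} {s0 : ℝ}
    (hball : ∀ z ∈ tsupport φ, ∀ v : ℂ, ‖v‖ ≤ s0 → z + (z.im : ℂ) * v ∈ B) {h : ℕ → ℝ}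
    {u : ℕ → ℂ → ℂ} {n : ℕ} (hh : 0 ≤ h n) (hu : ContinuousOn (u n) B) {v : ℂ}
    (hv : h n * ‖v‖ ≤ s0) : ContinuousOn (SF h u v n) (tsupport φ) := by
  unfold SF
  have hT : Continuous (fun z : ℂ => z + ((h n * z.im : ℝ) : ℂ) * v) := by fun_prop
  exact hu.comp hT.continuousOn fun z hz => mem hball hh hv hz

/-- comparison with the truncated expansion -/
theorem cmp (S : Seq lam f) {K : Set ℂ} (hK : IsCompact K) (hKU : K ⊆ UH) {φ : ℂ → ℝ}
    (hφ : TF (interior K) φ) (hφ0 : ∀ z, 0 ≤ φ z) {R : ℝ} (hR : 0 < R) {ε : ℝ} (hε : 0 < ε) :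
    ∃ s0 : ℝ, 0 < s0 ∧
      (∀ z ∈ tsupport φ, ∀ v : ℂ, ‖v‖ ≤ s0 → z + (z.im : ℂ) * v ∈ interior K) ∧
      ∃ N₀ : ℕ, ∀ N, N₀ ≤ N → ∀ᶠ n in atTop, (hh lam n * R ≤ s0) ∧
        ∀ v : Fin 4 → ℂ, (∀ i, ‖v i‖ ≤ R) →
          ‖(∫ z, (φ z : ℂ) * ∏ i, SF (hh lam) (WL lam f 0) (v i) n z) -
            ∫ z, (φ z : ℂ) * ∏ i, TP (WL lam f) (v i) N n z‖ ≤
            ε * (1 + ∫ z in K, f n z ^ 4) := by
  have hBU : interior K ⊆ UH := interior_subset.trans hKU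
  obtain ⟨hSY, hEX⟩ := sysK S isOpen_interior hBU
  obtain ⟨φ', hφ', hφ'0, s0, hs0, hs01, hball, hsh, hT⟩ :=
    tlA (interior K) (hh lam) (WL lam f) hSY hBU hEX φ hφ hφ0
  obtain ⟨M, hM0, hM⟩ := bdK S hK hKU hφ'
  set η : ℝ := min 1 (ε / (1200 * (1 + M))) with hη
  have hη0 : 0 < η := lt_min one_pos (by positivity)
  have hη1 : η ≤ 1 := min_le_left _ _
  have hη2 : η * (1200 * (1 + M)) ≤ ε := by
    have : η ≤ ε / (1200 * (1 + M)) := min_le_right _ _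
    rwa [le_div_iff₀ (by positivity)] at this
  set ρ : ℝ := min 1 (η ^ 3 * ε / (400 * (1 + M))) with hρ
  have hρ0 : 0 < ρ := lt_min one_pos (by positivity)
  have hρ1 : ρ ≤ 1 := min_le_left _ _
  have hρ2 : ρ / η ^ 3 * (400 * (1 + M)) ≤ ε := by
    have h1 : ρ ≤ η ^ 3 * ε / (400 * (1 + M)) := min_le_right _ _
    rw [le_div_iff₀ (by positivity)] at h1
    rw [div_mul_eq_mul_div, div_le_iff₀ (by positivity)]
    linarith
  obtain ⟨N₀, hN₀⟩ := hT R hR ρ hρ0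
  refine ⟨s0, hs0, hball, N₀, fun N hN => ?_⟩
  have hsm : ∀ᶠ n in atTop, hh lam n * R < s0 := by
    have h1 := (hh_lim S).mul_const R
    rw [zero_mul] at h1
    exact h1.eventually (gt_mem_nhds hs0)
  filter_upwards [hN₀ N hN, hsm] with n h1 h2
  refine ⟨h2.le, fun v hv => ?_⟩
  have hp := (hh_pos S n).le
  have hvs : ∀ i, hh lam n * ‖v i‖ ≤ s0 := fun i =>
    (mul_le_mul_of_nonneg_left (hv i) hp).trans h2.le
  set X : ℝ := ∫ z in K, f n z ^ 4 with hX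
  have hX0 : 0 ≤ X := K0 n K
  have hX1 : ∫ z, φ' z * ‖WL lam f 0 n z‖ ^ 4 ≤ M * X := by
    rw [w4]
    exact (le_abs_self _).trans (hM n)
  have hco : ∀ k, ContinuousOn (WL lam f k n) (interior K) := fun k => (hSY.bd k).co n
  have key := pr φ hφ.1.continuous hφ.2.1 hφ0
    (fun i => SF (hh lam) (WL lam f 0) (v i) n) (fun i => TP (WL lam f) (v i) N n)
    (fun i => SFc hball hp (hco 0) (hvs i))
    (fun i => (continuousOn_finsetSum _ fun p _ =>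
      continuousOn_const.mul ((hco _).mono hφ.2.2)))
    (2 * (M * X)) (ρ * (1 + M * X))
    (fun i => (hsh n (v i) (hvs i)).trans (by linarith))
    (fun i => (h1 (v i) (hv i)).trans (mul_le_mul_of_nonneg_left (by linarith) hρ0.le)) η hη0 hη1
  refine key.trans ?_
  have hMX : 0 ≤ M * X := mul_nonneg hM0 hX0
  have k1 : 1 + M * X ≤ (1 + M) * (1 + X) := by nlinarith
  have k2 : ρ / η ^ 3 * (1 + M * X) * 100 ≤ ε / 4 * (1 + X) := by
    have h3 : 0 ≤ ρ / η ^ 3 := by positivity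
    calc ρ / η ^ 3 * (1 + M * X) * 100 ≤ ρ / η ^ 3 * ((1 + M) * (1 + X)) * 100 := by gcongr
      _ = ρ / η ^ 3 * (400 * (1 + M)) / 4 * (1 + X) := by ring
      _ ≤ ε / 4 * (1 + X) := by gcongr
  have k3 : 2 * (M * X) + ρ * (1 + M * X) ≤ 3 * ((1 + M) * (1 + X)) := by
    have : ρ * (1 + M * X) ≤ 1 + M * X := by nlinarith
    linarith
  have k4 : η * (2 * (M * X) + ρ * (1 + M * X)) * 100 ≤ ε / 4 * (1 + X) := by
    calc η * (2 * (M * X) + ρ * (1 + M * X)) * 100 ≤ η * (3 * ((1 + M) * (1 + X))) * 100 := by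
          gcongr
      _ = η * (1200 * (1 + M)) / 4 * (1 + X) := by ring
      _ ≤ ε / 4 * (1 + X) := by gcongr
  have k5 : 100 * (ρ * (1 + M * X) / η ^ 3 + η * (2 * (M * X) + ρ * (1 + M * X))) =
      ρ / η ^ 3 * (1 + M * X) * 100 + η * (2 * (M * X) + ρ * (1 + M * X)) * 100 := by ring
  rw [k5]
  nlinarith

/-- four-point functions: the inequality -/
theorem fin1 (S : Seq lam f) {K : Set ℂ} (hK : IsCompact K) (hKU : K ⊆ UH) {φ : ℂ → ℝ}
    (hφ : TF (interior K) φ) (hφ0 : ∀ z, 0 ≤ φ z) (v : Fin 4 → ℂ) {ε : ℝ} (hε : 0 < ε) :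
    ∀ᶠ n in atTop, ‖(∫ z, (φ z : ℂ) * ∏ i, SF (hh lam) (WL lam f 0) (v i) n z) -
      ((gauss v * ∫ z, φ z : ℝ) : ℂ)‖ ≤
      (∫ z, φ z * f n z ^ 4) - 3 * (∫ z, φ z) + ε * (1 + ∫ z in K, f n z ^ 4) := by
  have hR : 0 < ∑ i, ‖v i‖ + 1 := by positivity
  have hvR : ∀ i, ‖v i‖ ≤ ∑ i, ‖v i‖ + 1 := fun i =>
    (Finset.single_le_sum (f := fun i => ‖v i‖) (fun i _ => norm_nonneg _)
      (Finset.mem_univ i)).trans (by linarith)
  obtain ⟨s0, hs0, hball, N1, hN1⟩ := cmp S hK hKU hφ hφ0 hR (ε := ε / 2) (by positivity)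
  obtain ⟨N2, hN2⟩ := co UH UHo (fun _ h => h) (hh lam) f (raw S) (sys S).1 K hK hKU φ hφ hφ0 v
    (ε / 2) (by positivity)
  filter_upwards [hN1 (max N1 N2) (le_max_left _ _), hN2 (max N1 N2) (le_max_right _ _)]
    with n h1 h2
  have h3 := h1.2 v hvR
  have h4 := norm_add_le ((∫ z, (φ z : ℂ) * ∏ i, SF (hh lam) (WL lam f 0) (v i) n z) -
    ∫ z, (φ z : ℂ) * ∏ i, TP (WL lam f) (v i) (max N1 N2) n z)
    ((∫ z, (φ z : ℂ) * ∏ i, TP (WL lam f) (v i) (max N1 N2) n z) -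
      ((gauss v * ∫ z, φ z : ℝ) : ℂ))
  rw [sub_add_sub_cancel] at h4
  have h5 : ‖(∫ z, (φ z : ℂ) * ∏ i, TP (WL lam f) (v i) (max N1 N2) n z) -
      ((gauss v * ∫ z, φ z : ℝ) : ℂ)‖ ≤ _ := h2
  linarith

lemma tpc {B : Set ℂ} {h : ℕ → ℝ} {w : ℤ → ℕ → ℂ → ℂ} (H : SY B Complex.im h w) {φ : ℂ → ℝ}
    (hφ : TF B φ) (v : Fin 4 → ℂ) (N n : ℕ) : Continuous fun β : ℝ =>
      ∫ z, (φ z : ℂ) * ∏ i, TP w (Complex.exp ((β : ℂ) * I) * v i) N n z := by
  have e : (fun β : ℝ => ∫ z, (φ z : ℂ) * ∏ i, TP w (Complex.exp ((β : ℂ) * I) * v i) N n z) =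
      fun β : ℝ => ∑ P ∈ TS4 N, (∏ i, (bc (v i) (P i) * Complex.exp ((β : ℂ) * I) ^ ix (P i))) *
      ∫ z, (φ z : ℂ) * F4 w (ix (P 0)) (ix (P 1)) (ix (P 2)) (ix (P 3)) n z := by
    funext β
    rw [exp_ok B h w H φ hφ (fun i => Complex.exp ((β : ℂ) * I) * v i) N n]
    refine Finset.sum_congr rfl fun P _ => ?_
    simp only [RaL.bc_rot (Complex.norm_exp_ofReal_mul_I β)]
  rw [e]
  refine continuous_finsetSum _ fun P _ => Continuous.mul ?_ continuous_const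
  refine continuous_finsetProd _ fun i _ => Continuous.mul continuous_const ?_
  exact KaL.cf_zpow (ix (P i))

/-- average over the rotations -/
def AvF (φ : ℂ → ℝ) (lam : ℕ → ℝ) (f : ℕ → ℂ → ℝ) (v : Fin 4 → ℂ) (n : ℕ) : ℂ :=
  (1 / (2 * Real.pi) : ℂ) * ∫ β in (0 : ℝ)..(2 * Real.pi),
    ∫ z, (φ z : ℂ) * ∏ i, SF (hh lam) (WL lam f 0) (Complex.exp ((β : ℂ) * I) * v i) n z

/-- four-point functions: the rotation average, nonnegative test functions -/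
theorem fin2 (S : Seq lam f) {K : Set ℂ} (hK : IsCompact K) (hKU : K ⊆ UH) {φ : ℂ → ℝ}
    (hφ : TF (interior K) φ) (hφ0 : ∀ z, 0 ≤ φ z) (v : Fin 4 → ℂ) {ε : ℝ} (hε : 0 < ε) :
    ∀ᶠ n in atTop, ‖AvF φ lam f v n - ((gauss v * (∫ z, φ z) + kap v *
      ((∫ z, φ z * f n z ^ 4) - 3 * ∫ z, φ z) : ℝ) : ℂ)‖ ≤
      ε * (1 + ∫ z in K, f n z ^ 4) := by
  have hBU : interior K ⊆ UH := interior_subset.trans hKU
  obtain ⟨hSY, hEX⟩ := sysK S isOpen_interior hBU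
  have hR : 0 < ∑ i, ‖v i‖ + 1 := by positivity
  have hvR : ∀ i, ‖v i‖ ≤ ∑ i, ‖v i‖ + 1 := fun i =>
    (Finset.single_le_sum (f := fun i => ‖v i‖) (fun i _ => norm_nonneg _)
      (Finset.mem_univ i)).trans (by linarith)
  obtain ⟨s0, hs0, hball, N1, hN1⟩ := cmp S hK hKU hφ hφ0 hR (ε := ε / 4) (by positivity)
  obtain ⟨M, hM0, hM⟩ := bdK S hK hKU hφ
  set J : ℝ := ∫ z, φ z with hJ
  have hJ0 : 0 ≤ J := integral_nonneg hφ0
  set D : ℝ := M + 3 * J + 1 with hD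
  have hD1 : 1 ≤ D := by linarith
  obtain ⟨N2, hN2⟩ := Metric.tendsto_atTop.1 (ga v) (ε / (4 * D)) (by positivity)
  obtain ⟨N3, hN3⟩ := Metric.tendsto_atTop.1 (ka v) (ε / (4 * D)) (by positivity)
  set N : ℕ := max N1 (max N2 N3) with hN
  have g2 := hN2 N ((le_max_left N2 N3).trans (le_max_right _ _))
  have g3 := hN3 N ((le_max_right N2 N3).trans (le_max_right _ _))
  rw [dist_eq_norm] at g2 g3
  set a : ℂ := ∑ P ∈ TS4 N, (∏ i, bc (v i) (P i)) * GG (ix (P 0)) (ix (P 1)) (ix (P 2)) (ix (P 3))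
    with ha
  set b : ℂ := ∑ P ∈ (TS4 N).filter (fun P => ix (P 0) + ix (P 1) + ix (P 2) + ix (P 3) = 0),
        (∏ i, bc (v i) (P i)) *
          Pool.Agent.TH294.RG.ep2 (ix (P 0)) (ix (P 1)) (ix (P 2)) (ix (P 3)) with hb
  have hra := ra (interior K) (hh lam) (WL lam f) hSY hBU hEX φ hφ v N
  have hra' := (Metric.tendsto_atTop'.1 hra (ε / 4) (by positivity))
  obtain ⟨n0, hn0⟩ := hra'
  filter_upwards [hN1 N (le_max_left _ _), eventually_gt_atTop n0] with n h1 h2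
  have h3 := hn0 n h2
  rw [dist_zero_right] at h3
  set X : ℝ := ∫ z in K, f n z ^ 4 with hX
  have hX0 : 0 ≤ X := K0 n K
  set u4 : ℝ := ∫ z, φ z * f n z ^ 4 with hu4
  have hu : |u4 - 3 * J| ≤ D * (1 + X) := by
    have h5 := hM n
    have h6 := abs_sub u4 (3 * J)
    rw [abs_of_nonneg (show 0 ≤ 3 * J by positivity)] at h6
    have h7 : |u4| ≤ M * X := h5
    nlinarith
  have e4 : D4 (WL lam f) φ 0 0 0 0 n = ((u4 - 3 * J : ℝ) : ℂ) := by
    have g3 : GG 0 0 0 0 = 3 := by simp [GG, CC]; norm_num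
    unfold D4
    rw [F4_r, g3]
    push_cast
    rfl
  rw [e4] at h3
  have hp := (hh_pos S n).le
  have hc1 : Continuous fun β : ℝ => ∫ z, (φ z : ℂ) *
      ∏ i, SF (hh lam) (WL lam f 0) (Complex.exp ((β : ℂ) * I) * v i) n z :=
    cb (interior K) isOpen_interior φ hφ s0 hball (hh lam) (WL lam f 0) n (hh_pos S n)
      ((hSY.bd 0).co n) v fun i => (mul_le_mul_of_nonneg_left (hvR i) hp).trans h1.1
  have hc2 := tpc hSY hφ v N n
  set T : ℂ := (1 / (2 * Real.pi) : ℂ) * ∫ β in (0 : ℝ)..(2 * Real.pi),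
        ∫ z, (φ z : ℂ) * ∏ i, TP (WL lam f) (Complex.exp ((β : ℂ) * I) * v i) N n z with hT
  have h5 : ‖AvF φ lam f v n - T‖ ≤ ε / 4 * (1 + X) := by
    rw [hT]
    unfold AvF
    rw [← mul_sub, ← intervalIntegral.integral_sub (hc1.intervalIntegrable _ _)
      (hc2.intervalIntegrable _ _), norm_mul]
    have h6 : ‖(1 / (2 * Real.pi) : ℂ)‖ = 1 / (2 * Real.pi) := by
      rw [norm_div, norm_mul, Complex.norm_real, Real.norm_of_nonneg Real.pi_pos.le]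
      norm_num
    have h7 := intervalIntegral.norm_integral_le_of_norm_le_const (a := (0 : ℝ))
      (b := 2 * Real.pi) (C := ε / 4 * (1 + X)) (f := fun β : ℝ =>
        (∫ z, (φ z : ℂ) *
          ∏ i, SF (hh lam) (WL lam f 0) (Complex.exp ((β : ℂ) * I) * v i) n z) -
        ∫ z, (φ z : ℂ) * ∏ i, TP (WL lam f) (Complex.exp ((β : ℂ) * I) * v i) N n z)
      (fun β _ => h1.2 _ fun i => by
        rw [norm_mul, Complex.norm_exp_ofReal_mul_I, one_mul]; exact hvR i)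
    rw [sub_zero, abs_of_pos (by positivity)] at h7
    rw [h6]
    calc 1 / (2 * Real.pi) * _ ≤ 1 / (2 * Real.pi) * (ε / 4 * (1 + X) * (2 * Real.pi)) :=
          mul_le_mul_of_nonneg_left h7 (by positivity)
      _ = ε / 4 * (1 + X) := by field_simp
  -- put together
  have e5 : AvF φ lam f v n - ((gauss v * J + kap v * (u4 - 3 * J) : ℝ) : ℂ) =
      (AvF φ lam f v n - T) + (T - a * ((J : ℝ) : ℂ) - b * ((u4 - 3 * J : ℝ) : ℂ)) +
      (a - (gauss v : ℂ)) * (J : ℂ) + (b - (kap v : ℂ)) * ((u4 - 3 * J : ℝ) : ℂ) := by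
    push_cast; ring
  rw [e5]
  have n1 : ‖(a - (gauss v : ℂ)) * (J : ℂ)‖ ≤ ε / 4 * (1 + X) := by
    rw [norm_mul, Complex.norm_real, Real.norm_of_nonneg hJ0]
    have : ‖a - (gauss v : ℂ)‖ * J ≤ ε / (4 * D) * J := mul_le_mul_of_nonneg_right g2.le hJ0
    have h8 : ε / (4 * D) * J ≤ ε / 4 := by
      rw [div_mul_eq_mul_div, div_le_div_iff₀ (by positivity) (by positivity)]
      nlinarith
    nlinarith
  have n2 : ‖(b - (kap v : ℂ)) * ((u4 - 3 * J : ℝ) : ℂ)‖ ≤ ε / 4 * (1 + X) := by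
    rw [norm_mul, Complex.norm_real, Real.norm_eq_abs]
    calc ‖b - (kap v : ℂ)‖ * |u4 - 3 * J| ≤ ε / (4 * D) * (D * (1 + X)) :=
          mul_le_mul g3.le hu (abs_nonneg _) (by positivity)
      _ = ε / 4 * (1 + X) := by
          have : D ≠ 0 := by positivity
          field_simp
  have n3 : ‖T - a * ((J : ℝ) : ℂ) - b * ((u4 - 3 * J : ℝ) : ℂ)‖ ≤ ε / 4 * (1 + X) := by
    refine h3.le.trans ?_
    nlinarith
  refine (norm_add_le _ _).trans ?_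
  refine (add_le_add ((norm_add_le _ _).trans (add_le_add (norm_add_le _ _) le_rfl)) le_rfl).trans ?_
  linarith

end FnL

end

end Pool.Agent.Helper27K9.FP
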