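import Pool.Agent.Helper27K9.FP.Stm

/-!
# [JR] the Bessel function by rotation (helper27)
-/

set_option autoImplicit false
open MeasureTheory Filter Topology Complex
open scoped ContDiff

namespace Pool.Agent.Helper27K9.FP

noncomputable section

namespace JrL

lemma shift {E : Type*} [NormedAddCommGroup E] [NormedSpace ℝ E] {f : ℝ → E}
    (hf : Function.Periodic f (2 * Real.pi)) (c : ℝ) :
    ∫ x in (0 : ℝ)..(2 * Real.pi), f (x + c) = ∫ x in (0 : ℝ)..(2 * Real.pi), f x := by
  rw [intervalIntegral.integral_comp_add_right]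
  have h := hf.intervalIntegral_add_eq c 0
  rw [zero_add, add_comm c] at h
  rw [zero_add]
  exact h

lemma sin_zero (r : ℝ) : ∫ θ in (0 : ℝ)..(2 * Real.pi), Real.sin (r * Real.cos θ) = 0 := by
  have hp : Function.Periodic (fun θ : ℝ => Real.sin (r * Real.cos θ)) (2 * Real.pi) := by
    intro θ
    simp only [Real.cos_add_two_pi]
  have h := shift hp Real.pi
  have e : ∀ θ : ℝ, Real.sin (r * Real.cos (θ + Real.pi)) = - Real.sin (r * Real.cos θ) := by
    intro θ
    rw [Real.cos_add_pi, mul_neg, Real.sin_neg]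
  simp only [e, intervalIntegral.integral_neg] at h
  linarith

end JrL

open JrL in
theorem jr : S_JR := by
  intro v
  set r : ℝ := ‖v‖ with hr
  set c : ℝ := Complex.arg v - Real.pi / 2 with hc
  have him : ∀ α : ℝ, (v * Complex.exp ((α : ℂ) * I)).im = r * Real.cos (α + c) := by
    intro α
    have h1 : v = (r : ℂ) * Complex.exp ((Complex.arg v : ℂ) * I) :=
      (Complex.norm_mul_exp_arg_mul_I v).symm
    have h2 : v * Complex.exp ((α : ℂ) * I) =
        (r : ℂ) * Complex.exp (((Complex.arg v + α : ℝ) : ℂ) * I) := by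
      conv_lhs => rw [h1]
      rw [mul_assoc, ← Complex.exp_add]
      congr 2
      push_cast; ring
    rw [h2, Complex.im_ofReal_mul,
      Complex.exp_ofReal_mul_I_im]
    congr 1
    rw [hc, show α + (Complex.arg v - Real.pi / 2) = (Complex.arg v + α) - Real.pi / 2 by ring,
      Real.cos_sub_pi_div_two]
  have hp : Function.Periodic (fun θ : ℝ => Complex.exp (((r * Real.cos θ : ℝ) : ℂ) * I))
      (2 * Real.pi) := by
    intro θ
    simp only [Real.cos_add_two_pi]
  have e1 : ∫ α in (0 : ℝ)..(2 * Real.pi),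
      Complex.exp (((v * Complex.exp ((α : ℂ) * I)).im : ℂ) * I) =
      ∫ θ in (0 : ℝ)..(2 * Real.pi), Complex.exp (((r * Real.cos θ : ℝ) : ℂ) * I) := by
    rw [← shift hp c]
    refine intervalIntegral.integral_congr fun α _ => ?_
    simp only [him]
  have e2 : ∀ θ : ℝ, Complex.exp (((r * Real.cos θ : ℝ) : ℂ) * I) =
      ((Real.cos (r * Real.cos θ) : ℝ) : ℂ) + ((Real.sin (r * Real.cos θ) : ℝ) : ℂ) * I := by
    intro θ
    rw [Complex.exp_mul_I, Complex.ofReal_cos, Complex.ofReal_sin]
  have c1 : Continuous fun θ : ℝ => ((Real.cos (r * Real.cos θ) : ℝ) : ℂ) := by fun_prop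
  have c2 : Continuous fun θ : ℝ => ((Real.sin (r * Real.cos θ) : ℝ) : ℂ) * I := by fun_prop
  rw [e1]
  simp only [e2]
  rw [intervalIntegral.integral_add (c1.intervalIntegrable _ _) (c2.intervalIntegrable _ _),
    intervalIntegral.integral_mul_const, intervalIntegral.integral_ofReal,
    intervalIntegral.integral_ofReal, JrL.sin_zero]
  unfold J0
  push_cast
  ring

end

end Pool.Agent.Helper27K9.FP
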