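import Pool.Agent.Helper27K9.FP.Wave
import Pool.Agent.Helper27K9.FP.Jr

/-!
# [KE], [GA], [KA] (helper27)
-/

set_option autoImplicit false
open MeasureTheory Filter Topology Complex
open scoped ContDiff

namespace Pool.Agent.Helper27K9.FP

noncomputable section

open WvL in
theorem ke0 : S_KE := by
  intro v δ hδ
  obtain ⟨N₀, hN₀⟩ := unif4 v δ hδ
  refine ⟨N₀, fun N hN ζ hζ => ?_⟩
  rw [ker v N ζ (ne0 hζ), norm_mul]
  have h1 : ∀ k, ‖∏ i, Ev (v i) N (sg k i * ζ)‖ ≤ 1 + δ := by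
    intro k
    have h2 := hN₀ N hN (sg k) (sg1 k) ζ hζ
    have h3 := norm_le_norm_add_norm_sub'
      (∏ i, Ev (v i) N (sg k i * ζ)) (Complex.exp ((((∑ i, sg k i * v i) * ζ).im : ℂ) * I))
    rw [exp1] at h3
    linarith
  have h4 : ‖∑ k, ∏ i, Ev (v i) N (sg k i * ζ)‖ ≤ 6 * (1 + δ) := by
    refine (norm_sum_le _ _).trans ((Finset.sum_le_sum fun k _ => h1 k).trans (le_of_eq ?_))
    rw [Finset.sum_const, Finset.card_univ, Fintype.card_fin, nsmul_eq_mul]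
    norm_num
  have h5 : ‖(1 / 6 : ℂ)‖ = 1 / 6 := by norm_num
  rw [h5]
  linarith

namespace KaL

open WvL

/-- average over the circle -/
def Avg (f : ℂ → ℂ) : ℂ := (1 / (2 * Real.pi) : ℂ) * ∫ α in (0 : ℝ)..(2 * Real.pi),
  f (Complex.exp ((α : ℂ) * I))

def cf (f : ℂ → ℂ) : Prop := Continuous fun α : ℝ => f (Complex.exp ((α : ℂ) * I))

lemma cf_zpow (k : ℤ) : cf fun ζ => ζ ^ k := by
  unfold cf
  have : Continuous fun α : ℝ => Complex.exp ((α : ℂ) * I) := by fun_prop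
  exact this.zpow₀ k fun α => Or.inl (Complex.exp_ne_zero _)

lemma cf_mul {f g : ℂ → ℂ} (hf : cf f) (hg : cf g) : cf fun ζ => f ζ * g ζ := by
  unfold cf at *
  exact hf.mul hg

lemma cf_const (c : ℂ) : cf fun _ => c := by
  unfold cf; exact continuous_const

lemma cf_sum {ι : Type*} (s : Finset ι) (f : ι → ℂ → ℂ) (hf : ∀ i ∈ s, cf (f i)) :
    cf fun ζ => ∑ i ∈ s, f i ζ := by
  unfold cf at *
  exact continuous_finsetSum s fun i hi => hf i hi

lemma cf_prod {ι : Type*} (s : Finset ι) (f : ι → ℂ → ℂ) (hf : ∀ i ∈ s, cf (f i)) :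
    cf fun ζ => ∏ i ∈ s, f i ζ := by
  unfold cf at *
  exact continuous_finsetProd s fun i hi => hf i hi

lemma cf_exp (w : ℂ) : cf fun ζ => Complex.exp (((w * ζ).im : ℂ) * I) := by
  unfold cf
  fun_prop

lemma cf_Ev (v : ℂ) (N : ℕ) (s : ℂ) : cf fun ζ => Ev v N (s * ζ) := by
  unfold Ev
  refine cf_sum _ _ fun p _ => ?_
  simp only [mul_zpow]
  exact cf_mul (cf_const _) (cf_mul (cf_const _) (cf_zpow _))

lemma Avg_sum {ι : Type*} (s : Finset ι) (c : ι → ℂ) (f : ι → ℂ → ℂ) (hf : ∀ i ∈ s, cf (f i)) :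
    Avg (fun ζ => ∑ i ∈ s, c i * f i ζ) = ∑ i ∈ s, c i * Avg (f i) := by
  unfold Avg
  rw [intervalIntegral.integral_finsetSum fun i hi =>
    ((hf i hi).const_mul (c i)).intervalIntegrable _ _, Finset.mul_sum]
  refine Finset.sum_congr rfl fun i _ => ?_
  rw [intervalIntegral.integral_const_mul]
  ring

lemma Avg_zpow (k : ℤ) : Avg (fun ζ => ζ ^ k) = if k = 0 then 1 else 0 := by
  unfold Avg
  have hpi : (Real.pi : ℂ) ≠ 0 := by exact_mod_cast Real.pi_ne_zero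
  by_cases hk : k = 0
  · subst hk
    simp only [zpow_zero, if_true]
    rw [intervalIntegral.integral_const]
    simp only [sub_zero, Complex.real_smul, mul_one]
    push_cast
    field_simp
  · rw [if_neg hk]
    have e : ∀ α : ℝ, Complex.exp ((α : ℂ) * I) ^ k = Complex.exp ((k * I) * (α : ℂ)) := by
      intro α
      rw [← Complex.exp_int_mul]
      congr 1; ring
    simp only [e]
    have hc : (k : ℂ) * I ≠ 0 := mul_ne_zero (by exact_mod_cast hk) Complex.I_ne_zero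
    rw [integral_exp_mul_complex hc]
    have : Complex.exp ((k : ℂ) * I * ((2 * Real.pi : ℝ) : ℂ)) = 1 := by
      have := Complex.exp_int_mul_two_pi_mul_I k
      rw [← this]
      congr 1
      push_cast; ring
    rw [this]
    simp

lemma Avg_sub_le {f g : ℂ → ℂ} (hf : cf f) (hg : cf g) {δ : ℝ}
    (h : ∀ ζ : ℂ, ‖ζ‖ = 1 → ‖f ζ - g ζ‖ ≤ δ) : ‖Avg f - Avg g‖ ≤ δ := by
  unfold Avg
  rw [← mul_sub, ← intervalIntegral.integral_sub (hf.intervalIntegrable _ _)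
    (hg.intervalIntegrable _ _), norm_mul]
  have h1 : ‖(1 / (2 * Real.pi) : ℂ)‖ = 1 / (2 * Real.pi) := by
    rw [norm_div, norm_mul, Complex.norm_real, Real.norm_of_nonneg Real.pi_pos.le]
    norm_num
  have h2 := intervalIntegral.norm_integral_le_of_norm_le_const (a := (0 : ℝ)) (b := 2 * Real.pi)
    (C := δ) (f := fun α : ℝ => f (Complex.exp ((α : ℂ) * I)) - g (Complex.exp ((α : ℂ) * I)))
    (fun α _ => h _ (Complex.norm_exp_ofReal_mul_I α))
  rw [sub_zero, abs_of_pos (by positivity)] at h2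
  rw [h1]
  calc 1 / (2 * Real.pi) * _ ≤ 1 / (2 * Real.pi) * (δ * (2 * Real.pi)) :=
        mul_le_mul_of_nonneg_left h2 (by positivity)
    _ = δ := by field_simp

lemma Avg_exp (w : ℂ) (hJ : S_JR) : Avg (fun ζ => Complex.exp (((w * ζ).im : ℂ) * I)) = (J0 ‖w‖ : ℂ) :=
  hJ w

/-- two factors -/
lemma pair (hJ : S_JR) (v v' : ℂ) : Tendsto (fun N : ℕ => ∑ p ∈ TS N, ∑ q ∈ TS N,
    (bc v p * bc v' q) * Pool.Agent.W745.RW.CC (ix p) (ix q)) atTop (𝓝 (J0 ‖v - v'‖ : ℂ)) := by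
  have e : ∀ N : ℕ, ∑ p ∈ TS N, ∑ q ∈ TS N,
      (bc v p * bc v' q) * Pool.Agent.W745.RW.CC (ix p) (ix q) =
      Avg (fun ζ => Ev v N (1 * ζ) * Ev v' N (-1 * ζ)) := by
    intro N
    have e1 : ∀ p q : ℕ × ℕ, Pool.Agent.W745.RW.CC (ix p) (ix q) =
        (-1 : ℂ) ^ ix q * Avg (fun ζ => ζ ^ (ix p + ix q)) := by
      intro p q
      rw [Avg_zpow]
      unfold Pool.Agent.W745.RW.CC
      split_ifs with h
      · rw [mul_one]
        have : (ix q).natAbs = (ix p).natAbs := by omega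
        rw [← this]
        have hz : ∀ k : ℤ, (-1 : ℂ) ^ k.natAbs = (-1) ^ k := by
          intro k
          rcases Int.even_or_odd k with hk | hk
          · rw [hk.neg_one_zpow, (Int.natAbs_even.2 hk).neg_one_pow]
          · rw [hk.neg_one_zpow, (Int.natAbs_odd.2 hk).neg_one_pow]
        exact hz _
      · rw [mul_zero]
    have e2 : Avg (fun ζ => Ev v N (1 * ζ) * Ev v' N (-1 * ζ)) =
        Avg (fun ζ => ∑ p ∈ TS N, bc v p * ∑ q ∈ TS N, (bc v' q * (-1 : ℂ) ^ ix q) *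
          ζ ^ (ix p + ix q)) := by
      unfold Avg
      congr 1
      refine intervalIntegral.integral_congr fun α _ => ?_
      simp only [Ev, one_mul, mul_zpow]
      rw [Finset.sum_mul]
      refine Finset.sum_congr rfl fun p _ => ?_
      rw [Finset.mul_sum, Finset.mul_sum]
      refine Finset.sum_congr rfl fun q _ => ?_
      rw [zpow_add₀ (Complex.exp_ne_zero _)]
      ring
    rw [e2, Avg_sum _ _ _ fun p _ => cf_sum _ _ fun q _ => cf_mul (cf_const _) (cf_zpow _)]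
    refine Finset.sum_congr rfl fun p _ => ?_
    rw [Avg_sum _ _ _ fun q _ => cf_zpow _, Finset.mul_sum]
    refine Finset.sum_congr rfl fun q _ => ?_
    rw [e1 p q]
    ring
  simp only [e]
  have e3 : (J0 ‖v - v'‖ : ℂ) = Avg (fun ζ => Complex.exp ((((v - v') * ζ).im : ℂ) * I)) :=
    (Avg_exp _ hJ).symm
  rw [e3, Metric.tendsto_atTop]
  intro ε hε
  obtain ⟨N₀, hN₀⟩ := ek0 (‖v‖ + ‖v'‖ + 1) (by positivity) (min 1 (ε / 6)) (by positivity)
  refine ⟨N₀, fun N hN => ?_⟩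
  rw [dist_eq_norm]
  have h1 : ‖Avg (fun ζ => Ev v N (1 * ζ) * Ev v' N (-1 * ζ)) -
      Avg (fun ζ => Complex.exp ((((v - v') * ζ).im : ℂ) * I))‖ ≤ 3 * min 1 (ε / 6) := by
    refine Avg_sub_le (cf_mul (cf_Ev _ _ _) (cf_Ev _ _ _)) (cf_exp _) fun ζ hζ => ?_
    have k1 := hN₀ N hN v (by linarith [norm_nonneg v']) (1 * ζ) (by rw [one_mul, hζ])
    have k2 := hN₀ N hN v' (by linarith [norm_nonneg v]) (-1 * ζ)
      (by rw [norm_mul, hζ, norm_neg, norm_one, one_mul])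
    have k3 := prod2 (min_le_left 1 (ε / 6)) k1 k2 (exp1 _) (exp1 _)
    rw [← Complex.exp_add] at k3
    have k4 : ((v * (1 * ζ)).im : ℂ) * I + ((v' * (-1 * ζ)).im : ℂ) * I =
        (((v - v') * ζ).im : ℂ) * I := by
      rw [← add_mul, ← Complex.ofReal_add, ← Complex.add_im]
      congr 3
      ring
    rwa [k4] at k3
  refine h1.trans_lt ?_
  have := min_le_right 1 (ε / 6)
  linarith

lemma sum4 (N : ℕ) (F : ℕ × ℕ → ℕ × ℕ → ℕ × ℕ → ℕ × ℕ → ℂ) :
    ∑ P ∈ TS4 N, F (P 0) (P 1) (P 2) (P 3) =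
      ∑ p ∈ TS N, ∑ q ∈ TS N, ∑ r ∈ TS N, ∑ s ∈ TS N, F p q r s := by
  rw [← Finset.sum_product', ← Finset.sum_product', ← Finset.sum_product']
  refine Finset.sum_nbij' (fun P => (((P 0, P 1), P 2), P 3))
    (fun x => ![x.1.1.1, x.1.1.2, x.1.2, x.2]) ?_ ?_ ?_ ?_ ?_
  · intro P hP
    have h := Fintype.mem_piFinset.1 hP
    simp only [Finset.mem_product]
    exact ⟨⟨⟨h 0, h 1⟩, h 2⟩, h 3⟩
  · intro x hx
    simp only [Finset.mem_product] at hx
    refine Fintype.mem_piFinset.2 fun i => ?_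
    fin_cases i
    · exact hx.1.1.1
    · exact hx.1.1.2
    · exact hx.1.2
    · exact hx.2
  · intro P _
    funext i
    fin_cases i <;> rfl
  · intro x _
    rfl
  · intro P _
    rfl

end KaL

open WvL KaL in
theorem ga0 (hJ : S_JR) : S_GA := by
  intro v
  have h : ∀ N : ℕ, ∑ P ∈ TS4 N, (∏ i, bc (v i) (P i)) *
      Pool.Agent.W745.RW.GG (ix (P 0)) (ix (P 1)) (ix (P 2)) (ix (P 3)) =
      (∑ p ∈ TS N, ∑ q ∈ TS N, (bc (v 0) p * bc (v 1) q) * Pool.Agent.W745.RW.CC (ix p) (ix q)) *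
        (∑ p ∈ TS N, ∑ q ∈ TS N, (bc (v 2) p * bc (v 3) q) * Pool.Agent.W745.RW.CC (ix p) (ix q)) +
      (∑ p ∈ TS N, ∑ q ∈ TS N, (bc (v 0) p * bc (v 2) q) * Pool.Agent.W745.RW.CC (ix p) (ix q)) *
        (∑ p ∈ TS N, ∑ q ∈ TS N, (bc (v 1) p * bc (v 3) q) * Pool.Agent.W745.RW.CC (ix p) (ix q)) +
      (∑ p ∈ TS N, ∑ q ∈ TS N, (bc (v 0) p * bc (v 3) q) * Pool.Agent.W745.RW.CC (ix p) (ix q)) *
        (∑ p ∈ TS N, ∑ q ∈ TS N, (bc (v 1) p * bc (v 2) q) * Pool.Agent.W745.RW.CC (ix p) (ix q)) := by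
    intro N
    simp only [Fin.prod_univ_four]
    rw [sum4 N (fun p q r s => bc (v 0) p * bc (v 1) q * bc (v 2) r * bc (v 3) s *
      Pool.Agent.W745.RW.GG (ix p) (ix q) (ix r) (ix s))]
    have e0 : ∀ p q r s : ℕ × ℕ, bc (v 0) p * bc (v 1) q * bc (v 2) r * bc (v 3) s *
        Pool.Agent.W745.RW.GG (ix p) (ix q) (ix r) (ix s) =
        ((bc (v 0) p * bc (v 1) q) * Pool.Agent.W745.RW.CC (ix p) (ix q)) *
          ((bc (v 2) r * bc (v 3) s) * Pool.Agent.W745.RW.CC (ix r) (ix s)) +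
        ((bc (v 0) p * bc (v 2) r) * Pool.Agent.W745.RW.CC (ix p) (ix r)) *
          ((bc (v 1) q * bc (v 3) s) * Pool.Agent.W745.RW.CC (ix q) (ix s)) +
        ((bc (v 0) p * bc (v 3) s) * Pool.Agent.W745.RW.CC (ix p) (ix s)) *
          ((bc (v 1) q * bc (v 2) r) * Pool.Agent.W745.RW.CC (ix q) (ix r)) := by
      intro p q r s
      unfold Pool.Agent.W745.RW.GG
      ring
    simp only [e0, Finset.sum_add_distrib]
    congr 1
    · congr 1
      · -- 01 | 23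
        simp only [← Finset.mul_sum, ← Finset.sum_mul]
      · -- 02 | 13
        rw [Finset.sum_mul_sum]
        simp only [Finset.sum_mul_sum]
    · rw [Finset.sum_mul_sum]
      simp only [Finset.sum_mul_sum]
      refine Finset.sum_congr rfl fun p _ => ?_
      refine Finset.sum_congr rfl fun q _ => ?_
      rw [Finset.sum_comm]
  simp only [h]
  have := (((pair hJ (v 0) (v 1)).mul (pair hJ (v 2) (v 3))).add
    ((pair hJ (v 0) (v 2)).mul (pair hJ (v 1) (v 3)))).add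
    ((pair hJ (v 0) (v 3)).mul (pair hJ (v 1) (v 2)))
  convert this using 2
  unfold gauss
  push_cast
  rfl

open WvL KaL in
theorem ka0 (hJ : S_JR) : S_KA := by
  intro v
  have e : ∀ N : ℕ, ∑ P ∈ (TS4 N).filter
      (fun P => ix (P 0) + ix (P 1) + ix (P 2) + ix (P 3) = 0),
      (∏ i, bc (v i) (P i)) *
        Pool.Agent.TH294.RG.ep2 (ix (P 0)) (ix (P 1)) (ix (P 2)) (ix (P 3)) =
      (1 / 6) * ∑ k, Avg (fun ζ => ∏ i, Ev (v i) N (sg k i * ζ)) := by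
    intro N
    have e1 : (1 / 6) * ∑ k, Avg (fun ζ => ∏ i, Ev (v i) N (sg k i * ζ)) =
        Avg (fun ζ => ∑ P ∈ TS4 N, ((∏ i, bc (v i) (P i)) *
          Pool.Agent.TH294.RG.ep2 (ix (P 0)) (ix (P 1)) (ix (P 2)) (ix (P 3))) *
            ζ ^ (ix (P 0) + ix (P 1) + ix (P 2) + ix (P 3))) := by
      rw [Finset.mul_sum, ← Avg_sum Finset.univ (fun _ => (1 / 6 : ℂ))
        (fun k ζ => ∏ i, Ev (v i) N (sg k i * ζ)) (fun k _ => cf_prod _ _ fun i _ => cf_Ev _ _ _)]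
      unfold Avg
      congr 1
      refine intervalIntegral.integral_congr fun α _ => ?_
      have := ker v N (Complex.exp ((α : ℂ) * I)) (Complex.exp_ne_zero _)
      simp only [Finset.mul_sum, ← mul_assoc] at this ⊢
      exact this.symm
    rw [e1, Avg_sum _ _ _ fun P _ => cf_zpow _, Finset.sum_filter]
    refine Finset.sum_congr rfl fun P _ => ?_
    rw [Avg_zpow]
    split_ifs <;> ring
  simp only [e]
  have h1 : ∀ k, Tendsto (fun N : ℕ => Avg (fun ζ => ∏ i, Ev (v i) N (sg k i * ζ))) atTop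
      (𝓝 (J0 ‖∑ i, sg k i * v i‖ : ℂ)) := by
    intro k
    rw [← Avg_exp _ hJ, Metric.tendsto_atTop]
    intro ε hε
    obtain ⟨N₀, hN₀⟩ := unif4 v (ε / 2) (by positivity)
    refine ⟨N₀, fun N hN => ?_⟩
    rw [dist_eq_norm]
    refine (Avg_sub_le (cf_prod _ _ fun i _ => cf_Ev _ _ _) (cf_exp _) fun ζ hζ =>
      hN₀ N hN (sg k) (sg1 k) ζ hζ).trans_lt (by linarith)
  have h2 := (tendsto_finsetSum Finset.univ fun k _ => h1 k).const_mul (1 / 6 : ℂ)
  convert h2 using 2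
  unfold kap
  have n1 : ‖-v 0 + -v 1 + v 2 + v 3‖ = ‖v 0 + v 1 + -v 2 + -v 3‖ := by
    rw [← norm_neg]; congr 1; ring
  have n2 : ‖-v 0 + v 1 + -v 2 + v 3‖ = ‖v 0 + -v 1 + v 2 + -v 3‖ := by
    rw [← norm_neg]; congr 1; ring
  have n3 : ‖-v 0 + v 1 + v 2 + -v 3‖ = ‖v 0 + -v 1 + -v 2 + v 3‖ := by
    rw [← norm_neg]; congr 1; ring
  have m1 : v 0 + v 1 - v 2 - v 3 = v 0 + v 1 + -v 2 + -v 3 := by ring
  have m2 : v 0 + v 2 - v 1 - v 3 = v 0 + -v 1 + v 2 + -v 3 := by ring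
  have m3 : v 0 + v 3 - v 1 - v 2 = v 0 + -v 1 + -v 2 + v 3 := by ring
  rw [m1, m2, m3]
  simp [Fin.sum_univ_succ, sg, ← add_assoc, n1, n2, n3]
  ring

theorem ke : S_KE := ke0
theorem ga : S_GA := ga0 jr
theorem ka : S_KA := ka0 jr

end

end Pool.Agent.Helper27K9.FP
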