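import Pool.Agent.Helper27K9.FP.Ke

/-!
# [EXP], [RA] (helper27)
-/

set_option autoImplicit false
open MeasureTheory Filter Topology Complex
open scoped ContDiff

namespace Pool.Agent.Helper27K9.FP

open Pool.Agent.W745.RW Pool.Agent.TH294.RS Pool.Agent.Y265.HY

noncomputable section

theorem exp_ok : S_EXP := by
  intro B h w H φ hφ v N n
  have hc : ∀ i, ContinuousOn (w i n) B := fun i => (H.bd i).co n
  have e1 : ∀ z, (φ z : ℂ) * ∏ i, TP w (v i) N n z = ∑ P ∈ TS4 N, (∏ i, bc (v i) (P i)) *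
      ((φ z : ℂ) * F4 w (ix (P 0)) (ix (P 1)) (ix (P 2)) (ix (P 3)) n z) := by
    intro z
    unfold TP
    rw [Finset.prod_univ_sum, Finset.mul_sum]
    refine Finset.sum_congr rfl fun P _ => ?_
    rw [Finset.prod_mul_distrib]
    simp only [Fin.prod_univ_four, F4, ix]
    ring
  simp only [e1]
  rw [integral_finsetSum _ fun P _ => (TF.cint hφ
    ((((hc (ix (P 0))).mul (hc (ix (P 1)))).mul (hc (ix (P 2)))).mul (hc (ix (P 3))))).const_mul _]
  refine Finset.sum_congr rfl fun P _ => ?_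
  rw [integral_const_mul]

namespace RaL

open WvL KaL

lemma bc_rot {ζ : ℂ} (hζ : ‖ζ‖ = 1) (v : ℂ) (p : ℕ × ℕ) : bc (ζ * v) p = bc v p * ζ ^ ix p := by
  rw [term hζ]
  unfold bc be
  have e : -((starRingEnd ℂ) (v * ζ)) / 2 = (-1) * ((starRingEnd ℂ) (ζ * v) / 2) := by
    rw [mul_comm v ζ]; ring
  rw [e, mul_pow, mul_comm v ζ]
  ring

lemma GG_ne {a b c d : ℤ} (h : a + b + c + d ≠ 0) : GG a b c d = 0 := by
  have key : ∀ x y z t : ℤ, x + y + z + t ≠ 0 → CC x y * CC z t = 0 := by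
    intro x y z t hs
    unfold CC
    by_cases h1 : x + y = 0
    · rw [if_neg (c := z + t = 0) (by omega), mul_zero]
    · rw [if_neg h1, zero_mul]
  unfold GG
  rw [key a b c d h, key a c b d (by omega), key a d b c (by omega)]
  ring

end RaL

open WvL KaL RaL in
theorem ra : S_RA := by
  intro B h w H hBU h0 φ hφ v N
  have hDD := dd4 H hBU h0 hφ
  set J : ℂ := ((∫ z, φ z : ℝ) : ℂ) with hJ
  have e1 : ∀ n, ((1 / (2 * Real.pi) : ℂ) * ∫ β in (0 : ℝ)..(2 * Real.pi),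
        ∫ z, (φ z : ℂ) * ∏ i, TP w (Complex.exp ((β : ℂ) * I) * v i) N n z) =
      ∑ P ∈ (TS4 N).filter (fun P => ix (P 0) + ix (P 1) + ix (P 2) + ix (P 3) = 0),
        (∏ i, bc (v i) (P i)) * ∫ z, (φ z : ℂ) *
          F4 w (ix (P 0)) (ix (P 1)) (ix (P 2)) (ix (P 3)) n z := by
    intro n
    have e2 : ((1 / (2 * Real.pi) : ℂ) * ∫ β in (0 : ℝ)..(2 * Real.pi),
        ∫ z, (φ z : ℂ) * ∏ i, TP w (Complex.exp ((β : ℂ) * I) * v i) N n z) =
        Avg (fun ζ => ∑ P ∈ TS4 N, ((∏ i, bc (v i) (P i)) * ∫ z, (φ z : ℂ) *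
          F4 w (ix (P 0)) (ix (P 1)) (ix (P 2)) (ix (P 3)) n z) *
            ζ ^ (ix (P 0) + ix (P 1) + ix (P 2) + ix (P 3))) := by
      unfold Avg
      congr 1
      refine intervalIntegral.integral_congr fun β _ => ?_
      simp only
      rw [exp_ok B h w H φ hφ (fun i => Complex.exp ((β : ℂ) * I) * v i) N n]
      refine Finset.sum_congr rfl fun P _ => ?_
      have hn : ‖Complex.exp ((β : ℂ) * I)‖ = 1 := Complex.norm_exp_ofReal_mul_I β
      simp only [bc_rot hn, Fin.prod_univ_four, zpow_add₀ (Complex.exp_ne_zero ((β : ℂ) * I))]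
      ring
    rw [e2, Avg_sum _ _ _ fun P _ => cf_zpow _, Finset.sum_filter]
    refine Finset.sum_congr rfl fun P _ => ?_
    rw [Avg_zpow]
    split_ifs <;> ring
  have e3 : ∑ P ∈ TS4 N, (∏ i, bc (v i) (P i)) *
        GG (ix (P 0)) (ix (P 1)) (ix (P 2)) (ix (P 3)) =
      ∑ P ∈ (TS4 N).filter (fun P => ix (P 0) + ix (P 1) + ix (P 2) + ix (P 3) = 0),
        (∏ i, bc (v i) (P i)) * GG (ix (P 0)) (ix (P 1)) (ix (P 2)) (ix (P 3)) := by
    rw [Finset.sum_filter]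
    refine Finset.sum_congr rfl fun P _ => ?_
    split_ifs with hs
    · rfl
    · rw [GG_ne hs, mul_zero]
  have e4 : ∀ n, (((1 / (2 * Real.pi) : ℂ) * ∫ β in (0 : ℝ)..(2 * Real.pi),
        ∫ z, (φ z : ℂ) * ∏ i, TP w (Complex.exp ((β : ℂ) * I) * v i) N n z) -
      (∑ P ∈ TS4 N, (∏ i, bc (v i) (P i)) *
        GG (ix (P 0)) (ix (P 1)) (ix (P 2)) (ix (P 3))) * J -
      (∑ P ∈ (TS4 N).filter (fun P => ix (P 0) + ix (P 1) + ix (P 2) + ix (P 3) = 0),
        (∏ i, bc (v i) (P i)) *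
          Pool.Agent.TH294.RG.ep2 (ix (P 0)) (ix (P 1)) (ix (P 2)) (ix (P 3))) *
        D4 w φ 0 0 0 0 n) =
      ∑ P ∈ (TS4 N).filter (fun P => ix (P 0) + ix (P 1) + ix (P 2) + ix (P 3) = 0),
        (∏ i, bc (v i) (P i)) * (D4 w φ (ix (P 0)) (ix (P 1)) (ix (P 2)) (ix (P 3)) n -
          eps (ix (P 0)) (ix (P 1)) (ix (P 2)) (ix (P 3)) * D4 w φ (2 * 0) 0 0 0 n) := by
    intro n
    rw [e1, e3, Finset.sum_mul, Finset.sum_mul, ← Finset.sum_sub_distrib,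
      ← Finset.sum_sub_distrib]
    refine Finset.sum_congr rfl fun P hP => ?_
    have hs := (Finset.mem_filter.1 hP).2
    have hev : Even (ix (P 0) + ix (P 1) + ix (P 2) + ix (P 3)) := by rw [hs]; exact Even.zero
    have h1 : Pool.Agent.TH294.RG.ep2 (ix (P 0)) (ix (P 1)) (ix (P 2)) (ix (P 3)) =
        eps (ix (P 0)) (ix (P 1)) (ix (P 2)) (ix (P 3)) := by
      unfold Pool.Agent.TH294.RG.ep2
      rw [if_pos hev]
    have h2 : D4 w φ (ix (P 0)) (ix (P 1)) (ix (P 2)) (ix (P 3)) n =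
        (∫ z, (φ z : ℂ) * F4 w (ix (P 0)) (ix (P 1)) (ix (P 2)) (ix (P 3)) n z) -
          GG (ix (P 0)) (ix (P 1)) (ix (P 2)) (ix (P 3)) * J := rfl
    rw [h1, h2, mul_zero]
    ring
  refine Tendsto.congr (fun n => (e4 n).symm) ?_
  have h5 : Tendsto (fun n => ∑ P ∈ (TS4 N).filter
      (fun P => ix (P 0) + ix (P 1) + ix (P 2) + ix (P 3) = 0),
        (∏ i, bc (v i) (P i)) * (D4 w φ (ix (P 0)) (ix (P 1)) (ix (P 2)) (ix (P 3)) n -
          eps (ix (P 0)) (ix (P 1)) (ix (P 2)) (ix (P 3)) * D4 w φ (2 * 0) 0 0 0 n)) atTop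
      (𝓝 (∑ P ∈ (TS4 N).filter
      (fun P => ix (P 0) + ix (P 1) + ix (P 2) + ix (P 3) = 0), (∏ i, bc (v i) (P i)) * 0)) := by
    refine tendsto_finsetSum _ fun P hP => ?_
    have hs := (Finset.mem_filter.1 hP).2
    exact (hDD.even _ _ _ _ 0 (by rw [hs, mul_zero])).const_mul _
  simpa using h5

end

end Pool.Agent.Helper27K9.FP
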