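import Pool.Agent.Helper93K9.PE.Stm
import Pool.Agent.TH294.RG.Fam
import Pool.Agent.TH294.RG.SpecH

/-!
Project FP (helper27), MP_a54f13_nt: four-point functions at the Planck scale, on the hyperbolic plane.
Statements of the leaves, proofs in the doc comments.

Conventions as in `Pool/Agent/Helper93K9/PE/Stm.lean`: `UH`, `SY B Complex.im h w`, `EX B h w (w 0)`
= the ladder system of the sequence `u n = w 0 n`; `TF B φ` test functions; `EJ h (w 0) k l` =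
`(h y)^{k+l} dd^k db^l u`.
-/

set_option autoImplicit false
open MeasureTheory Filter Topology Complex
open scoped ContDiff

namespace Pool.Agent.Helper27K9.FP

open Pool.Agent.W745.RW Pool.Agent.TH294.RS Pool.Agent.Y265.HY
open Pool.Agent.Helper93K9.PE (EJ dv)

noncomputable section

/-- the shifted function `u (z + h y v)` -/
def SF (h : ℕ → ℝ) (u : ℕ → ℂ → ℂ) (v : ℂ) (n : ℕ) (z : ℂ) : ℂ :=
  u n (z + ((h n * z.im : ℝ) : ℂ) * v)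

/-- coefficients in Taylor's formula -/
def be (v : ℂ) (p : ℕ × ℕ) : ℂ :=
  (v / 2) ^ p.1 / (p.1.factorial : ℂ) * (((starRingEnd ℂ) v / 2) ^ p.2 / (p.2.factorial : ℂ))

/-- coefficients of the expansion in the `w k` -/
def bc (v : ℂ) (p : ℕ × ℕ) : ℂ := (-1) ^ p.2 * be v p

/-- the pairs with sum less than `N` -/
def TS (N : ℕ) : Finset (ℕ × ℕ) :=
  (Finset.range N ×ˢ Finset.range N).filter fun p => p.1 + p.2 < N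

/-- the truncated expansion of `u (z + h y v)` -/
def TP (w : ℤ → ℕ → ℂ → ℂ) (v : ℂ) (N n : ℕ) (z : ℂ) : ℂ :=
  ∑ p ∈ TS N, bc v p * w ((p.1 : ℤ) - p.2) n z

/-- the Bessel function `J_0` -/
def J0 (r : ℝ) : ℝ := 1 / (2 * Real.pi) * ∫ θ in (0 : ℝ)..(2 * Real.pi), Real.cos (r * Real.cos θ)

/-- the four-point function of the random wave -/
def gauss (v : Fin 4 → ℂ) : ℝ :=
  J0 ‖v 0 - v 1‖ * J0 ‖v 2 - v 3‖ + J0 ‖v 0 - v 2‖ * J0 ‖v 1 - v 3‖ +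
    J0 ‖v 0 - v 3‖ * J0 ‖v 1 - v 2‖

/-- the four-point function of plane waves with random direction -/
def kap (v : Fin 4 → ℂ) : ℝ :=
  (J0 ‖v 0 + v 1 - v 2 - v 3‖ + J0 ‖v 0 + v 2 - v 1 - v 3‖ + J0 ‖v 0 + v 3 - v 1 - v 2‖) / 3

/-- index of `w` for a pair -/
def ix (p : ℕ × ℕ) : ℤ := (p.1 : ℤ) - p.2

/-- four pairs -/
def TS4 (N : ℕ) : Finset (Fin 4 → ℕ × ℕ) := Fintype.piFinset fun _ => TS N

/-- [T4] Taylor's formula in `L⁴`. Pointwise: `S_TAY` (PE/Tay.lean) with `m + 1 = N`, `g = w 0 n`,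
`V = (h y) v`; the derivatives by `DvL.expand` (PE/DvBase.lean): `(dv V)^j g / j! =
∑_{k+l=j} be v (k,l) EJ k l` at `z`, and at `z' = z + t V` (`y ≤ 2 y'`, from `R h ≤ 1/2`)
`‖(dv V)^N g z'‖ ≤ (2 R)^N ∑_{k+l=N} ‖EJ k l z'‖`. Then `(∫_0^1 ∑_{k+l=N} ‖EJ‖ dt)^4 ≤
(N+1)^3 ∑ ∫_0^1 ‖EJ‖^4 dt` (Jensen, power mean), Fubini, and the last hypothesis (which is SH of
PE/Stm.lean) for `t h v` with `Q = ‖EJ k l n ·‖^4`. The lemma `DerL.shift` (PE/Der.lean) does Fubini + SH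
for any probability measure `μ` on the closed unit disc: take `μ` = law of `t v / R`, `t` uniform in `[0,1]`,
`r = R h`; there are also `IdL.m_int`, `IdL.jens` (PE/Id.lean). -/
def S_T4 : Prop := ∀ (B : Set ℂ), IsOpen B → B ⊆ UH → ∀ φ φ' : ℂ → ℝ, TF B φ → (∀ z, 0 ≤ φ z) →
  TF B φ' → (∀ z, 0 ≤ φ' z) → ∀ s0 : ℝ, 0 < s0 → s0 < 1 →
  (∀ z ∈ tsupport φ, ∀ v : ℂ, ‖v‖ ≤ s0 → z + (z.im : ℂ) * v ∈ B) →
  (∀ v : ℂ, ‖v‖ ≤ s0 → ∀ Q : ℂ → ℝ, (∀ z, 0 ≤ Q z) → ContinuousOn Q B →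
    ∫ z, |φ z| * Q (z + (z.im : ℂ) * v) ≤ 2 * ∫ z, φ' z * Q z) →
  ∀ (h : ℕ → ℝ) (u : ℕ → ℂ → ℂ) (n : ℕ), 0 < h n → ContDiffOn ℝ ∞ (u n) B →
  ∀ (R : ℝ), 0 < R → R * h n ≤ s0 → R * h n ≤ 1 / 2 → ∀ N : ℕ, 1 ≤ N → ∀ v : ℂ, ‖v‖ ≤ R →
    ∫ z, φ z * ‖SF h u v n z - ∑ p ∈ TS N, be v p * EJ h u p.1 p.2 n z‖ ^ 4 ≤
      ((2 * R) ^ N / (Nat.factorial (N - 1) : ℝ)) ^ 4 * (2 * ((N : ℝ) + 1) ^ 3 *
        ∑ p ∈ Finset.HasAntidiagonal.antidiagonal N, ∫ z, φ' z * ‖EJ h u p.1 p.2 n z‖ ^ 4)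

/-- [HE] `h⁴ ∫ φ ‖e‖⁴ → 0` for `M2C` errors: `sup_m2` (Y265/HY/SB7.lean) gives `|h| ‖e‖ ≤ C` on the
support, and `h² ∫ φ ‖e‖² → 0` (`M2C.lb`, or `TelL.hnul` in PE/Tel.lean). -/
def S_HE : Prop := ∀ (B : Set ℂ), IsOpen B → ∀ (h : ℕ → ℝ), (∀ n, 0 < h n) →
  Tendsto h atTop (𝓝 0) → ∀ e : ℕ → ℂ → ℂ, M2C B h e → ∀ φ, TF B φ → (∀ z, 0 ≤ φ z) →
    Tendsto (fun n => ∫ z, φ z * ‖(h n : ℂ) * e n z‖ ^ 4) atTop (𝓝 0)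

/-- [TL] The expansion in `L⁴`. From SH (φ', s0), T4, `j4 : S_J4` (for the finitely many pairs `p` with
`p.1 + p.2 = N`: `∫ φ' ‖EJ‖⁴ ≤ ∫ φ' ‖w 0‖⁴ + 1`), `jet : S_JET` (`EJ k l = (-1)^l w (k-l) + h e`), HE:
`SF - TP = (SF - ∑ be EJ) + ∑ be h e_p`, `‖a + ∑_p b_p‖⁴ ≤ 8 ‖a‖⁴ + 8 |TS N|³ ∑ ‖b_p‖⁴`, `‖be v p‖ ≤ C(R,N)`.
`N₀` from `((2R)^N / (N-1)!)^4 (N+1)^4 → 0`. -/
def S_TL : Prop := ∀ (B : Set ℂ) (h : ℕ → ℝ) (w : ℤ → ℕ → ℂ → ℂ), SY B Complex.im h w →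
  B ⊆ UH → EX B h w (w 0) → ∀ φ, TF B φ → (∀ z, 0 ≤ φ z) →
    ∃ φ', TF B φ' ∧ (∀ z, 0 ≤ φ' z) ∧ ∃ s0 : ℝ, 0 < s0 ∧ s0 < 1 ∧
    (∀ z ∈ tsupport φ, ∀ v : ℂ, ‖v‖ ≤ s0 → z + (z.im : ℂ) * v ∈ B) ∧
    (∀ n, ∀ v : ℂ, h n * ‖v‖ ≤ s0 →
      ∫ z, φ z * ‖SF h (w 0) v n z‖ ^ 4 ≤ 2 * ∫ z, φ' z * ‖w 0 n z‖ ^ 4) ∧
    ∀ R : ℝ, 0 < R → ∀ η : ℝ, 0 < η → ∃ N₀ : ℕ, ∀ N : ℕ, N₀ ≤ N → ∀ᶠ n in atTop, ∀ v : ℂ, ‖v‖ ≤ R →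
      ∫ z, φ z * ‖SF h (w 0) v n z - TP w v N n z‖ ^ 4 ≤ η * (1 + ∫ z, φ' z * ‖w 0 n z‖ ^ 4)

/-- [PR] Comparison of products, for functions which are continuous on the support of `φ`.
Pointwise `∏ a_i - ∏ b_i` is a sum of four products with one factor `a_i - b_i` and three factors among the
`a`, `b`; `|r x y z| ≤ η^{-3} |r|⁴ + η (|x|⁴ + |y|⁴ + |z|⁴)`; `‖b‖⁴ ≤ 8 ‖a‖⁴ + 8 ‖a - b‖⁴`. -/
def S_PR : Prop := ∀ φ : ℂ → ℝ, Continuous φ → HasCompactSupport φ → (∀ z, 0 ≤ φ z) →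
  ∀ a b : Fin 4 → ℂ → ℂ, (∀ i, ContinuousOn (a i) (tsupport φ)) →
  (∀ i, ContinuousOn (b i) (tsupport φ)) → ∀ M r : ℝ, (∀ i, ∫ z, φ z * ‖a i z‖ ^ 4 ≤ M) →
  (∀ i, ∫ z, φ z * ‖a i z - b i z‖ ^ 4 ≤ r) → ∀ η : ℝ, 0 < η → η ≤ 1 →
    ‖(∫ z, (φ z : ℂ) * ∏ i, a i z) - ∫ z, (φ z : ℂ) * ∏ i, b i z‖ ≤
      100 * (r / η ^ 3 + η * (M + r))

/-- [EK] The truncated plane wave: for `‖ζ‖ = 1`,
`∑_{p ∈ TS N} bc v p ζ^(p.1 - p.2) = ∑_{j<N} ((v ζ - conj (v ζ)) / 2)^j / j!` (binomial theorem, group by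
`j = p.1 + p.2`), `(v ζ - conj (v ζ)) / 2 = I Im (v ζ)`, and the tail of the exponential series is uniformly
small for `‖v‖ ≤ R`. -/
def S_EK : Prop := ∀ R : ℝ, 0 < R → ∀ δ : ℝ, 0 < δ → ∃ N₀ : ℕ, ∀ N : ℕ, N₀ ≤ N → ∀ v : ℂ,
  ‖v‖ ≤ R → ∀ ζ : ℂ, ‖ζ‖ = 1 →
    ‖(∑ p ∈ TS N, bc v p * ζ ^ ix p) - Complex.exp (((v * ζ).im : ℂ) * I)‖ ≤ δ

/-- [KE] Bound of the combination for plane waves. For `‖ζ‖ = 1`,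
`ep2 a b c d ζ^(a+b+c+d) = (1/6) ∑_{σ=±1} [(σζ)^a (σζ)^b (-σζ)^c (-σζ)^d + (σζ)^a (-σζ)^b (σζ)^c (-σζ)^d +
(σζ)^a (-σζ)^b (-σζ)^c (σζ)^d]` (`RG.ep2`, `eps`: parities); so the sum is the corresponding average of six
products `∏_i E_i(± ζ)`, `E_i(ζ) = ∑_{p ∈ TS N} bc (v i) p ζ^(ix p)` (`Finset.prod_univ_sum`), and
`‖E_i(ζ)‖ ≤ 1 + δ'` by EK. -/
def S_KE : Prop := ∀ v : Fin 4 → ℂ, ∀ δ : ℝ, 0 < δ → ∃ N₀ : ℕ, ∀ N : ℕ, N₀ ≤ N → ∀ ζ : ℂ,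
  ‖ζ‖ = 1 → ‖∑ P ∈ TS4 N, (∏ i, bc (v i) (P i)) *
    (Pool.Agent.TH294.RG.ep2 (ix (P 0)) (ix (P 1)) (ix (P 2)) (ix (P 3)) *
      ζ ^ (ix (P 0) + ix (P 1) + ix (P 2) + ix (P 3)))‖ ≤ 1 + δ

/-- [JR] rotation invariance: `(1/2π) ∫_0^{2π} exp (i Im (v e^{iα})) dα = J_0(|v|)`
(write `v = |v| e^{iβ}`, periodicity; the sine part has integral zero). -/
def S_JR : Prop := ∀ v : ℂ, (1 / (2 * Real.pi) : ℂ) * ∫ α in (0 : ℝ)..(2 * Real.pi),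
  Complex.exp (((v * Complex.exp ((α : ℂ) * I)).im : ℂ) * I) = (J0 ‖v‖ : ℂ)

/-- [GA] The Gaussian part. `CC a b = (1/2π) ∫ ζ^a (-ζ)^b dα`, `ζ = e^{iα}`; so
`∑_{p,q ∈ TS N} bc v p bc v' q CC (ix p) (ix q) = (1/2π) ∫ E_v(ζ) E_{v'}(-ζ) dα → J_0(|v - v'|)` (EK, JR),
and `GG` is the sum of the three pairings (`W745/RW/Mom.lean`). -/
def S_GA : Prop := ∀ v : Fin 4 → ℂ, Tendsto (fun N : ℕ => ∑ P ∈ TS4 N,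
  (∏ i, bc (v i) (P i)) * Pool.Agent.W745.RW.GG (ix (P 0)) (ix (P 1)) (ix (P 2)) (ix (P 3)))
    atTop (𝓝 (gauss v : ℂ))

/-- [KA] The rotation invariant part of the kernel. The terms with `ix (P 0) + … + ix (P 3) = 0` are picked by
averaging over `ζ = e^{iα}`; then as in KE (`ep2`), EK and JR. -/
def S_KA : Prop := ∀ v : Fin 4 → ℂ, Tendsto (fun N : ℕ => ∑ P ∈ (TS4 N).filter
    (fun P => ix (P 0) + ix (P 1) + ix (P 2) + ix (P 3) = 0),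
  (∏ i, bc (v i) (P i)) * Pool.Agent.TH294.RG.ep2 (ix (P 0)) (ix (P 1)) (ix (P 2)) (ix (P 3)))
    atTop (𝓝 (kap v : ℂ))

/-- [EXP] The product of the truncated expansions as a sum: `Finset.prod_univ_sum`, linearity
(each term is continuous on `B`, `TF.cint`). -/
def S_EXP : Prop := ∀ (B : Set ℂ) (h : ℕ → ℝ) (w : ℤ → ℕ → ℂ → ℂ), SY B Complex.im h w →
  ∀ φ, TF B φ → ∀ (v : Fin 4 → ℂ) (N n : ℕ),
    ∫ z, (φ z : ℂ) * ∏ i, TP w (v i) N n z = ∑ P ∈ TS4 N, (∏ i, bc (v i) (P i)) *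
      ∫ z, (φ z : ℂ) * F4 w (ix (P 0)) (ix (P 1)) (ix (P 2)) (ix (P 3)) n z

/-- [RA] The rotation average: `bc (e^{iβ} v) p = e^{iβ (ix p)} bc v p`, so the average over `β` of the right
side of EXP for `e^{iβ} v` is the sum over the `P` with `∑ ix (P i) = 0`; for these `D4` is
`ep2 … * D4 0 0 0 0` up to a null sequence (`dd4` and `DD.even` with `j = 0` in SB9.lean;
`D4 = ∫ φ F4 - GG ∫ φ`; `GG = 0` unless the sum is zero). So the average is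
`(∑_P ∏bc GG) ∫ φ + (∑_{P, sum 0} ∏bc ep2) D4 0 0 0 0 + o(1)`. -/
def S_RA : Prop := ∀ (B : Set ℂ) (h : ℕ → ℝ) (w : ℤ → ℕ → ℂ → ℂ), SY B Complex.im h w →
  B ⊆ UH → EX B h w (w 0) → ∀ φ, TF B φ → ∀ (v : Fin 4 → ℂ) (N : ℕ),
    Tendsto (fun n => ((1 / (2 * Real.pi) : ℂ) * ∫ β in (0 : ℝ)..(2 * Real.pi),
        ∫ z, (φ z : ℂ) * ∏ i, TP w (Complex.exp ((β : ℂ) * I) * v i) N n z) -
      (∑ P ∈ TS4 N, (∏ i, bc (v i) (P i)) *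
        Pool.Agent.W745.RW.GG (ix (P 0)) (ix (P 1)) (ix (P 2)) (ix (P 3))) *
          ((∫ z, φ z : ℝ) : ℂ) -
      (∑ P ∈ (TS4 N).filter (fun P => ix (P 0) + ix (P 1) + ix (P 2) + ix (P 3) = 0),
        (∏ i, bc (v i) (P i)) *
          Pool.Agent.TH294.RG.ep2 (ix (P 0)) (ix (P 1)) (ix (P 2)) (ix (P 3))) *
        D4 w φ 0 0 0 0 n) atTop (𝓝 0)

/-- [CO] The truncated four-point functions, from `RG.fam_rel` (TH294/RG/Fam.lean), KE, GA, EXP: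
`RawG` for the hyperbolic metric as in `Results/MP_a54f13_nt/PowerSpectrum.lean`; `m = 1`, `ν = unif`;
`W1` is `ww` (`W1_eq`), `GG' (MM 1 ea unif) = GG` (compare `GG_u`, `cc_u` in Y265/HY/PS2.lean), no parallel
directions for `unif`. Take `C = 1 + δ'`: `δ' ∫ φ u⁴ ≤ ε/2 (1 + ∫_K u⁴)` for small `δ'` (`φ` bounded). -/
def S_CO : Prop := ∀ (Ω : Set ℂ), IsOpen Ω → Ω ⊆ UH → ∀ (h : ℕ → ℝ) (u : ℕ → ℂ → ℝ),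
  Pool.Agent.TH294.RG.RawG Ω Complex.im h u (Pool.Agent.TH294.RG.MM (fun _ => 1)
    Pool.Agent.TH294.RG.ea Pool.Agent.TH294.RG.unif) →
  SY Ω Complex.im h (ww Complex.im h (fun n z => (u n z : ℂ))) →
  ∀ K : Set ℂ, IsCompact K → K ⊆ Ω → ∀ φ, TF (interior K) φ → (∀ z, 0 ≤ φ z) →
  ∀ v : Fin 4 → ℂ, ∀ ε : ℝ, 0 < ε → ∃ N₀ : ℕ, ∀ N : ℕ, N₀ ≤ N → ∀ᶠ n in atTop,
    ‖(∫ z, (φ z : ℂ) * ∏ i, TP (ww Complex.im h (fun n z => (u n z : ℂ))) (v i) N n z) -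
      ((gauss v * ∫ z, φ z : ℝ) : ℂ)‖ ≤
      (∫ z, φ z * u n z ^ 4) - 3 * (∫ z, φ z) + ε * (1 + ∫ z in K, u n z ^ 4)

/-- [CB] Continuity of the four-point function in the rotation: `continuous_of_dominated`; as in the proof of
`IdL.AC` (PE/Id.lean) or `TelL.AA_int` (PE/Tel.lean) the integrand is `φ z * ∏ i, u (z + (z.im) * v')` with
`v' = h n e^{iβ} v i`, `‖v'‖ ≤ s0`, jointly continuous in `(z, β)` (`IdL.cgC`) and bounded. -/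
def S_CB : Prop := ∀ (B : Set ℂ), IsOpen B → ∀ φ : ℂ → ℝ, TF B φ → ∀ s0 : ℝ,
  (∀ z ∈ tsupport φ, ∀ v : ℂ, ‖v‖ ≤ s0 → z + (z.im : ℂ) * v ∈ B) →
  ∀ (h : ℕ → ℝ) (u : ℕ → ℂ → ℂ) (n : ℕ), 0 < h n → ContinuousOn (u n) B →
  ∀ v : Fin 4 → ℂ, (∀ i, h n * ‖v i‖ ≤ s0) →
    Continuous fun β : ℝ => ∫ z, (φ z : ℂ) * ∏ i, SF h u (Complex.exp ((β : ℂ) * I) * v i) n z

end

end Pool.Agent.Helper27K9.FP
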