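import Pool.Agent.Helper27K9.FP.Uni
import Pool.Agent.Helper27K9.FP.Fin

/-!
# The structure of the four-point functions (helper27)
-/

set_option autoImplicit false
open MeasureTheory Filter Topology Complex
open scoped ContDiff

namespace Pool.Agent.Helper27K9.FP

open Pool.Agent.W745.RW Pool.Agent.TH294.RS Pool.Agent.Y265.HY
open Pool.Agent.TH294.RG (ea unif mu0 par RawG MM MM_unif fam_rel W1 W1_eq ep2)
open Pool.Agent.Helper93K9.PE
open Pool.Agent.Helper93K9.PE.FinL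

noncomputable section

variable {lam : ℕ → ℝ} {f : ℕ → ℂ → ℝ}

namespace StL

open FnL WvL UnL DcL

/-- the Fourier coefficients of the excess -/
def Dn (lam : ℕ → ℝ) (f : ℕ → ℂ → ℝ) (φ : ℂ → ℝ) (n : ℕ) (l : ℤ) : ℂ :=
  D4 (WL lam f) φ (2 * l) 0 0 0 n

lemma ep2_l (l : ℤ) : ep2 (2 * l) 0 0 0 = 1 := by
  unfold Pool.Agent.TH294.RG.ep2 Pool.Agent.W745.RW.eps
  rw [if_pos (by simp), if_pos (by omega)]

lemma Dn_conj (S : Seq lam f) {φ : ℂ → ℝ} (hφ : TF UH φ) (n : ℕ) (l : ℤ) :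
    (starRingEnd ℂ) (Dn lam f φ n l) = Dn lam f φ n (-l) := by
  have H := (sys S).1
  unfold Dn D4
  rw [map_sub, ← integral_conj, map_mul, Complex.conj_ofReal]
  congr 1
  · congr 1; funext z
    by_cases hz : z ∈ UH
    · have h0 := H.cj 0 n z hz
      have h1 := H.cj (2 * l) n z hz
      have h2 : (-1 : ℂ) ^ (2 * l).natAbs = 1 := by
        have : (2 * l).natAbs = 2 * l.natAbs := by rw [Int.natAbs_mul]; rfl
        rw [this, pow_mul]; simp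
      rw [h2, one_mul] at h1
      simp only [Int.natAbs_zero, pow_zero, neg_zero, one_mul] at h0
      simp only [F4, map_mul, Complex.conj_ofReal]
      rw [h0, h1]
      congr 6
      ring
    · rw [TF.zero hφ hz]; simp
  · congr 1
    unfold GG CC
    by_cases hl : l = 0
    · subst hl
      simp
    · rw [if_neg (c := 2 * l + 0 = 0) (by omega), if_neg (c := 2 * -l + 0 = 0) (by omega)]
      simp

lemma Dn0 (φ : ℂ → ℝ) (n : ℕ) :
    Dn lam f φ n 0 = (((∫ z, φ z * f n z ^ 4) - 3 * (∫ z, φ z) : ℝ) : ℂ) := by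
  have g3 : GG 0 0 0 0 = 3 := by simp [GG, CC]; norm_num
  unfold Dn D4
  rw [mul_zero, F4_r, g3]
  push_cast
  rfl

lemma famD (S : Seq lam f) {K : Set ℂ} (hK : IsCompact K) (hKU : K ⊆ UH) {φ : ℂ → ℝ}
    (hφ : TF (interior K) φ) (hφ0 : ∀ z, 0 ≤ φ z) {ι : Type*} (s : Finset ι) (c : ι → ℂ)
    (g : ι → ℤ) {C : ℝ} (hC : ∀ ζ : ℂ, ‖ζ‖ = 1 → ‖∑ i ∈ s, c i * ζ ^ (2 * g i)‖ ≤ C) {ε : ℝ}
    (hε : 0 < ε) : ∀ᶠ n in atTop, ‖∑ i ∈ s, c i * Dn lam f φ n (g i)‖ ≤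
      C * ((∫ z, φ z * f n z ^ 4) - 3 * ∫ z, φ z) + ε * (1 + ∫ z in K, f n z ^ 4) := by
  have hm : ∀ K' : Set ℂ, IsCompact K' → K' ⊆ UH →
      MemLp (fun _ : ℂ => (1 : ℝ)) 2 (volume.restrict K') := by
    intro K' hK' _
    have : IsFiniteMeasure (volume.restrict K') := ⟨by simpa using hK'.measure_lt_top⟩
    exact memLp_const 1
  have hp : ∀ᵐ z ∂(volume.restrict UH), par ea (unif z) = 0 := ae_of_all _ FinL.par0
  have key := fam_rel (m := fun _ => 1) (ν := unif) hm hp (raw S) hK hKU hφ hφ0 s c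
    (fun i => (2 * g i, 0, 0, 0)) (C := C) (fun ζ hζ => by
      have := hC ζ hζ
      simp only [ep2_l, one_mul, add_zero]
      exact this) hε
  filter_upwards [key] with n hn
  have e2 : ∑ i ∈ s, c i * ∫ z, (φ z : ℂ) *
      Pool.Agent.TH294.RG.GG' (MM (fun _ => 1) ea unif) (2 * g i) 0 0 0 z =
      ∑ i ∈ s, c i * (GG (2 * g i) 0 0 0 * ((∫ z, φ z : ℝ) : ℂ)) := by
    refine Finset.sum_congr rfl fun i _ => ?_
    have : ∀ z, Pool.Agent.TH294.RG.GG' (MM (fun _ => 1) ea unif) (2 * g i) 0 0 0 z =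
        GG (2 * g i) 0 0 0 := fun z => PS.GG_u _ _ _ _ z
    simp only [this]
    rw [integral_mul_const, integral_complex_ofReal]
    ring
  have e3 : ∫ z, φ z * (1 : ℝ) ^ 2 = ∫ z, φ z := by simp
  rw [e2, e3, ← Finset.sum_sub_distrib] at hn
  have e4 : ∑ i ∈ s, c i * Dn lam f φ n (g i) = ∑ i ∈ s, (c i * (∫ z, (φ z : ℂ) *
      (W1 Complex.im (hh lam n) (f n) (2 * g i) z * W1 Complex.im (hh lam n) (f n) 0 z *
        W1 Complex.im (hh lam n) (f n) 0 z * W1 Complex.im (hh lam n) (f n) 0 z)) -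
      c i * (GG (2 * g i) 0 0 0 * ((∫ z, φ z : ℝ) : ℂ))) := by
    refine Finset.sum_congr rfl fun i _ => ?_
    simp only [W1_eq]
    unfold Dn D4
    rw [mul_sub]
    rfl
  rw [e4]
  refine hn.trans (le_of_eq ?_)
  ring

/-- the square of the absolute value of a trigonometric sum -/
lemma sq (M : ℕ) (η ζ : ℂ) (hη : ‖η‖ = 1) (hζ : ‖ζ‖ = 1) :
    ∑ p ∈ Finset.range M ×ˢ Finset.range M,
      η ^ (-(2 * ((p.1 : ℤ) - p.2))) * ζ ^ (2 * ((p.1 : ℤ) - p.2)) =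
      ((‖∑ a ∈ Finset.range M, (ζ * η⁻¹) ^ (2 * (a : ℤ))‖ ^ 2 : ℝ) : ℂ) := by
  have hζ0 := ne0 hζ
  have hη0 := ne0 hη
  have hx : ‖ζ * η⁻¹‖ = 1 := by rw [norm_mul, norm_inv, hζ, hη, inv_one, one_mul]
  have hx0 := ne0 hx
  rw [← Complex.normSq_eq_norm_sq, ← Complex.mul_conj, map_sum, Finset.sum_mul_sum,
    Finset.sum_product]
  refine Finset.sum_congr rfl fun a _ => Finset.sum_congr rfl fun b _ => ?_
  rw [conj_zpow hx, ← zpow_add₀ hx0, mul_zpow, inv_zpow, ← zpow_neg, mul_comm]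
  congr 2 <;> ring

/-- positivity of the Fejer means -/
lemma fpos (S : Seq lam f) {K : Set ℂ} (hK : IsCompact K) (hKU : K ⊆ UH) {φ : ℂ → ℝ}
    (hφ : TF (interior K) φ) (hφ0 : ∀ z, 0 ≤ φ z) {M : ℕ} (hM : 0 < M) {η : ℂ} (hη : ‖η‖ = 1)
    {ε : ℝ} (hε : 0 < ε) : ∀ᶠ n in atTop,
      -(ε * (1 + ∫ z in K, f n z ^ 4)) ≤ (Fj M (Dn lam f φ n) η).re := by
  have hMR : (0 : ℝ) < M := by exact_mod_cast hM
  have hMC : (M : ℂ) ≠ 0 := by exact_mod_cast hM.ne'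
  let s : Finset (Option (ℕ × ℕ)) := Finset.insertNone (Finset.range M ×ˢ Finset.range M)
  let c : Option (ℕ × ℕ) → ℂ := fun o => o.elim (-((M : ℂ) / 2))
    (fun p => (1 / (M : ℂ)) * η ^ (-(2 * ((p.1 : ℤ) - p.2))))
  let g : Option (ℕ × ℕ) → ℤ := fun o => o.elim 0 (fun p => (p.1 : ℤ) - p.2)
  have hsum : ∀ F : ℤ → ℂ, ∑ i ∈ s, c i * F (g i) = -((M : ℂ) / 2) * F 0 +
      (1 / (M : ℂ)) * ∑ p ∈ Finset.range M ×ˢ Finset.range M,
        η ^ (-(2 * ((p.1 : ℤ) - p.2))) * F ((p.1 : ℤ) - p.2) := by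
    intro F
    show ∑ i ∈ Finset.insertNone (Finset.range M ×ˢ Finset.range M), c i * F (g i) = _
    rw [Finset.sum_insertNone, Finset.mul_sum]
    congr 1
    refine Finset.sum_congr rfl fun p _ => ?_
    show (1 / (M : ℂ)) * η ^ (-(2 * ((p.1 : ℤ) - p.2))) * F ((p.1 : ℤ) - p.2) = _
    ring
  have hC : ∀ ζ : ℂ, ‖ζ‖ = 1 → ‖∑ i ∈ s, c i * ζ ^ (2 * g i)‖ ≤ (M : ℝ) / 2 := by
    intro ζ hζ
    rw [hsum (fun l => ζ ^ (2 * l)), mul_zero, zpow_zero, mul_one, sq M η ζ hη hζ]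
    set t : ℝ := ‖∑ a ∈ Finset.range M, (ζ * η⁻¹) ^ (2 * (a : ℤ))‖ with ht
    have ht0 : 0 ≤ t := norm_nonneg _
    have ht1 : t ≤ M := by
      rw [ht]
      refine (norm_sum_le _ _).trans ?_
      have : ∀ a ∈ Finset.range M, ‖(ζ * η⁻¹) ^ (2 * (a : ℤ))‖ ≤ 1 := by
        intro a _
        rw [norm_zpow, norm_mul, norm_inv, hζ, hη, inv_one, one_mul, one_zpow]
      refine (Finset.sum_le_sum this).trans (le_of_eq ?_)
      simp
    have e : -((M : ℂ) / 2) + 1 / (M : ℂ) * ((t ^ 2 : ℝ) : ℂ) =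
        ((-(M / 2) + 1 / M * t ^ 2 : ℝ) : ℂ) := by push_cast; ring
    rw [e, Complex.norm_real, Real.norm_eq_abs, abs_le]
    have h1 : 1 / (M : ℝ) * t ^ 2 ≤ M := by
      rw [one_div, inv_mul_le_iff₀ hMR]
      nlinarith
    have h2 : 0 ≤ 1 / (M : ℝ) * t ^ 2 := by positivity
    constructor <;> linarith
  filter_upwards [famD S hK hKU hφ hφ0 s c g hC hε] with n hn
  rw [hsum (Dn lam f φ n), Dn0] at hn
  set d : ℝ := (∫ z, φ z * f n z ^ 4) - 3 * ∫ z, φ z with hd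
  have h1 := (Complex.abs_re_le_norm _).trans hn
  have h2 := (abs_le.1 h1).1
  have h3 : (-((M : ℂ) / 2) * (d : ℂ) + 1 / (M : ℂ) * ∑ p ∈ Finset.range M ×ˢ Finset.range M,
        η ^ (-(2 * ((p.1 : ℤ) - p.2))) * Dn lam f φ n ((p.1 : ℤ) - p.2)).re =
      -(M / 2 * d) + (Fj M (Dn lam f φ n) η).re := by
    rw [Complex.add_re]
    congr 1
    have : -((M : ℂ) / 2) * (d : ℂ) = ((-(M / 2 * d) : ℝ) : ℂ) := by push_cast; ring
    rw [this, Complex.ofReal_re]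
  rw [h3] at h2
  linarith

/-- the four-point functions in terms of the coefficients -/
lemma exp4 {B : Set ℂ} {h : ℕ → ℝ} {w : ℤ → ℕ → ℂ → ℂ} (H : SY B Complex.im h w) (hBU : B ⊆ UH)
    (h0 : EX B h w (w 0)) {φ : ℂ → ℝ} (hφ : TF B φ) {R : ℝ} (hR : 0 < R) (N : ℕ) {ε : ℝ}
    (hε : 0 < ε) : ∀ᶠ n in atTop, ∀ v : Fin 4 → ℂ, (∀ i, ‖v i‖ ≤ R) →
      ‖(∫ z, (φ z : ℂ) * ∏ i, TP w (v i) N n z) -
        (∑ P ∈ TS4 N, (∏ i, bc (v i) (P i)) *
          GG (ix (P 0)) (ix (P 1)) (ix (P 2)) (ix (P 3))) * ((∫ z, φ z : ℝ) : ℂ) -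
        ∑ P ∈ TS4 N, (∏ i, bc (v i) (P i)) * (ep2 (ix (P 0)) (ix (P 1)) (ix (P 2)) (ix (P 3)) *
          D4 w φ (2 * ((ix (P 0) + ix (P 1) + ix (P 2) + ix (P 3)) / 2)) 0 0 0 n)‖ ≤ ε := by
  have hDD := dd4 H hBU h0 hφ
  set dl : (Fin 4 → ℕ × ℕ) → ℕ → ℂ := fun P n =>
    D4 w φ (ix (P 0)) (ix (P 1)) (ix (P 2)) (ix (P 3)) n -
      ep2 (ix (P 0)) (ix (P 1)) (ix (P 2)) (ix (P 3)) *
        D4 w φ (2 * ((ix (P 0) + ix (P 1) + ix (P 2) + ix (P 3)) / 2)) 0 0 0 n with hdl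
  have h1 : ∀ P, Tendsto (dl P) atTop (𝓝 0) := by
    intro P
    rcases Int.even_or_odd (ix (P 0) + ix (P 1) + ix (P 2) + ix (P 3)) with he | ho
    · have h2 : ep2 (ix (P 0)) (ix (P 1)) (ix (P 2)) (ix (P 3)) =
          eps (ix (P 0)) (ix (P 1)) (ix (P 2)) (ix (P 3)) := by
        unfold Pool.Agent.TH294.RG.ep2
        rw [if_pos he]
      simp only [hdl, h2]
      refine hDD.even _ _ _ _ _ ?_
      have := Int.even_iff.1 he
      omega
    · have h2 : ep2 (ix (P 0)) (ix (P 1)) (ix (P 2)) (ix (P 3)) = 0 := by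
        unfold Pool.Agent.TH294.RG.ep2
        rw [if_neg (Int.not_even_iff_odd.2 ho)]
      simp only [hdl, h2, zero_mul, sub_zero]
      refine hDD.odd _ _ _ _ ((ix (P 0) + ix (P 1) + ix (P 2) + ix (P 3)) / 2) ?_
      have := Int.odd_iff.1 ho
      omega
  have h2 : Tendsto (fun n => ((1 + R) ^ N) ^ 4 * ∑ P ∈ TS4 N, ‖dl P n‖) atTop (𝓝 0) := by
    have := (tendsto_finsetSum (TS4 N) fun P _ => (h1 P).norm).const_mul (((1 + R) ^ N) ^ 4)
    simpa using this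
  filter_upwards [h2.eventually (ge_mem_nhds hε)] with n hn v hv
  rw [exp_ok B h w H φ hφ v N n, Finset.sum_mul, ← Finset.sum_sub_distrib,
    ← Finset.sum_sub_distrib]
  have e : ∀ P ∈ TS4 N, (∏ i, bc (v i) (P i)) * (∫ z, (φ z : ℂ) *
        F4 w (ix (P 0)) (ix (P 1)) (ix (P 2)) (ix (P 3)) n z) -
      (∏ i, bc (v i) (P i)) * GG (ix (P 0)) (ix (P 1)) (ix (P 2)) (ix (P 3)) *
        ((∫ z, φ z : ℝ) : ℂ) -
      (∏ i, bc (v i) (P i)) * (ep2 (ix (P 0)) (ix (P 1)) (ix (P 2)) (ix (P 3)) *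
          D4 w φ (2 * ((ix (P 0) + ix (P 1) + ix (P 2) + ix (P 3)) / 2)) 0 0 0 n) =
      (∏ i, bc (v i) (P i)) * dl P n := by
    intro P _
    have h3 : D4 w φ (ix (P 0)) (ix (P 1)) (ix (P 2)) (ix (P 3)) n =
        (∫ z, (φ z : ℂ) * F4 w (ix (P 0)) (ix (P 1)) (ix (P 2)) (ix (P 3)) n z) -
          GG (ix (P 0)) (ix (P 1)) (ix (P 2)) (ix (P 3)) * ((∫ z, φ z : ℝ) : ℂ) := rfl
    simp only [hdl, h3]
    ring
  rw [Finset.sum_congr rfl e]
  refine (norm_sum_le _ _).trans (le_trans ?_ hn)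
  rw [Finset.mul_sum]
  refine Finset.sum_le_sum fun P hP => ?_
  rw [norm_mul]
  exact mul_le_mul_of_nonneg_right (bc4_le hR hv hP) (norm_nonneg _)

lemma disc_of (S : Seq lam f) {K : Set ℂ} (hK : IsCompact K) (hKU : K ⊆ UH) {φ : ℂ → ℝ}
    (hφ : TF (interior K) φ) (hφ0 : ∀ z, 0 ≤ φ z) :
    ∃ Bc : ℝ, 0 < Bc ∧ ∀ L : ℕ, ∀ ε : ℝ, 0 < ε → ∃ m : ℕ, ∀ᶠ n in atTop, ∃ a : ℕ → ℝ, (∀ k, 0 ≤ a k) ∧
      |(∑ k ∈ Finset.range m, a k) - ((∫ z, φ z * f n z ^ 4) - 3 * ∫ z, φ z)| ≤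
        ε * (1 + ∫ z in K, f n z ^ 4) ∧
      (∑ k ∈ Finset.range m, a k) ≤ (Bc + ε) * (1 + ∫ z in K, f n z ^ 4) ∧
      ∀ l : ℤ, |l| ≤ L → ‖(∑ k ∈ Finset.range m, (a k : ℂ) * rt m k ^ (2 * l)) -
        Dn lam f φ n l‖ ≤ ε * (1 + ∫ z in K, f n z ^ 4) := by
  obtain ⟨M0, hM0, hM⟩ := bdK S hK hKU hφ
  have hφU : TF UH φ := ⟨hφ.1, hφ.2.1, hφ.2.2.trans (interior_subset.trans hKU)⟩
  have hJ0 : 0 ≤ ∫ z, φ z := integral_nonneg hφ0
  set Bc : ℝ := M0 + 1 with hBc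
  have hBc0 : 0 < Bc := by positivity
  refine ⟨Bc, hBc0, fun L ε hε => ?_⟩
  obtain ⟨M, m, hMp, hmp, hdisc⟩ := disc (L := L) (ε := ε / (2 * Bc)) (by positivity)
  refine ⟨m, ?_⟩
  have e1 : ∀ᶠ n in atTop, ∀ k ∈ Finset.range m,
      -(ε / 2 * (1 + ∫ z in K, f n z ^ 4)) ≤ (Fj M (Dn lam f φ n) (rt m k)).re :=
    (Filter.eventually_all_finset _).2 fun k _ => fpos S hK hKU hφ hφ0 hMp (rt_norm m k) (half_pos hε)
  have e2 : ∀ᶠ n in atTop, ∀ l ∈ Finset.Icc (-(L : ℤ)) L, ‖Dn lam f φ n l‖ ≤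
      1 * ((∫ z, φ z * f n z ^ 4) - 3 * ∫ z, φ z) + 1 * (1 + ∫ z in K, f n z ^ 4) :=
    (Filter.eventually_all_finset _).2 fun l _ => by
      have := famD S hK hKU hφ hφ0 (Finset.univ : Finset Unit) (fun _ => 1) (fun _ => l) (C := 1)
        (fun ζ hζ => by simp [hζ]) one_pos
      simpa using this
  filter_upwards [e1, e2] with n h1 h2
  set X : ℝ := ∫ z in K, f n z ^ 4 with hX
  have hX0 : 0 ≤ X := K0 n K
  have hu := hM n
  have hu' : (∫ z, φ z * f n z ^ 4) ≤ M0 * X := (le_abs_self _).trans hu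
  have hB : ∀ l : ℤ, |l| ≤ L → ‖Dn lam f φ n l‖ ≤ Bc * (1 + X) := by
    intro l hl
    have := h2 l (Finset.mem_Icc.2 (abs_le.1 hl))
    nlinarith
  have e3 : ε / (2 * Bc) * (Bc * (1 + X)) = ε / 2 * (1 + X) := by field_simp
  obtain ⟨a, ha0, ha1, ha2⟩ := hdisc (Dn lam f φ n) (Bc * (1 + X)) (by positivity)
    (Dn_conj S hφU n) hB (fun k hk => by rw [e3]; exact h1 k hk)
  rw [e3] at ha1 ha2
  rw [Dn0] at ha1
  have ha1' : (∑ k ∈ Finset.range m, a k) =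
      ((∫ z, φ z * f n z ^ 4) - 3 * ∫ z, φ z) + ε / 2 * (1 + X) := by exact_mod_cast ha1
  have hεX : 0 ≤ ε / 2 * (1 + X) := by positivity
  refine ⟨a, ha0, ?_, ?_, fun l hl => (ha2 l hl).trans (le_of_eq (by ring))⟩
  · rw [ha1', add_sub_cancel_left, abs_of_nonneg hεX]
    nlinarith
  · rw [ha1']
    nlinarith

end StL

open FnL WvL UnL DcL StL in
/-- **Structure of the four-point functions**. -/
theorem str (S : Seq lam f) {K : Set ℂ} (hK : IsCompact K) (hKU : K ⊆ UH) {φ : ℂ → ℝ}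
    (hφ : TF (interior K) φ) (hφ0 : ∀ z, 0 ≤ φ z) {R : ℝ} (hR : 0 < R) {ε : ℝ} (hε : 0 < ε) :
    ∃ m : ℕ, ∀ᶠ n in atTop, ∃ a : ℕ → ℝ, (∀ k, 0 ≤ a k) ∧
      |(∑ k ∈ Finset.range m, a k) - ((∫ z, φ z * f n z ^ 4) - 3 * ∫ z, φ z)| ≤
        ε * (1 + ∫ z in K, f n z ^ 4) ∧
      ∀ v : Fin 4 → ℂ, (∀ i, ‖v i‖ ≤ R) →
        ‖(∫ z, (φ z : ℂ) * ∏ i, SF (hh lam) (WL lam f 0) (v i) n z) -
          ((gauss v * (∫ z, φ z) + ∑ k ∈ Finset.range m, a k * pw v (rt m k) : ℝ) : ℂ)‖ ≤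
          ε * (1 + ∫ z in K, f n z ^ 4) := by
  have hBU : interior K ⊆ UH := interior_subset.trans hKU
  obtain ⟨hSY, hEX⟩ := sysK S isOpen_interior hBU
  set J : ℝ := ∫ z, φ z with hJ
  have hJ0 : 0 ≤ J := integral_nonneg hφ0
  obtain ⟨s0, hs0, hball, N1, hN1⟩ := cmp S hK hKU hφ hφ0 hR (ε := ε / 5) (by positivity)
  obtain ⟨N2, hN2⟩ := gaR R hR (ε / (5 * (J + 1))) (by positivity)
  obtain ⟨Bc, hBc, hdo⟩ := disc_of S hK hKU hφ hφ0
  obtain ⟨N3, hN3⟩ := kerR R hR (ε / (5 * (Bc + 1))) (by positivity)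
  set N : ℕ := max N1 (max N2 N3) with hN
  have g2 := hN2 N ((le_max_left N2 N3).trans (le_max_right _ _))
  have g3 := hN3 N ((le_max_right N2 N3).trans (le_max_right _ _))
  set Cb : ℝ := ((1 + R) ^ N) ^ 4 * ((TS4 N).card : ℝ) + 1 with hCb
  have hCb0 : 0 < Cb := by positivity
  set ε' : ℝ := min (min 1 ε) (ε / (5 * Cb)) with hε'
  have hε'0 : 0 < ε' := lt_min (lt_min one_pos hε) (by positivity)
  have hε'1 : ε' ≤ 1 := (min_le_left _ _).trans (min_le_left _ _)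
  have hε'2 : ε' ≤ ε := (min_le_left _ _).trans (min_le_right _ _)
  have hε'3 : ε' * (5 * Cb) ≤ ε := by
    have : ε' ≤ ε / (5 * Cb) := min_le_right _ _
    rwa [le_div_iff₀ (by positivity)] at this
  obtain ⟨m, hm⟩ := hdo (2 * N) ε' hε'0
  refine ⟨m, ?_⟩
  filter_upwards [hN1 N (le_max_left _ _), exp4 hSY hBU hEX hφ hR N (ε := ε / 5) (by positivity), hm]
    with n h1 h2 ⟨a, ha0, ha1, ha2, ha3⟩
  set X : ℝ := ∫ z in K, f n z ^ 4 with hX
  have hX0 : 0 ≤ X := K0 n K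
  refine ⟨a, ha0, ha1.trans (mul_le_mul_of_nonneg_right hε'2 (by positivity)), fun v hv => ?_⟩
  set E : ℂ := ∑ P ∈ TS4 N, (∏ i, bc (v i) (P i)) *
    (ep2 (ix (P 0)) (ix (P 1)) (ix (P 2)) (ix (P 3)) *
      Dn lam f φ n ((ix (P 0) + ix (P 1) + ix (P 2) + ix (P 3)) / 2)) with hE
  set G : ℂ := ∑ P ∈ TS4 N, (∏ i, bc (v i) (P i)) *
    GG (ix (P 0)) (ix (P 1)) (ix (P 2)) (ix (P 3)) with hG
  set kk : ℕ → ℂ := fun k => ∑ P ∈ TS4 N, (∏ i, bc (v i) (P i)) *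
    (ep2 (ix (P 0)) (ix (P 1)) (ix (P 2)) (ix (P 3)) *
      rt m k ^ (ix (P 0) + ix (P 1) + ix (P 2) + ix (P 3))) with hkk
  have m1 := h1.2 v hv
  have m2 : ‖(∫ z, (φ z : ℂ) * ∏ i, TP (WL lam f) (v i) N n z) - G * (J : ℂ) - E‖ ≤ ε / 5 := h2 v hv
  have m3 : ‖(G - (gauss v : ℂ)) * (J : ℂ)‖ ≤ ε / 5 := by
    rw [norm_mul, Complex.norm_real, Real.norm_of_nonneg hJ0]
    calc ‖G - (gauss v : ℂ)‖ * J ≤ ε / (5 * (J + 1)) * J :=
          mul_le_mul_of_nonneg_right (g2 v hv) hJ0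
      _ ≤ ε / 5 := by
        rw [div_mul_eq_mul_div, div_le_div_iff₀ (by positivity) (by positivity)]
        nlinarith
  have m4 : ‖E - ∑ k ∈ Finset.range m, (a k : ℂ) * kk k‖ ≤ ε / 5 * (1 + X) := by
    have e1 : ∑ k ∈ Finset.range m, (a k : ℂ) * kk k = ∑ P ∈ TS4 N, (∏ i, bc (v i) (P i)) *
        (ep2 (ix (P 0)) (ix (P 1)) (ix (P 2)) (ix (P 3)) *
          ∑ k ∈ Finset.range m, (a k : ℂ) *
            rt m k ^ (ix (P 0) + ix (P 1) + ix (P 2) + ix (P 3))) := by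
      simp only [hkk, Finset.mul_sum]
      rw [Finset.sum_comm]
      refine Finset.sum_congr rfl fun P _ => Finset.sum_congr rfl fun k _ => ?_
      ring
    rw [e1, hE, ← Finset.sum_sub_distrib]
    have e2 : ∀ P ∈ TS4 N, ‖(∏ i, bc (v i) (P i)) *
        (ep2 (ix (P 0)) (ix (P 1)) (ix (P 2)) (ix (P 3)) *
          Dn lam f φ n ((ix (P 0) + ix (P 1) + ix (P 2) + ix (P 3)) / 2)) -
        (∏ i, bc (v i) (P i)) * (ep2 (ix (P 0)) (ix (P 1)) (ix (P 2)) (ix (P 3)) *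
          ∑ k ∈ Finset.range m, (a k : ℂ) *
            rt m k ^ (ix (P 0) + ix (P 1) + ix (P 2) + ix (P 3)))‖ ≤
        ((1 + R) ^ N) ^ 4 * (ε' * (1 + X)) := by
      intro P hP
      rw [← mul_sub, ← mul_sub, norm_mul, norm_mul]
      refine mul_le_mul (bc4_le hR hv hP) ?_ (by positivity) (by positivity)
      rcases Int.even_or_odd (ix (P 0) + ix (P 1) + ix (P 2) + ix (P 3)) with he | ho
      · have hx : ∀ i, |ix (P i)| ≤ N := by
          intro i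
          have h5 := Fintype.mem_piFinset.1 hP i
          simp only [TS, Finset.mem_filter] at h5
          have h6 := h5.2
          unfold ix
          rw [abs_le]
          constructor <;> omega
        have x0 := abs_le.1 (hx 0)
        have x1 := abs_le.1 (hx 1)
        have x2 := abs_le.1 (hx 2)
        have x3 := abs_le.1 (hx 3)
        have h7 := ha3 ((ix (P 0) + ix (P 1) + ix (P 2) + ix (P 3)) / 2) (by
          rw [abs_le]
          push_cast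
          constructor <;> omega)
        have h8 : 2 * ((ix (P 0) + ix (P 1) + ix (P 2) + ix (P 3)) / 2) =
            ix (P 0) + ix (P 1) + ix (P 2) + ix (P 3) := by
          have := Int.even_iff.1 he
          omega
        rw [h8, norm_sub_rev] at h7
        have h9 := ep2_le (ix (P 0)) (ix (P 1)) (ix (P 2)) (ix (P 3))
        calc _ ≤ 1 * (ε' * (1 + X)) := mul_le_mul h9 h7 (norm_nonneg _) zero_le_one
          _ = _ := one_mul _
      · have h9 : ep2 (ix (P 0)) (ix (P 1)) (ix (P 2)) (ix (P 3)) = 0 := by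
          unfold Pool.Agent.TH294.RG.ep2
          rw [if_neg (Int.not_even_iff_odd.2 ho)]
        rw [h9, norm_zero, zero_mul]
        positivity
    refine (norm_sum_le _ _).trans ((Finset.sum_le_sum e2).trans ?_)
    rw [Finset.sum_const, nsmul_eq_mul]
    have h10 : ((TS4 N).card : ℝ) * (((1 + R) ^ N) ^ 4 * (ε' * (1 + X))) ≤
        Cb * ε' * (1 + X) := by
      have : ((TS4 N).card : ℝ) * (((1 + R) ^ N) ^ 4 * (ε' * (1 + X))) =
          (Cb - 1) * (ε' * (1 + X)) := by rw [hCb]; ring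
      rw [this]
      have h11 : 0 ≤ ε' * (1 + X) := by positivity
      nlinarith
    refine h10.trans ?_
    refine mul_le_mul_of_nonneg_right ?_ (by positivity)
    linarith
  have m5 : ‖(∑ k ∈ Finset.range m, (a k : ℂ) * kk k) -
      ∑ k ∈ Finset.range m, (a k : ℂ) * (pw v (rt m k) : ℂ)‖ ≤ ε / 5 * (1 + X) := by
    rw [← Finset.sum_sub_distrib]
    have e2 : ∀ k ∈ Finset.range m, ‖(a k : ℂ) * kk k - (a k : ℂ) * (pw v (rt m k) : ℂ)‖ ≤
        a k * (ε / (5 * (Bc + 1))) := by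
      intro k _
      rw [← mul_sub, norm_mul, Complex.norm_real, Real.norm_of_nonneg (ha0 k)]
      exact mul_le_mul_of_nonneg_left (g3 v hv (rt m k) (rt_norm m k)) (ha0 k)
    refine (norm_sum_le _ _).trans ((Finset.sum_le_sum e2).trans ?_)
    rw [← Finset.sum_mul]
    have h10 : (∑ k ∈ Finset.range m, a k) ≤ (Bc + 1) * (1 + X) :=
      ha2.trans (mul_le_mul_of_nonneg_right (by linarith) (by positivity))
    calc (∑ k ∈ Finset.range m, a k) * (ε / (5 * (Bc + 1))) ≤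
          (Bc + 1) * (1 + X) * (ε / (5 * (Bc + 1))) :=
          mul_le_mul_of_nonneg_right h10 (by positivity)
      _ = ε / 5 * (1 + X) := by
        have : Bc + 1 ≠ 0 := by positivity
        field_simp
  have e5 : (∫ z, (φ z : ℂ) * ∏ i, SF (hh lam) (WL lam f 0) (v i) n z) -
      ((gauss v * J + ∑ k ∈ Finset.range m, a k * pw v (rt m k) : ℝ) : ℂ) =
      ((∫ z, (φ z : ℂ) * ∏ i, SF (hh lam) (WL lam f 0) (v i) n z) -
        ∫ z, (φ z : ℂ) * ∏ i, TP (WL lam f) (v i) N n z) +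
      ((∫ z, (φ z : ℂ) * ∏ i, TP (WL lam f) (v i) N n z) - G * (J : ℂ) - E) +
      (G - (gauss v : ℂ)) * (J : ℂ) + (E - ∑ k ∈ Finset.range m, (a k : ℂ) * kk k) +
      ((∑ k ∈ Finset.range m, (a k : ℂ) * kk k) -
        ∑ k ∈ Finset.range m, (a k : ℂ) * (pw v (rt m k) : ℂ)) := by
    push_cast; ring
  rw [e5]
  refine (norm_add_le _ _).trans ((add_le_add ((norm_add_le _ _).trans (add_le_add
    ((norm_add_le _ _).trans (add_le_add ((norm_add_le _ _).trans (add_le_add m1 m2)) m3)) m4))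
      m5).trans ?_)
  nlinarith

end

end Pool.Agent.Helper27K9.FP
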