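import Pool.Agent.Helper27K9.FP.Disc
import Pool.Agent.Helper27K9.FP.Ra

/-!
# Uniformity in the configuration (helper27)
-/

set_option autoImplicit false
open MeasureTheory Filter Topology Complex
open scoped ContDiff

namespace Pool.Agent.Helper27K9.FP

open Pool.Agent.W745.RW (GG CC)
open Pool.Agent.TH294.RG (ep2)

noncomputable section

/-- the four-point function of plane waves with direction `ζ` and random phase -/
def pw (v : Fin 4 → ℂ) (ζ : ℂ) : ℝ :=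
  (Real.cos (((v 0 + v 1 - v 2 - v 3) * ζ).im) + Real.cos (((v 0 + v 2 - v 1 - v 3) * ζ).im) +
    Real.cos (((v 0 + v 3 - v 1 - v 2) * ζ).im)) / 3

namespace UnL

open WvL KaL

theorem unif4R (R : ℝ) (hR : 0 < R) (δ : ℝ) (hδ : 0 < δ) : ∃ N₀ : ℕ, ∀ N : ℕ, N₀ ≤ N →
    ∀ v : Fin 4 → ℂ, (∀ i, ‖v i‖ ≤ R) → ∀ s : Fin 4 → ℂ, (∀ i, ‖s i‖ = 1) → ∀ ζ : ℂ, ‖ζ‖ = 1 →
      ‖∏ i, Ev (v i) N (s i * ζ) - Complex.exp ((((∑ i, s i * v i) * ζ).im : ℂ) * I)‖ ≤ δ := by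
  obtain ⟨N₀, hN₀⟩ := ek0 R hR (min 1 (δ / 15)) (by positivity)
  refine ⟨N₀, fun N hN v hv s hs ζ hζ => ?_⟩
  have h1 := prod4 (a := fun i => Ev (v i) N (s i * ζ))
    (b := fun i => Complex.exp (((v i * (s i * ζ)).im : ℂ) * I)) (min_le_left 1 (δ / 15))
    (fun i => hN₀ N hN (v i) (hv i) (s i * ζ) (by rw [norm_mul, hs, hζ, one_mul]))
    (fun i => exp1 _)
  have e : ∏ i, Complex.exp (((v i * (s i * ζ)).im : ℂ) * I) =
      Complex.exp ((((∑ i, s i * v i) * ζ).im : ℂ) * I) := by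
    have e1 : (((∑ i, s i * v i) * ζ).im : ℂ) = ∑ i, ((v i * (s i * ζ)).im : ℂ) := by
      rw [← Complex.ofReal_sum, ← Complex.im_sum, Finset.sum_mul]
      congr 2
      refine Finset.sum_congr rfl fun i _ => ?_
      ring
    rw [← Complex.exp_sum, e1, Finset.sum_mul]
  simp only [e] at h1
  refine h1.trans ?_
  have := min_le_right 1 (δ / 15)
  linarith

lemma exp_sg (v : Fin 4 → ℂ) (ζ : ℂ) :
    (1 / 6 : ℂ) * ∑ k, Complex.exp ((((∑ i, sg k i * v i) * ζ).im : ℂ) * I) = (pw v ζ : ℂ) := by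
  have s0 : ∑ i, sg 0 i * v i = v 0 + v 1 - v 2 - v 3 := by
    simp [Fin.sum_univ_succ, sg]; ring
  have s1 : ∑ i, sg 1 i * v i = v 0 + v 2 - v 1 - v 3 := by
    simp [Fin.sum_univ_succ, sg]; ring
  have s2 : ∑ i, sg 2 i * v i = v 0 + v 3 - v 1 - v 2 := by
    simp [Fin.sum_univ_succ, sg]; ring
  have s3 : ∑ i, sg 3 i * v i = -(v 0 + v 1 - v 2 - v 3) := by
    simp [Fin.sum_univ_succ, sg]; ring
  have s4 : ∑ i, sg 4 i * v i = -(v 0 + v 2 - v 1 - v 3) := by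
    simp [Fin.sum_univ_succ, sg]; ring
  have s5 : ∑ i, sg 5 i * v i = -(v 0 + v 3 - v 1 - v 2) := by
    simp [Fin.sum_univ_succ, sg]; ring
  have h6 : ∀ F : Fin 6 → ℂ, ∑ k, F k = F 0 + F 1 + F 2 + F 3 + F 4 + F 5 := by
    intro F
    simp only [Fin.sum_univ_succ, Fin.sum_univ_zero]
    simp only [add_zero, ← add_assoc]
    rfl
  rw [h6]
  simp only [s0, s1, s2, s3, s4, s5, neg_mul, Complex.neg_im, Complex.ofReal_neg]
  unfold pw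
  push_cast
  simp only [Complex.cos, neg_mul]
  ring

theorem kerR (R : ℝ) (hR : 0 < R) (δ : ℝ) (hδ : 0 < δ) : ∃ N₀ : ℕ, ∀ N : ℕ, N₀ ≤ N →
    ∀ v : Fin 4 → ℂ, (∀ i, ‖v i‖ ≤ R) → ∀ ζ : ℂ, ‖ζ‖ = 1 →
      ‖(∑ P ∈ TS4 N, (∏ i, bc (v i) (P i)) *
        (ep2 (ix (P 0)) (ix (P 1)) (ix (P 2)) (ix (P 3)) *
          ζ ^ (ix (P 0) + ix (P 1) + ix (P 2) + ix (P 3)))) - (pw v ζ : ℂ)‖ ≤ δ := by
  obtain ⟨N₀, hN₀⟩ := unif4R R hR δ hδ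
  refine ⟨N₀, fun N hN v hv ζ hζ => ?_⟩
  rw [ker v N ζ (ne0 hζ), ← exp_sg, ← mul_sub, ← Finset.sum_sub_distrib, norm_mul]
  have h4 : ‖∑ k, (∏ i, Ev (v i) N (sg k i * ζ) -
      Complex.exp ((((∑ i, sg k i * v i) * ζ).im : ℂ) * I))‖ ≤ 6 * δ := by
    refine (norm_sum_le _ _).trans ((Finset.sum_le_sum fun k _ =>
      hN₀ N hN v hv (sg k) (sg1 k) ζ hζ).trans (le_of_eq ?_))
    rw [Finset.sum_const, Finset.card_univ, Fintype.card_fin, nsmul_eq_mul]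
    norm_num
  have h5 : ‖(1 / 6 : ℂ)‖ = 1 / 6 := by norm_num
  rw [h5]
  linarith

/-- the two-point sums -/
def T2 (v v' : ℂ) (N : ℕ) : ℂ :=
  ∑ p ∈ TS N, ∑ q ∈ TS N, (bc v p * bc v' q) * CC (ix p) (ix q)

lemma T2_eq (v v' : ℂ) (N : ℕ) : T2 v v' N = Avg (fun ζ => Ev v N (1 * ζ) * Ev v' N (-1 * ζ)) := by
  unfold T2
  have e1 : ∀ p q : ℕ × ℕ, CC (ix p) (ix q) =
      (-1 : ℂ) ^ ix q * Avg (fun ζ => ζ ^ (ix p + ix q)) := by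
    intro p q
    rw [Avg_zpow]
    unfold Pool.Agent.W745.RW.CC
    split_ifs with h
    · rw [mul_one]
      have : (ix q).natAbs = (ix p).natAbs := by omega
      rw [← this]
      have hz : ∀ k : ℤ, (-1 : ℂ) ^ k.natAbs = (-1) ^ k := by
        intro k
        rcases Int.even_or_odd k with hk | hk
        · rw [hk.neg_one_zpow, (Int.natAbs_even.2 hk).neg_one_pow]
        · rw [hk.neg_one_zpow, (Int.natAbs_odd.2 hk).neg_one_pow]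
      exact hz _
    · rw [mul_zero]
  have e2 : Avg (fun ζ => Ev v N (1 * ζ) * Ev v' N (-1 * ζ)) =
      Avg (fun ζ => ∑ p ∈ TS N, bc v p * ∑ q ∈ TS N, (bc v' q * (-1 : ℂ) ^ ix q) *
        ζ ^ (ix p + ix q)) := by
    unfold Avg
    congr 1
    refine intervalIntegral.integral_congr fun α _ => ?_
    simp only [Ev, one_mul, mul_zpow]
    rw [Finset.sum_mul]
    refine Finset.sum_congr rfl fun p _ => ?_
    rw [Finset.mul_sum, Finset.mul_sum]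
    refine Finset.sum_congr rfl fun q _ => ?_
    rw [zpow_add₀ (Complex.exp_ne_zero _)]
    ring
  rw [e2, Avg_sum _ _ _ fun p _ => cf_sum _ _ fun q _ => cf_mul (cf_const _) (cf_zpow _)]
  refine Finset.sum_congr rfl fun p _ => ?_
  rw [Avg_sum _ _ _ fun q _ => cf_zpow _, Finset.mul_sum]
  refine Finset.sum_congr rfl fun q _ => ?_
  rw [e1 p q]
  ring

theorem pairR (R : ℝ) (hR : 0 < R) (δ : ℝ) (hδ : 0 < δ) : ∃ N₀ : ℕ, ∀ N : ℕ, N₀ ≤ N →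
    ∀ v v' : ℂ, ‖v‖ ≤ R → ‖v'‖ ≤ R → ‖T2 v v' N - (J0 ‖v - v'‖ : ℂ)‖ ≤ δ := by
  obtain ⟨N₀, hN₀⟩ := ek0 R hR (min 1 (δ / 3)) (by positivity)
  refine ⟨N₀, fun N hN v v' hv hv' => ?_⟩
  rw [T2_eq, ← Avg_exp _ jr]
  refine (Avg_sub_le (δ := 3 * min 1 (δ / 3)) (cf_mul (cf_Ev _ _ _) (cf_Ev _ _ _)) (cf_exp _)
    fun ζ hζ => ?_).trans ?_
  · have k1 := hN₀ N hN v hv (1 * ζ) (by rw [one_mul, hζ])
    have k2 := hN₀ N hN v' hv' (-1 * ζ) (by rw [norm_mul, hζ, norm_neg, norm_one, one_mul])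
    have k3 := prod2 (min_le_left 1 (δ / 3)) k1 k2 (exp1 _) (exp1 _)
    rw [← Complex.exp_add] at k3
    have k4 : ((v * (1 * ζ)).im : ℂ) * I + ((v' * (-1 * ζ)).im : ℂ) * I =
        (((v - v') * ζ).im : ℂ) * I := by
      rw [← add_mul, ← Complex.ofReal_add, ← Complex.add_im]
      congr 3
      ring
    rwa [k4] at k3
  · have := min_le_right 1 (δ / 3)
    linarith

lemma J0_le (r : ℝ) : |J0 r| ≤ 1 := by
  unfold J0
  have h2 := intervalIntegral.norm_integral_le_of_norm_le_const (a := (0 : ℝ)) (b := 2 * Real.pi)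
    (C := 1) (f := fun θ : ℝ => Real.cos (r * Real.cos θ))
    (fun θ _ => by rw [Real.norm_eq_abs]; exact Real.abs_cos_le_one _)
  rw [sub_zero, abs_of_pos (show (0 : ℝ) < 2 * Real.pi by positivity), one_mul,
    Real.norm_eq_abs] at h2
  rw [abs_mul, abs_of_pos (show (0 : ℝ) < 1 / (2 * Real.pi) by positivity)]
  calc 1 / (2 * Real.pi) * _ ≤ 1 / (2 * Real.pi) * (2 * Real.pi) :=
        mul_le_mul_of_nonneg_left h2 (by positivity)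
    _ = 1 := by field_simp

lemma two {a b a' b' : ℂ} {δ : ℝ} (hδ : δ ≤ 1) (ha : ‖a - a'‖ ≤ δ) (hb : ‖b - b'‖ ≤ δ)
    (na : ‖a'‖ ≤ 1) (nb : ‖b'‖ ≤ 1) : ‖a * b - a' * b'‖ ≤ 3 * δ := by
  have e : a * b - a' * b' = (a - a') * b + a' * (b - b') := by ring
  have hδ0 : 0 ≤ δ := (norm_nonneg _).trans ha
  have m1 : ‖b‖ ≤ 2 := by
    have := norm_le_norm_add_norm_sub' b b'
    linarith
  rw [e]
  refine (norm_add_le _ _).trans ?_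
  rw [norm_mul, norm_mul]
  have h1 : ‖a - a'‖ * ‖b‖ ≤ δ * 2 := mul_le_mul ha m1 (norm_nonneg _) hδ0
  have h2 : ‖a'‖ * ‖b - b'‖ ≤ 1 * δ := mul_le_mul na hb (norm_nonneg _) zero_le_one
  linarith

lemma GG_split (v : Fin 4 → ℂ) (N : ℕ) : ∑ P ∈ TS4 N, (∏ i, bc (v i) (P i)) *
      GG (ix (P 0)) (ix (P 1)) (ix (P 2)) (ix (P 3)) =
      T2 (v 0) (v 1) N * T2 (v 2) (v 3) N + T2 (v 0) (v 2) N * T2 (v 1) (v 3) N +
      T2 (v 0) (v 3) N * T2 (v 1) (v 2) N := by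
  unfold T2
  simp only [Fin.prod_univ_four]
  rw [sum4 N (fun p q r s => bc (v 0) p * bc (v 1) q * bc (v 2) r * bc (v 3) s *
    GG (ix p) (ix q) (ix r) (ix s))]
  have e0 : ∀ p q r s : ℕ × ℕ, bc (v 0) p * bc (v 1) q * bc (v 2) r * bc (v 3) s *
      GG (ix p) (ix q) (ix r) (ix s) =
      ((bc (v 0) p * bc (v 1) q) * CC (ix p) (ix q)) *
        ((bc (v 2) r * bc (v 3) s) * CC (ix r) (ix s)) +
      ((bc (v 0) p * bc (v 2) r) * CC (ix p) (ix r)) *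
        ((bc (v 1) q * bc (v 3) s) * CC (ix q) (ix s)) +
      ((bc (v 0) p * bc (v 3) s) * CC (ix p) (ix s)) *
        ((bc (v 1) q * bc (v 2) r) * CC (ix q) (ix r)) := by
    intro p q r s
    unfold Pool.Agent.W745.RW.GG
    ring
  simp only [e0, Finset.sum_add_distrib]
  congr 1
  · congr 1
    · simp only [← Finset.mul_sum, ← Finset.sum_mul]
    · rw [Finset.sum_mul_sum]
      simp only [Finset.sum_mul_sum]
  · rw [Finset.sum_mul_sum]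
    simp only [Finset.sum_mul_sum]
    refine Finset.sum_congr rfl fun p _ => ?_
    refine Finset.sum_congr rfl fun q _ => ?_
    rw [Finset.sum_comm]

theorem gaR (R : ℝ) (hR : 0 < R) (δ : ℝ) (hδ : 0 < δ) : ∃ N₀ : ℕ, ∀ N : ℕ, N₀ ≤ N →
    ∀ v : Fin 4 → ℂ, (∀ i, ‖v i‖ ≤ R) → ‖(∑ P ∈ TS4 N, (∏ i, bc (v i) (P i)) *
      GG (ix (P 0)) (ix (P 1)) (ix (P 2)) (ix (P 3))) - (gauss v : ℂ)‖ ≤ δ := by
  obtain ⟨N₀, hN₀⟩ := pairR R hR (min 1 (δ / 9)) (by positivity)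
  refine ⟨N₀, fun N hN v hv => ?_⟩
  have hp : ∀ i j, ‖T2 (v i) (v j) N - (J0 ‖v i - v j‖ : ℂ)‖ ≤ min 1 (δ / 9) := fun i j =>
    hN₀ N hN _ _ (hv i) (hv j)
  have hJ : ∀ i j, ‖(J0 ‖v i - v j‖ : ℂ)‖ ≤ 1 := fun i j => by
    rw [Complex.norm_real, Real.norm_eq_abs]; exact J0_le _
  have h1 := two (min_le_left 1 (δ / 9)) (hp 0 1) (hp 2 3) (hJ 0 1) (hJ 2 3)
  have h2 := two (min_le_left 1 (δ / 9)) (hp 0 2) (hp 1 3) (hJ 0 2) (hJ 1 3)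
  have h3 := two (min_le_left 1 (δ / 9)) (hp 0 3) (hp 1 2) (hJ 0 3) (hJ 1 2)
  rw [GG_split]
  unfold gauss
  push_cast
  have e : T2 (v 0) (v 1) N * T2 (v 2) (v 3) N + T2 (v 0) (v 2) N * T2 (v 1) (v 3) N +
      T2 (v 0) (v 3) N * T2 (v 1) (v 2) N -
      ((J0 ‖v 0 - v 1‖ : ℂ) * (J0 ‖v 2 - v 3‖ : ℂ) + (J0 ‖v 0 - v 2‖ : ℂ) * (J0 ‖v 1 - v 3‖ : ℂ) +
        (J0 ‖v 0 - v 3‖ : ℂ) * (J0 ‖v 1 - v 2‖ : ℂ)) =
      (T2 (v 0) (v 1) N * T2 (v 2) (v 3) N - (J0 ‖v 0 - v 1‖ : ℂ) * (J0 ‖v 2 - v 3‖ : ℂ)) +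
      (T2 (v 0) (v 2) N * T2 (v 1) (v 3) N - (J0 ‖v 0 - v 2‖ : ℂ) * (J0 ‖v 1 - v 3‖ : ℂ)) +
      (T2 (v 0) (v 3) N * T2 (v 1) (v 2) N - (J0 ‖v 0 - v 3‖ : ℂ) * (J0 ‖v 1 - v 2‖ : ℂ)) := by
    ring
  rw [e]
  refine (norm_add_le _ _).trans ((add_le_add ((norm_add_le _ _).trans (add_le_add h1 h2)) h3).trans
    ?_)
  have := min_le_right 1 (δ / 9)
  linarith

/-- bound of the coefficients -/
lemma bc_le {R : ℝ} (hR : 0 < R) {v : ℂ} (hv : ‖v‖ ≤ R) {N : ℕ} {p : ℕ × ℕ} (hp : p ∈ TS N) :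
    ‖bc v p‖ ≤ (1 + R) ^ N := by
  have hp' : p.1 + p.2 < N := by
    simp only [TS, Finset.mem_filter] at hp
    exact hp.2
  have h1 : ∀ (w : ℂ) (k : ℕ), ‖w‖ ≤ R → ‖(w / 2) ^ k / (k.factorial : ℂ)‖ ≤ (1 + R) ^ k := by
    intro w k hw
    rw [norm_div, norm_pow, norm_div, Complex.norm_natCast]
    have h2 : ‖w‖ / ‖(2 : ℂ)‖ ≤ 1 + R := by
      rw [show ‖(2 : ℂ)‖ = 2 by norm_num]
      have := norm_nonneg w
      linarith
    have h3 : (‖w‖ / ‖(2 : ℂ)‖) ^ k ≤ (1 + R) ^ k := pow_le_pow_left₀ (by positivity) h2 k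
    have h4 : (1 : ℝ) ≤ (k.factorial : ℝ) := by exact_mod_cast Nat.one_le_iff_ne_zero.2 k.factorial_ne_zero
    exact (div_le_self (by positivity) h4).trans h3
  unfold bc be
  rw [norm_mul, norm_pow, norm_neg, norm_one, one_pow, one_mul, norm_mul]
  have h5 := h1 v p.1 hv
  have h6 := h1 ((starRingEnd ℂ) v) p.2 (by rwa [Complex.norm_conj])
  calc _ ≤ (1 + R) ^ p.1 * (1 + R) ^ p.2 := mul_le_mul h5 h6 (norm_nonneg _) (by positivity)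
    _ = (1 + R) ^ (p.1 + p.2) := by rw [pow_add]
    _ ≤ (1 + R) ^ N := pow_le_pow_right₀ (by linarith) hp'.le

lemma bc4_le {R : ℝ} (hR : 0 < R) {v : Fin 4 → ℂ} (hv : ∀ i, ‖v i‖ ≤ R) {N : ℕ}
    {P : Fin 4 → ℕ × ℕ} (hP : P ∈ TS4 N) : ‖∏ i, bc (v i) (P i)‖ ≤ ((1 + R) ^ N) ^ 4 := by
  rw [norm_prod]
  have h0 : ∀ i ∈ (Finset.univ : Finset (Fin 4)), 0 ≤ ‖bc (v i) (P i)‖ := fun i _ => norm_nonneg _
  have h1 : ∀ i ∈ (Finset.univ : Finset (Fin 4)), ‖bc (v i) (P i)‖ ≤ (1 + R) ^ N := fun i _ =>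
    bc_le hR (hv i) (Fintype.mem_piFinset.1 hP i)
  calc ∏ i, ‖bc (v i) (P i)‖ ≤ ∏ _i : Fin 4, (1 + R) ^ N := Finset.prod_le_prod h0 h1
    _ = ((1 + R) ^ N) ^ 4 := by rw [Finset.prod_const, Finset.card_univ, Fintype.card_fin]

lemma ep2_le (a b c d : ℤ) : ‖ep2 a b c d‖ ≤ 1 := by
  unfold Pool.Agent.TH294.RG.ep2 Pool.Agent.W745.RW.eps
  split_ifs
  · simp
  · rw [norm_neg]; norm_num
  · simp

end UnL

end

end Pool.Agent.Helper27K9.FP
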