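import Pool.Agent.Helper27K9.FP.Stm

/-!
# Truncated plane waves (helper27): [EK], and the library for [KE], [GA], [KA]
-/

set_option autoImplicit false
open MeasureTheory Filter Topology Complex
open scoped ContDiff

namespace Pool.Agent.Helper27K9.FP

noncomputable section

/-- the truncated plane wave -/
def Ev (v : ℂ) (N : ℕ) (ζ : ℂ) : ℂ := ∑ p ∈ TS N, bc v p * ζ ^ ix p

namespace WvL

lemma sum_TS {E : Type*} [AddCommMonoid E] (N : ℕ) (f : ℕ × ℕ → E) :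
    ∑ p ∈ TS N, f p = ∑ j ∈ Finset.range N, ∑ p ∈ Finset.HasAntidiagonal.antidiagonal j, f p := by
  classical
  rw [← Finset.sum_fiberwise_of_maps_to (s := TS N) (t := Finset.range N)
    (g := fun p => p.1 + p.2) (f := f)]
  · refine Finset.sum_congr rfl fun j hj => ?_
    refine Finset.sum_congr ?_ fun _ _ => rfl
    ext p
    have hj' := Finset.mem_range.1 hj
    have hm : p ∈ Finset.HasAntidiagonal.antidiagonal j ↔ p.1 + p.2 = j :=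
      Finset.HasAntidiagonal.mem_antidiagonal
    rw [hm]
    simp only [TS, Finset.mem_filter, Finset.mem_product, Finset.mem_range]
    constructor
    · rintro ⟨_, h⟩; exact h
    · intro h
      exact ⟨⟨⟨by omega, by omega⟩, by omega⟩, h⟩
  · intro p hp
    simp only [TS, Finset.mem_filter, Finset.mem_product, Finset.mem_range] at hp
    exact Finset.mem_range.2 hp.2

lemma binom (a b : ℂ) (j : ℕ) : ∑ p ∈ Finset.HasAntidiagonal.antidiagonal j,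
    a ^ p.1 / (p.1.factorial : ℂ) * (b ^ p.2 / (p.2.factorial : ℂ)) =
      (a + b) ^ j / (j.factorial : ℂ) := by
  rw [(Commute.all a b).add_pow', Finset.sum_div]
  refine Finset.sum_congr rfl fun p hp => ?_
  have h3 : p.1 + p.2 = j := Finset.HasAntidiagonal.mem_antidiagonal.1 hp
  have h4 : (j.choose p.1 : ℂ) * (p.1.factorial : ℂ) * (p.2.factorial : ℂ) = (j.factorial : ℂ) := by
    have := Nat.choose_mul_factorial_mul_factorial (n := j) (k := p.1) (by omega)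
    rw [show j - p.1 = p.2 by omega] at this
    exact_mod_cast this
  have f1 : (p.1.factorial : ℂ) ≠ 0 := by exact_mod_cast p.1.factorial_ne_zero
  have f2 : (p.2.factorial : ℂ) ≠ 0 := by exact_mod_cast p.2.factorial_ne_zero
  have f3 : (j.factorial : ℂ) ≠ 0 := by exact_mod_cast j.factorial_ne_zero
  rw [nsmul_eq_mul, div_mul_div_comm, div_eq_div_iff (mul_ne_zero f1 f2) f3, ← h4]
  ring

lemma ne0 {ζ : ℂ} (hζ : ‖ζ‖ = 1) : ζ ≠ 0 := by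
  rintro rfl
  simp at hζ

lemma inv_conj {ζ : ℂ} (hζ : ‖ζ‖ = 1) : ζ⁻¹ = (starRingEnd ℂ) ζ := by
  have h : ζ * (starRingEnd ℂ) ζ = 1 := by
    rw [Complex.mul_conj, Complex.normSq_eq_norm_sq, hζ]
    simp
  exact inv_eq_of_mul_eq_one_right h

lemma term {v ζ : ℂ} (hζ : ‖ζ‖ = 1) (p : ℕ × ℕ) : bc v p * ζ ^ ix p =
    (v * ζ / 2) ^ p.1 / (p.1.factorial : ℂ) *
      ((-((starRingEnd ℂ) (v * ζ)) / 2) ^ p.2 / (p.2.factorial : ℂ)) := by
  have h0 := ne0 hζ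
  unfold bc be ix
  rw [zpow_sub₀ h0, zpow_natCast, zpow_natCast, div_eq_mul_inv (ζ ^ p.1), ← inv_pow, inv_conj hζ,
    map_mul]
  have e : -((starRingEnd ℂ) v * (starRingEnd ℂ) ζ) / 2 =
      (-1) * ((starRingEnd ℂ) v / 2) * (starRingEnd ℂ) ζ := by ring
  have e' : v * ζ / 2 = v / 2 * ζ := by ring
  rw [e, e', mul_pow, mul_pow, mul_pow]
  ring

lemma Ev_eq {v ζ : ℂ} (hζ : ‖ζ‖ = 1) (N : ℕ) : Ev v N ζ =
    ∑ j ∈ Finset.range N, ((((v * ζ).im : ℂ) * I) ^ j / (j.factorial : ℂ)) := by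
  unfold Ev
  rw [sum_TS]
  refine Finset.sum_congr rfl fun j _ => ?_
  rw [Finset.sum_congr rfl fun p _ => term hζ p, binom]
  congr 2
  have h := Complex.sub_conj (v * ζ)
  have e : v * ζ / 2 + -((starRingEnd ℂ) (v * ζ)) / 2 = (v * ζ - (starRingEnd ℂ) (v * ζ)) / 2 := by
    ring
  rw [e, h]
  push_cast
  ring

theorem ek0 (R : ℝ) (hR : 0 < R) (δ : ℝ) (hδ : 0 < δ) : ∃ N₀ : ℕ, ∀ N : ℕ, N₀ ≤ N → ∀ v : ℂ,
    ‖v‖ ≤ R → ∀ ζ : ℂ, ‖ζ‖ = 1 →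
      ‖Ev v N ζ - Complex.exp (((v * ζ).im : ℂ) * I)‖ ≤ δ := by
  have h1 := FloorSemiring.tendsto_pow_div_factorial_atTop R
  have h2 : ∀ᶠ n : ℕ in atTop, R ^ n / (n.factorial : ℝ) < δ / 2 :=
    h1.eventually (gt_mem_nhds (by positivity))
  obtain ⟨N1, hN1⟩ := eventually_atTop.1 h2
  obtain ⟨N2, hN2⟩ := exists_nat_ge (2 * R)
  refine ⟨max N1 N2, fun N hN v hv ζ hζ => ?_⟩
  have hn : ‖(((v * ζ).im : ℂ) * I)‖ ≤ R := by
    rw [norm_mul, Complex.norm_I, mul_one, Complex.norm_real]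
    refine (Complex.abs_im_le_norm (v * ζ)).trans ?_
    rw [norm_mul, hζ, mul_one]
    exact hv
  rw [Ev_eq hζ]
  have h3 : ‖(((v * ζ).im : ℂ) * I)‖ / (N.succ : ℝ) ≤ 1 / 2 := by
    rw [div_le_iff₀ (by positivity)]
    have : (N2 : ℝ) ≤ N := by exact_mod_cast (le_max_right N1 N2).trans hN
    push_cast
    linarith
  have h4 := Complex.exp_bound' h3
  rw [norm_sub_rev]
  refine h4.trans ?_
  have h5 := hN1 N ((le_max_left N1 N2).trans hN)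
  have h6 : ‖(((v * ζ).im : ℂ) * I)‖ ^ N / (N.factorial : ℝ) ≤ R ^ N / (N.factorial : ℝ) :=
    div_le_div_of_nonneg_right (pow_le_pow_left₀ (norm_nonneg _) hn N) (by positivity)
  linarith

end WvL

theorem ek : S_EK := WvL.ek0

namespace WvL

lemma exp1 (x : ℝ) : ‖Complex.exp ((x : ℂ) * I)‖ = 1 := Complex.norm_exp_ofReal_mul_I x

/-- products of two factors -/
lemma prod2 {a0 a1 b0 b1 : ℂ} {η : ℝ} (hη : η ≤ 1) (h0 : ‖a0 - b0‖ ≤ η) (h1 : ‖a1 - b1‖ ≤ η)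
    (n0 : ‖b0‖ = 1) (n1 : ‖b1‖ = 1) : ‖a0 * a1 - b0 * b1‖ ≤ 3 * η := by
  have e : a0 * a1 - b0 * b1 = (a0 - b0) * a1 + b0 * (a1 - b1) := by ring
  have hη0 : 0 ≤ η := (norm_nonneg _).trans h0
  have m1 : ‖a1‖ ≤ 2 := by
    have := norm_le_norm_add_norm_sub' a1 b1
    linarith
  rw [e]
  refine (norm_add_le _ _).trans ?_
  rw [norm_mul, norm_mul, n0, one_mul]
  nlinarith [norm_nonneg (a0 - b0), norm_nonneg a1]

lemma prod4 {a b : Fin 4 → ℂ} {η : ℝ} (hη : η ≤ 1) (h : ∀ i, ‖a i - b i‖ ≤ η)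
    (n : ∀ i, ‖b i‖ = 1) : ‖∏ i, a i - ∏ i, b i‖ ≤ 15 * η := by
  rw [Fin.prod_univ_four, Fin.prod_univ_four]
  have hη0 : 0 ≤ η := (norm_nonneg _).trans (h 0)
  have e : a 0 * a 1 * a 2 * a 3 - b 0 * b 1 * b 2 * b 3 =
      (a 0 - b 0) * (a 1 * a 2 * a 3) + b 0 * (a 1 - b 1) * (a 2 * a 3) +
        b 0 * b 1 * (a 2 - b 2) * a 3 + b 0 * b 1 * b 2 * (a 3 - b 3) := by ring
  have m : ∀ i, ‖a i‖ ≤ 2 := fun i => by
    have := norm_le_norm_add_norm_sub' (a i) (b i)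
    have := h i
    have := n i
    linarith
  have m23 : ‖a 2 * a 3‖ ≤ 4 := by
    rw [norm_mul]
    nlinarith [m 2, m 3, norm_nonneg (a 2), norm_nonneg (a 3)]
  have m123 : ‖a 1 * a 2 * a 3‖ ≤ 8 := by
    rw [mul_assoc, norm_mul]
    nlinarith [m 1, norm_nonneg (a 1), norm_nonneg (a 2 * a 3)]
  rw [e]
  have t0 : ‖(a 0 - b 0) * (a 1 * a 2 * a 3)‖ ≤ η * 8 := by
    rw [norm_mul]
    exact mul_le_mul (h 0) m123 (norm_nonneg _) hη0
  have t1 : ‖b 0 * (a 1 - b 1) * (a 2 * a 3)‖ ≤ η * 4 := by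
    rw [norm_mul, norm_mul, n 0, one_mul]
    exact mul_le_mul (h 1) m23 (norm_nonneg _) hη0
  have t2 : ‖b 0 * b 1 * (a 2 - b 2) * a 3‖ ≤ η * 2 := by
    rw [norm_mul, norm_mul, norm_mul, n 0, n 1, one_mul, one_mul]
    exact mul_le_mul (h 2) (m 3) (norm_nonneg _) hη0
  have t3 : ‖b 0 * b 1 * b 2 * (a 3 - b 3)‖ ≤ η := by
    rw [norm_mul, norm_mul, norm_mul, n 0, n 1, n 2, one_mul, one_mul, one_mul]
    exact h 3
  have := norm_add_le ((a 0 - b 0) * (a 1 * a 2 * a 3) + b 0 * (a 1 - b 1) * (a 2 * a 3) +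
        b 0 * b 1 * (a 2 - b 2) * a 3) (b 0 * b 1 * b 2 * (a 3 - b 3))
  have := norm_add_le ((a 0 - b 0) * (a 1 * a 2 * a 3) + b 0 * (a 1 - b 1) * (a 2 * a 3))
    (b 0 * b 1 * (a 2 - b 2) * a 3)
  have := norm_add_le ((a 0 - b 0) * (a 1 * a 2 * a 3)) (b 0 * (a 1 - b 1) * (a 2 * a 3))
  linarith

/-- the product of four plane waves, uniformly in `ζ` -/
theorem unif4 (v : Fin 4 → ℂ) (δ : ℝ) (hδ : 0 < δ) : ∃ N₀ : ℕ, ∀ N : ℕ, N₀ ≤ N →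
    ∀ s : Fin 4 → ℂ, (∀ i, ‖s i‖ = 1) → ∀ ζ : ℂ, ‖ζ‖ = 1 →
      ‖∏ i, Ev (v i) N (s i * ζ) - Complex.exp ((((∑ i, s i * v i) * ζ).im : ℂ) * I)‖ ≤ δ := by
  obtain ⟨N₀, hN₀⟩ := ek0 (∑ i, ‖v i‖ + 1) (by positivity) (min 1 (δ / 15)) (by positivity)
  refine ⟨N₀, fun N hN s hs ζ hζ => ?_⟩
  have h1 := prod4 (a := fun i => Ev (v i) N (s i * ζ))
    (b := fun i => Complex.exp (((v i * (s i * ζ)).im : ℂ) * I)) (min_le_left 1 (δ / 15))
    (fun i => hN₀ N hN (v i) (by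
      have := Finset.single_le_sum (f := fun i => ‖v i‖) (fun i _ => norm_nonneg _)
        (Finset.mem_univ i)
      exact this.trans (by linarith)) (s i * ζ) (by rw [norm_mul, hs, hζ, one_mul]))
    (fun i => exp1 _)
  have e : ∏ i, Complex.exp (((v i * (s i * ζ)).im : ℂ) * I) =
      Complex.exp ((((∑ i, s i * v i) * ζ).im : ℂ) * I) := by
    have e1 : (((∑ i, s i * v i) * ζ).im : ℂ) = ∑ i, ((v i * (s i * ζ)).im : ℂ) := by
      rw [← Complex.ofReal_sum, ← Complex.im_sum, Finset.sum_mul]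
      congr 2
      refine Finset.sum_congr rfl fun i _ => ?_
      ring
    rw [← Complex.exp_sum, e1, Finset.sum_mul]
  simp only [e] at h1
  refine h1.trans ?_
  have := min_le_right 1 (δ / 15)
  linarith

/-- expansion of the product -/
lemma expand4 (v s : Fin 4 → ℂ) (N : ℕ) (ζ : ℂ) (h0 : ζ ≠ 0) :
    ∏ i, Ev (v i) N (s i * ζ) = ∑ P ∈ TS4 N, (∏ i, bc (v i) (P i)) *
      ((s 0 ^ ix (P 0) * s 1 ^ ix (P 1) * s 2 ^ ix (P 2) * s 3 ^ ix (P 3)) *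
        ζ ^ (ix (P 0) + ix (P 1) + ix (P 2) + ix (P 3))) := by
  unfold Ev
  rw [Finset.prod_univ_sum]
  refine Finset.sum_congr rfl fun P _ => ?_
  simp only [Fin.prod_univ_four, mul_zpow, zpow_add₀ h0]
  ring

/-- the six sign vectors -/
def sg : Fin 6 → Fin 4 → ℂ := ![![1,1,-1,-1], ![1,-1,1,-1], ![1,-1,-1,1], ![-1,-1,1,1],
  ![-1,1,-1,1], ![-1,1,1,-1]]

lemma sg1 (k : Fin 6) (i : Fin 4) : ‖sg k i‖ = 1 := by
  fin_cases k <;> fin_cases i <;> simp [sg]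

lemma ep_sg (a b c d : ℤ) : Pool.Agent.TH294.RG.ep2 a b c d =
    (1 / 6) * ∑ k, sg k 0 ^ a * sg k 1 ^ b * sg k 2 ^ c * sg k 3 ^ d := by
  have e : ∑ k, sg k 0 ^ a * sg k 1 ^ b * sg k 2 ^ c * sg k 3 ^ d =
      (-1) ^ c * (-1) ^ d + (-1) ^ b * (-1) ^ d + (-1) ^ b * (-1) ^ c + (-1) ^ a * (-1) ^ b +
        (-1) ^ a * (-1) ^ c + (-1) ^ a * (-1) ^ d := by
    simp [Fin.sum_univ_succ, sg]
    ring
  rw [e]
  unfold Pool.Agent.TH294.RG.ep2 Pool.Agent.W745.RW.eps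
  have ev : ∀ x : ℤ, x % 2 = 0 → (-1 : ℂ) ^ x = 1 := fun x hx =>
    (Int.even_iff.2 hx).neg_one_zpow
  have od : ∀ x : ℤ, x % 2 = 1 → (-1 : ℂ) ^ x = -1 := fun x hx =>
    (Int.odd_iff.2 hx).neg_one_zpow
  have p0 : Even (a + b + c + d) ↔ (a + b + c + d) % 2 = 0 := Int.even_iff
  have sg2 : ∀ x : ℤ, x % 2 = 0 ∧ (-1 : ℂ) ^ x = 1 ∨ x % 2 = 1 ∧ (-1 : ℂ) ^ x = -1 := by
    intro x
    rcases Int.emod_two_eq_zero_or_one x with h | h
    · exact Or.inl ⟨h, ev x h⟩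
    · exact Or.inr ⟨h, od x h⟩
  rcases sg2 a with ⟨ha, ea⟩ | ⟨ha, ea⟩ <;> rcases sg2 b with ⟨hb, eb⟩ | ⟨hb, eb⟩ <;>
    rcases sg2 c with ⟨hc, ec⟩ | ⟨hc, ec⟩ <;> rcases sg2 d with ⟨hd, ed⟩ | ⟨hd, ed⟩ <;>
    rw [ea, eb, ec, ed] <;>
    (first | rw [if_pos (p0.2 (by omega))] | rw [if_neg (fun h => by have := p0.1 h; omega)]) <;>
    (try (first | rw [if_pos (by omega)] | rw [if_neg (by omega)])) <;> norm_num

/-- the kernel as an average of products -/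
lemma ker (v : Fin 4 → ℂ) (N : ℕ) (ζ : ℂ) (h0 : ζ ≠ 0) :
    ∑ P ∈ TS4 N, (∏ i, bc (v i) (P i)) *
      (Pool.Agent.TH294.RG.ep2 (ix (P 0)) (ix (P 1)) (ix (P 2)) (ix (P 3)) *
        ζ ^ (ix (P 0) + ix (P 1) + ix (P 2) + ix (P 3))) =
      (1 / 6) * ∑ k, ∏ i, Ev (v i) N (sg k i * ζ) := by
  simp only [expand4 v _ N ζ h0]
  rw [Finset.sum_comm, Finset.mul_sum]
  refine Finset.sum_congr rfl fun P _ => ?_
  rw [ep_sg, ← Finset.mul_sum, ← Finset.sum_mul]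
  ring

end WvL

end

end Pool.Agent.Helper27K9.FP
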